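import Pool.Agent.Lib.MP_60c5b4_pr.Scheme

-- part Pool.Agent.Lib.MP_60c5b4_pr.Events
section

/-!
Probability estimates for the exploration.
-/

namespace Pool.Agent.Lib.MP_60c5b4_pr

open Finset Classical

/-- The discrete domain contains the ball `B(z0, 4 r)` and lies in `B(z0, B)`. -/
structure Env (p : Pt → Fin 3 → ℝ) (δ M B : ℝ) (V : Finset Pt) (z0 : ℂ) (r : ℝ) : Prop where
  nice : Nice p δ M
  mem : ∀ v, dist (pos δ v) z0 ≤ 4 * r → v ∈ V
  diam : ∀ v ∈ V, dist (pos δ v) z0 ≤ B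
  Mr : M * r ≤ 1 / 2000
  le : δ ≤ r
  le_one : δ ≤ 1
  rB : 4 * r ≤ B

/-- Admissible thresholds and mesh. -/
structure Adm (δ : ℝ) (ρ th : ℕ → ℝ) (N : ℕ) : Prop where
  lo : ∀ k, ρ k / 2 ≤ th k
  hi : ∀ k, th k ≤ ρ k
  mesh : ∀ k < N, 4 * δ ≤ ρ k

variable {p : Pt → Fin 3 → ℝ} {δ M B r a β η : ℝ} {V : Finset Pt} {z0 : ℂ} {z : ℕ → ℂ}
  {ρ th : ℕ → ℝ} {m : ℕ → ℕ} {n0 N k : ℕ}

theorem Env.nr_mem (he : Env p δ M B V z0 r) {x : ℂ} (hx : dist x z0 ≤ 3 * r) : nr δ x ∈ V := by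
  refine he.mem _ ?_
  have := dist_triangle (pos δ (nr δ x)) x z0
  have := dist_nr he.nice.pos x
  have := he.le
  linarith

theorem Env.diam' (he : Env p δ M B V z0 r) {x : ℂ} (hx : dist x z0 ≤ 4 * r) :
    ∀ v ∈ V, dist (pos δ v) x ≤ 2 * B := fun v hv => by
  have := dist_triangle_right (pos δ v) x z0
  have := he.diam v hv
  have := he.rB
  linarith

theorem dense_at (he : Env p δ M B V z0 r) (hs : Scheme z0 r a β η z ρ m n0 N)
    (ha : Adm δ ρ th N) (hk : k ∈ Ico n0 N) (σ : Cfg) {x : ℂ}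
    (hx : dist x z0 ≤ r ∨ dist x (z k) ≤ m k * (4000 * ρ k) + ρ k) :
    ∃ s ∈ expl δ V z th σ k, dist (pos δ s) x ≤ 4 * ρ k := by
  obtain ⟨hk1, hk2⟩ := Finset.mem_Ico.1 hk
  obtain ⟨i, hi, h1, h2⟩ := hs.cover k hk1 x hx
  have h3 := ha.mesh i (hi.trans hk2)
  have h4 := ha.lo i
  have h5 := ha.hi i
  have := he.nice.pos
  obtain ⟨s, hs1, hs2⟩ := expl_near (th := th) (σ := σ) he.nice.pos hi (he.nr_mem (hs.inside i))
    (by linarith)
  refine ⟨s, hs1, ?_⟩
  have := dist_triangle_right (pos δ s) x (z i)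
  linarith

theorem item_facts (he : Env p δ M B V z0 r) (hs : Scheme z0 r a β η z ρ m n0 N)
    (ha : Adm δ ρ th N) (hk : k ∈ Ico n0 N) (σ : Cfg) :
    (∀ v, dist (pos δ v) (pos δ (nr δ (z k))) ≤ m k * (800 * (5 * ρ k)) →
      dist (pos δ v) z0 ≤ 2 * r) ∧ δ ≤ 5 * ρ k ∧ M * (5 * ρ k) ≤ 1 / 480 ∧
    (∀ v, dist (pos δ v) (pos δ (nr δ (z k))) ≤ m k * (800 * (5 * ρ k)) →
      ∃ s ∈ expl δ V z th σ k, dist (pos δ s) (pos δ v) ≤ 5 * ρ k) ∧
    ∀ v ∈ V, dist (pos δ v) (pos δ (nr δ (z k))) ≤ 2 * B := by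
  obtain ⟨hk1, hk2⟩ := Finset.mem_Ico.1 hk
  have h0 := he.nice.pos
  have h1 := dist_nr h0 (z k)
  have h2 := ha.mesh k hk2
  have h3 := hs.inner k hk1
  have h4 := hs.pos k
  have h5 : (1 : ℝ) ≤ m k := by exact_mod_cast hs.one k
  refine ⟨fun v hv => ?_, by linarith, ?_, fun v hv => ?_, he.diam' ?_⟩
  · have := dist_triangle4 (pos δ v) (pos δ (nr δ (z k))) (z k) z0
    linarith
  · have h6 : 4000 * ρ k ≤ 2 * r := by nlinarith [dist_nonneg (x := z k) (y := z0)]
    have := mul_le_mul_of_nonneg_left h6 (zero_le_one.trans he.nice.one)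
    have := he.Mr
    linarith
  · obtain ⟨s, hs1, hs2⟩ := dense_at he hs ha hk σ (x := pos δ v) (Or.inr (by
      have := dist_triangle (pos δ v) (pos δ (nr δ (z k))) (z k)
      linarith))
    exact ⟨s, hs1, by linarith⟩
  · have := dist_triangle (pos δ (nr δ (z k))) (z k) z0
    have := hs.inside k
    have := he.le
    linarith

/-- Second moment constant for the exploration. -/
noncomputable def cM : ℝ := 25 * cRad + 1

theorem cM_pos : 0 < cM := by have := cRad_nonneg; unfold cM; positivity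

theorem item_rad (he : Env p δ M B V z0 r) (hs : Scheme z0 r a β η z ρ m n0 N)
    (ha : Adm δ ρ th N) (hβ : (1 + 2 * B) ^ 2 * β ≤ 1) (hk : k ∈ Ico n0 N) {σ : Cfg}
    (hσ : IsTree V σ) :
    PE V p (V \ expl δ V z th σ k)
      (fun τ => rad δ (V \ expl δ V z th σ k) τ (nr δ (z k)) ^ 2) ≤ cM * ρ k ^ 2 := by
  obtain ⟨f1, f2, f3, f4, f5⟩ := item_facts he hs ha hk σ
  have h0 := he.nice.pos
  have hr := he.le
  have hB := he.rB
  refine (rad_moment he.nice ((closed_expl k).bar hσ) (fun v hv => he.mem v (by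
    have := f1 v hv; linarith)) f2 f3 f4 (by linarith) f5).trans ?_
  have h1 : (δ + 2 * B) ^ 2 ≤ (1 + 2 * B) ^ 2 :=
    pow_le_pow_left₀ (by linarith) (by linarith [he.le_one]) 2
  have h2 := mul_le_mul h1 (hs.tail k) (pow_pos q0_pos _).le (sq_nonneg _)
  have h3 := mul_le_mul_of_nonneg_right hβ (sq_nonneg (ρ k))
  unfold cM
  linarith

theorem mart_tail (he : Env p δ M B V z0 r) (hs : Scheme z0 r a β η z ρ m n0 N)
    (ha : Adm δ ρ th N) (hβ : (1 + 2 * B) ^ 2 * β ≤ 1) (d : ℂ) {L T : ℝ} (hL : 0 ≤ L)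
    (hT : 0 < T) :
    Pr V p V (fun σ => T ≤ |mart δ V p (psi δ d) z th ρ n0 L N σ|) ≤
      ‖d‖ ^ 2 * cM * (L + a ^ 2) / T ^ 2 := by
  have hp := he.nice.trans
  have h1 := Pr_markov (V := V) (D := V) hp (pow_pos hT 2)
    (F := fun σ => mart δ V p (psi δ d) z th ρ n0 L N σ ^ 2) fun σ _ => sq_nonneg _
  refine le_trans (Pr_mono hp fun σ _ h => ?_) (h1.trans ?_)
  · rw [← sq_abs (mart _ _ _ _ _ _ _ _ _ _ _)]
    exact pow_le_pow_left₀ hT.le h 2
  · refine div_le_div_of_nonneg_right ?_ (sq_nonneg _)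
    rw [mart_sq hp]
    refine ws_sum_cond hp (Φ := fun k T σ => inc V p (psi δ d) (nr δ (z k)) T σ ^ 2)
      (mul_nonneg (sq_nonneg _) cM_pos.le) hL
      (fun k => pow_le_pow_left₀ (hs.pos k).le (hs.small k) 2)
      (fun k T σ σ' h => by simp only [inc, root_off h]) fun k hk σ hσ => ?_
    refine (PE_var_le hp _ (psi δ d (nr δ (z k)))).trans ?_
    rw [mul_assoc]
    refine le_trans ?_ (mul_le_mul_of_nonneg_left (item_rad he hs ha hβ hk hσ) (sq_nonneg _))
    rw [← PE_const_mul]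
    refine PE_mono hp fun τ hτ => ?_
    rw [← mul_pow, ← sq_abs]
    exact pow_le_pow_left₀ (abs_nonneg _) ((psi_sub_le d _ _).trans
      (mul_le_mul_of_nonneg_left (root_le_rad he.nice.pos hτ _) (norm_nonneg _))) 2

theorem item_drift (he : Env p δ M B V z0 r) (hs : Scheme z0 r a β η z ρ m n0 N)
    (ha : Adm δ ρ th N) {d : ℂ} {κ : ℝ} (hκ : 0 ≤ κ) (hβ : ‖d‖ * (1 + 4 * B) * β ≤ κ / 64)
    (hdr : ∀ v, dist (pos δ v) z0 ≤ 2 * r → psi δ d v + κ * δ ^ 2 ≤ avg p (psi δ d) v)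
    (hk : k ∈ Ico n0 N) {σ : Cfg} (hσ : IsTree V σ) (hact : Act δ V z th σ k) :
    κ / 64 * ρ k ^ 2 ≤
      HE V p (V \ expl δ V z th σ k) (psi δ d) (nr δ (z k)) - psi δ d (nr δ (z k)) := by
  obtain ⟨f1, f2, f3, f4, f5⟩ := item_facts he hs ha hk σ
  have h0 := he.nice.pos
  have hr := he.le
  have hB := he.rB
  have h4 := hs.pos k
  have h5 : (1 : ℝ) ≤ m k := by exact_mod_cast hs.one k
  refine le_trans ?_ (drift_lower he.nice ((closed_expl k).bar hσ) (t := ρ k / 4)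
    (fun v hv => he.mem v (by have := f1 v hv; linarith)) f2 f3 f4 f5 hκ
    (fun v hv => hdr v (f1 v hv)) (by positivity) (by nlinarith)
    (by have := he.nice.one; nlinarith) fun s hs' => ?_)
  · have h1 : ‖d‖ * (δ + 2 * (2 * B)) ≤ ‖d‖ * (1 + 4 * B) :=
      mul_le_mul_of_nonneg_left (by linarith [he.le_one]) (norm_nonneg _)
    have h2 := mul_le_mul h1 (hs.tail k) (pow_pos q0_pos _).le
      (mul_nonneg (norm_nonneg _) (by linarith))
    have h3 := mul_le_mul_of_nonneg_right hβ (sq_nonneg (ρ k))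
    linarith
  · have h1 : th k ≤ dist (pos δ s) (z k) := not_lt.1 fun h => hact ⟨s, hs', h⟩
    have h2 := dist_triangle (pos δ s) (pos δ (nr δ (z k))) (z k)
    have h3 := dist_nr h0 (z k)
    have := ha.lo k
    have := ha.mesh k (Finset.mem_Ico.1 hk).2
    linarith

theorem stay_est (he : Env p δ M B V z0 r) (hs : Scheme z0 r a β η z ρ m n0 N)
    (ha : Adm δ ρ th N) :
    Pr V p V (fun σ => ∃ k ∈ Ico n0 N, ∃ y ∈ branch (V \ expl δ V z th σ k) σ (nr δ (z k)),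
      m k * (800 * (5 * ρ k)) < dist (pos δ y) (pos δ (nr δ (z k)))) ≤ η := by
  have hp := he.nice.trans
  refine (Pr_exists hp _ _).trans (le_trans (Finset.sum_le_sum fun k hk => ?_) hs.sum)
  have := Pr_cond (V := V) (D := V) hp (stopping_expl (δ := δ) (V := V) (z := z) (th := th) k)
    (fun _ => closed_expl k) (G := fun _ => True) (fun _ _ _ => rfl)
    (A := fun T σ => ∃ y ∈ branch (V \ T) σ (nr δ (z k)),
      m k * (800 * (5 * ρ k)) < dist (pos δ y) (pos δ (nr δ (z k))))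
    (fun T σ σ' h => by simp only [branch_off h]) (pow_pos q0_pos (m k)).le fun σ hσ _ => by
      obtain ⟨f1, f2, f3, f4, -⟩ := item_facts he hs ha hk σ
      exact leave_exp he.nice ((closed_expl k).bar hσ) (fun v hv => he.mem v (by
        have := f1 v hv; linarith [he.le, he.nice.pos])) f2 f3 f4 (by simp)
  simpa using this

theorem touch_est (he : Env p δ M B V z0 r) (th : ℕ → ℝ) {t e : ℝ} {j : ℕ} (ht0 : 0 < t)
    (ht : t ≤ r / 4) (hδ : δ ≤ e) (he2 : e + 801 ^ j * e ≤ 2 * t) :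
    Pr V p V (fun σ => ∃ k ∈ range N, ∃ y ∈ branch (V \ expl δ V z th σ k) σ (nr δ (z k)),
      dist (pos δ y) z0 ≤ 3 * r ∧ (∃ s ∈ expl δ V z th σ k, dist (pos δ s) (pos δ y) ≤ e) ∧
      4 * t < dist (pos δ y) (pos δ (root (V \ expl δ V z th σ k) σ (nr δ (z k))))) ≤
      N * (25 * (3 * r / t) ^ 2 * q0 ^ j) := by
  have hp := he.nice.trans
  obtain ⟨G, g1, g2, g3⟩ := exists_net z0 ht0 (show t ≤ 3 * r by linarith)
  refine (Pr_exists hp _ _).trans ?_
  refine (Finset.sum_le_card_nsmul _ _ (25 * (3 * r / t) ^ 2 * q0 ^ j) fun k _ => ?_).trans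
    (by simp)
  have h1 : ∀ g ∈ G, Pr V p V (fun σ => True ∧
      ((∃ y ∈ branch (V \ expl δ V z th σ k) σ (nr δ (z k)), dist (pos δ y) g ≤ t ∧
      ∃ s ∈ expl δ V z th σ k, dist (pos δ s) (pos δ y) ≤ e) ∧
      3 * t < dist (pos δ (root (V \ expl δ V z th σ k) σ (nr δ (z k)))) g)) ≤ q0 ^ j :=
    fun g hg => Pr_cond (V := V) (D := V) hp
      (stopping_expl (δ := δ) (V := V) (z := z) (th := th) k)
      (fun _ => closed_expl k) (G := fun _ => True) (fun _ _ _ => rfl)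
      (A := fun T σ => (∃ y ∈ branch (V \ T) σ (nr δ (z k)), dist (pos δ y) g ≤ t ∧
        ∃ s ∈ T, dist (pos δ s) (pos δ y) ≤ e) ∧
        3 * t < dist (pos δ (root (V \ T) σ (nr δ (z k)))) g)
      (fun T σ σ' h => by simp only [branch_off h, root_off h]) (pow_pos q0_pos j).le
      fun σ hσ _ => near_touch he.nice ((closed_expl k).bar hσ) (fun v hv => he.mem v (by
        have := dist_triangle (pos δ v) g z0
        have := g2 g hg
        linarith)) (by
          have := mul_le_mul_of_nonneg_left ht (zero_le_one.trans he.nice.one)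
          have := he.Mr
          linarith) hδ (by linarith) _
  refine le_trans (Pr_mono hp fun σ _ ⟨y, hy, h2, h3, h4⟩ => ?_) ((Pr_exists hp G _).trans
    ((Finset.sum_le_card_nsmul _ _ _ h1).trans ?_))
  · rw [nsmul_eq_mul]
    exact mul_le_mul_of_nonneg_right g1 (pow_pos q0_pos j).le
  · obtain ⟨g, hg, h5⟩ := g3 _ h2
    refine ⟨g, hg, trivial, ⟨y, hy, h5, h3⟩, ?_⟩
    have := dist_triangle_right (pos δ y)
      (pos δ (root (V \ expl δ V z th σ k) σ (nr δ (z k)))) g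
    linarith

theorem exists_threshold (hp : Trans p) (δ : ℝ) (z : ℕ → ℂ) {ρ : ℕ → ℝ} {e : ℝ} {n : ℕ}
    (hn : 0 < n) (he0 : 0 ≤ e) (N : ℕ) (he : ∀ k < N, 4 * n * e ≤ ρ k) :
    ∃ I : ℕ → Fin n, (∀ k, N ≤ k → I k = ⟨0, hn⟩) ∧ ∀ k < N,
      Pr V p V (fun σ => (∃ s ∈ expl δ V z (fun i => ρ i * (1 / 2 + I i / (2 * n))) σ k,
        dist (pos δ s) (z k) < ρ k * (1 / 2 + I k / (2 * n)) + e) ∧
        ¬ ∃ s ∈ expl δ V z (fun i => ρ i * (1 / 2 + I i / (2 * n))) σ k,
        dist (pos δ s) (z k) < ρ k * (1 / 2 + I k / (2 * n)) - e) ≤ 1 / n := by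
  have hn' : (0 : ℝ) < n := by exact_mod_cast hn
  induction N with
  | zero => exact ⟨fun _ => ⟨0, hn⟩, fun _ _ => rfl, fun k hk => absurd hk (by omega)⟩
  | succ N ih =>
    obtain ⟨I, hI0, hI⟩ := ih fun k hk => he k (by omega)
    let A : ℝ → Cfg → Prop := fun t σ =>
      ∃ s ∈ expl δ V z (fun i => ρ i * (1 / 2 + I i / (2 * n))) σ N, dist (pos δ s) (z N) < t
    have hA : ∀ t t' σ, t ≤ t' → A t σ → A t' σ := fun t t' σ h ⟨s, hs, h1⟩ =>
      ⟨s, hs, h1.trans_le h⟩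
    let b : ℕ → ℝ := fun i => ρ N * (1 / 2 + i / (2 * n))
    have hb : ∀ i, b i + e ≤ b (i + 1) - e := fun i => by
      have h1 := he N (Nat.lt_succ_self N)
      have : b (i + 1) - b i = ρ N / (2 * n) := by simp only [b]; push_cast; ring
      have h2 : 2 * e ≤ ρ N / (2 * n) := by rw [le_div_iff₀ (by positivity)]; linarith
      linarith
    have hsum : ∑ i ∈ range n, Pr V p V (fun σ => A (b i + e) σ ∧ ¬ A (b i - e) σ) ≤ 1 := by
      unfold Pr
      rw [← PE_sum hp]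
      refine PE_le hp fun σ _ => ?_
      have : ∀ i ∈ range n, ind (A (b i + e) σ ∧ ¬ A (b i - e) σ) ≤
          ind (A (b (i + 1) - e) σ) - ind (A (b i - e) σ) := by
        intro i _
        by_cases h1 : A (b i - e) σ
        · rw [ind_neg fun h => h.2 h1, ind_pos h1,
            ind_pos (hA _ _ σ (by have := hb i; linarith) h1)]
          simp
        · rw [ind_neg h1, sub_zero]
          exact ind_mono fun h => hA _ _ σ (hb i) h.1
      refine (Finset.sum_le_sum this).trans ?_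
      rw [Finset.sum_range_sub fun i => ind (A (b i - e) σ)]
      have := ind_le_one (A (b n - e) σ)
      have := ind_nonneg (A (b 0 - e) σ)
      linarith
    obtain ⟨i, hi, hi2⟩ := Finset.exists_le_of_sum_le (s := range n) ⟨0, Finset.mem_range.2 hn⟩
      (f := fun i => Pr V p V (fun σ => A (b i + e) σ ∧ ¬ A (b i - e) σ))
      (g := fun _ => 1 / (n : ℝ)) (by simpa [hn'.ne'] using hsum)
    refine ⟨Function.update I N ⟨i, Finset.mem_range.1 hi⟩, fun k hk => ?_, fun k hk => ?_⟩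
    · rw [Function.update_of_ne (by omega)]; exact hI0 k (by omega)
    · have e1 : ∀ σ, expl δ V z (fun l => ρ l * (1 / 2 +
          (Function.update I N ⟨i, Finset.mem_range.1 hi⟩ l : ℕ) / (2 * n))) σ k =
          expl δ V z (fun l => ρ l * (1 / 2 + I l / (2 * n))) σ k := fun σ =>
        expl_th fun l hl => by rw [Function.update_of_ne (by omega)]
      simp only [e1]
      rcases Nat.lt_succ_iff_lt_or_eq.1 hk with h | h
      · rw [Function.update_of_ne h.ne]; exact hI k h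
      · subst h
        rw [Function.update_self]
        exact hi2

end Pool.Agent.Lib.MP_60c5b4_pr
end

-- part Pool.Agent.Lib.MP_60c5b4_pr.Growth
section

/-!
The accumulated squared scales of active points grow without bound.
-/

namespace Pool.Agent.Lib.MP_60c5b4_pr

open Finset Classical MeasureTheory

theorem vol_ball (c : ℂ) {R : ℝ} (hR : 0 ≤ R) :
    volume.real (Metric.closedBall c R) = Real.pi * R ^ 2 := by
  simp [Measure.real, Complex.volume_closedBall, hR, mul_comm]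

theorem vol_cover {ι : Type*} (s : Finset ι) (P : ι → Prop) (c : ι → ℂ) (R : ι → ℝ)
    (hR : ∀ i, 0 ≤ R i) :
    volume.real (⋃ i ∈ s.filter P, Metric.closedBall (c i) (R i)) ≤
      Real.pi * ∑ i ∈ s, ind (P i) * R i ^ 2 := by
  refine (measureReal_biUnion_finset_le _ _).trans (le_of_eq ?_)
  rw [Finset.mul_sum, Finset.sum_filter]
  refine Finset.sum_congr rfl fun i _ => ?_
  by_cases h : P i
  · simp [h, vol_ball _ (hR i)]
  · simp [h]

theorem area_cover {ι κ μ : Type*} (z0 : ℂ) {r : ℝ} (hr : 0 ≤ r)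
    (s1 : Finset ι) (P1 : ι → Prop) (c1 : ι → ℂ) (R1 : ι → ℝ) (h1 : ∀ i, 0 ≤ R1 i)
    (s2 : Finset κ) (P2 : κ → Prop) (c2 : κ → ℂ) (R2 : κ → ℝ) (h2 : ∀ i, 0 ≤ R2 i)
    (s3 : Finset μ) (P3 : μ → Prop) (c3 : μ → ℂ) (R3 : μ → ℝ) (h3 : ∀ i, 0 ≤ R3 i)
    (h : ∀ x, dist x z0 ≤ r → (∃ i ∈ s1, P1 i ∧ dist x (c1 i) ≤ R1 i) ∨
      (∃ i ∈ s2, P2 i ∧ dist x (c2 i) ≤ R2 i) ∨ ∃ i ∈ s3, P3 i ∧ dist x (c3 i) ≤ R3 i) :
    r ^ 2 ≤ ∑ i ∈ s1, ind (P1 i) * R1 i ^ 2 + (∑ i ∈ s2, ind (P2 i) * R2 i ^ 2 +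
      ∑ i ∈ s3, ind (P3 i) * R3 i ^ 2) := by
  have a1 := vol_cover s1 P1 c1 R1 h1
  have a2 := vol_cover s2 P2 c2 R2 h2
  have a3 := vol_cover s3 P3 c3 R3 h3
  have hsub : Metric.closedBall z0 r ⊆ (⋃ i ∈ s1.filter P1, Metric.closedBall (c1 i) (R1 i)) ∪
      ((⋃ i ∈ s2.filter P2, Metric.closedBall (c2 i) (R2 i)) ∪
        ⋃ i ∈ s3.filter P3, Metric.closedBall (c3 i) (R3 i)) := by
    intro x hx
    rcases h x hx with ⟨i, hi, hP, hd⟩ | ⟨i, hi, hP, hd⟩ | ⟨i, hi, hP, hd⟩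
    · exact Or.inl (Set.mem_biUnion (Finset.mem_filter.2 ⟨hi, hP⟩) hd)
    · exact Or.inr (Or.inl (Set.mem_biUnion (Finset.mem_filter.2 ⟨hi, hP⟩) hd))
    · exact Or.inr (Or.inr (Set.mem_biUnion (Finset.mem_filter.2 ⟨hi, hP⟩) hd))
  have hfin := measureReal_mono (μ := volume) hsub (IsCompact.measure_lt_top
    ((Finset.isCompact_biUnion _ fun _ _ => isCompact_closedBall _ _).union
      ((Finset.isCompact_biUnion _ fun _ _ => isCompact_closedBall _ _).union
        (Finset.isCompact_biUnion _ fun _ _ => isCompact_closedBall _ _)))).ne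
  rw [vol_ball _ hr] at hfin
  have b1 := hfin.trans (measureReal_union_le _ _)
  have b2 := measureReal_union_le (μ := volume)
    (⋃ i ∈ s2.filter P2, Metric.closedBall (c2 i) (R2 i))
    (⋃ i ∈ s3.filter P3, Metric.closedBall (c3 i) (R3 i))
  refine le_of_mul_le_mul_left ?_ Real.pi_pos
  linarith

variable {p : Pt → Fin 3 → ℝ} {δ M B r a β η : ℝ} {V : Finset Pt} {z0 : ℂ} {z : ℕ → ℂ}
  {ρ th : ℕ → ℝ} {m : ℕ → ℕ} {n0 N k : ℕ}

theorem epoch_est (he : Env p δ M B V z0 r) (hs : Scheme z0 r a β η z ρ m n0 N)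
    (ha : Adm δ ρ th N) (hβ : (1 + 2 * B) ^ 2 * β ≤ 1) {n1 n2 : ℕ} (h01 : n0 ≤ n1)
    (h2N : n2 ≤ N) {e s b c : ℝ} (he0 : 0 < e) (hes : 3 * e ≤ s) (hsr : s ≤ r)
    (hs1 : n1 * (2 * s) ^ 2 ≤ r ^ 2 / 4) (hδs : 2 * δ ≤ s) (hb : 0 ≤ b) (hc : 0 ≤ c)
    (hend : ∀ x, dist x z0 ≤ r → ∃ i < n2, dist x (z i) ≤ e ∧ ρ i ≤ e)
    (hlog : ∀ (w : ℂ) (x : Pt), dist w z0 ≤ 4 * r → s / 2 ≤ dist (pos δ x) w →
      Pr V p V (fun σ => ∃ y ∈ branch V σ x, dist (pos δ y) w ≤ 6 * e) ≤ b) :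
    Pr V p V (fun σ => qv δ V z th ρ n1 σ n2 < c) ≤
      100 * n1 * b + 2 * (32 + 2 * cM) * (c + a ^ 2) / r ^ 2 := by
  have hp := he.nice.trans
  have hδ := he.nice.pos
  have hr : 0 < r := hδ.trans_le he.le
  obtain ⟨G, g1, g2, g3⟩ := exists_net z0 (show 0 < 3 * e by positivity) (hes.trans hsr)
  let Bad : Cfg → ℂ → Prop := fun σ g => (∀ i < n1, s ≤ dist g (z i)) ∧
    ∃ y ∈ expl δ V z th σ n1, dist (pos δ y) g ≤ 6 * e
  let X : Cfg → ℝ := fun σ => ∑ g ∈ G, ind (Bad σ g) * (3 * e) ^ 2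
  let Φ : ℕ → Finset Pt → Cfg → ℝ := fun k T σ => (4 * ρ k + rad δ (V \ T) σ (nr δ (z k))) ^ 2
  let T : Cfg → ℝ := fun σ =>
    ∑ k ∈ Ico n1 n2, ws δ V z th ρ n1 c σ k * Φ k (expl δ V z th σ k) σ
  have hX : PE V p V X ≤ 25 * r ^ 2 * (n1 * b) := by
    simp only [X]
    rw [PE_sum hp]
    have h1 : ∀ g ∈ G, PE V p V (fun σ => ind (Bad σ g) * (3 * e) ^ 2) ≤
        (3 * e) ^ 2 * (n1 * b) := by
      intro g hg
      simp only [mul_comm _ ((3 * e) ^ 2)]
      rw [PE_const_mul]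
      refine mul_le_mul_of_nonneg_left ?_ (sq_nonneg _)
      by_cases hf : ∀ i < n1, s ≤ dist g (z i)
      · have h2 := Pr_exists (V := V) (D := V) hp (range n1)
          fun i σ => ∃ y ∈ branch V σ (nr δ (z i)), dist (pos δ y) g ≤ 6 * e
        have h3 := Finset.sum_le_card_nsmul (range n1) (fun i => Pr V p V
          fun σ => ∃ y ∈ branch V σ (nr δ (z i)), dist (pos δ y) g ≤ 6 * e) b fun i hi =>
          hlog g _ (by have := g2 g hg; linarith) (by
            have := hf i (Finset.mem_range.1 hi)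
            have := dist_triangle_left g (z i) (pos δ (nr δ (z i)))
            have := dist_nr hδ (z i)
            linarith)
        rw [Finset.card_range, nsmul_eq_mul] at h3
        refine le_trans (Pr_mono hp fun σ _ ⟨_, y, hy, h4⟩ => ?_) (h2.trans h3)
        obtain ⟨i, hi, -, h5⟩ := mem_expl.1 hy
        exact ⟨i, Finset.mem_range.2 hi, y, h5, h4⟩
      · exact (PE_le hp fun σ _ => (ind_neg fun h => hf h.1).le).trans (by positivity)
    refine (Finset.sum_le_card_nsmul _ _ _ h1).trans ?_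
    rw [nsmul_eq_mul, ← mul_assoc]
    refine mul_le_mul_of_nonneg_right ?_ (by positivity)
    have := mul_le_mul_of_nonneg_right g1 (sq_nonneg (3 * e))
    have e1 : 25 * (r / (3 * e)) ^ 2 * (3 * e) ^ 2 = 25 * r ^ 2 := by field_simp
    linarith
  have hT : PE V p V T ≤ (32 + 2 * cM) * (c + a ^ 2) := by
    simp only [T]
    rw [PE_sum hp]
    refine ws_sum_cond hp (by have := cM_pos; positivity) hc
      (fun k => pow_le_pow_left₀ (hs.pos k).le (hs.small k) 2)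
      (fun k T σ σ' h => by simp only [Φ, rad, branch_off h]) fun k hk σ hσ => ?_
    have hk' : k ∈ Ico n0 N := Finset.Ico_subset_Ico h01 h2N hk
    have h1 := item_rad he hs ha hβ hk' hσ
    have h2 : PE V p (V \ expl δ V z th σ k) (Φ k (expl δ V z th σ k)) ≤
        PE V p (V \ expl δ V z th σ k) fun τ => 32 * ρ k ^ 2 +
          2 * rad δ (V \ expl δ V z th σ k) τ (nr δ (z k)) ^ 2 :=
      PE_mono hp fun τ _ => by
        simp only [Φ]
        nlinarith [sq_nonneg (4 * ρ k - rad δ (V \ expl δ V z th σ k) τ (nr δ (z k)))]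
    rw [PE_add, PE_const hp, PE_const_mul] at h2
    linarith
  have m1 := Pr_markov (V := V) (D := V) hp (F := X) (t := r ^ 2 / 4) (by positivity)
    fun σ _ => Finset.sum_nonneg fun _ _ => mul_nonneg (ind_nonneg _) (sq_nonneg _)
  have m2 := Pr_markov (V := V) (D := V) hp (F := T) (t := r ^ 2 / 2) (by positivity)
    fun σ _ => Finset.sum_nonneg fun _ _ => mul_nonneg (ind_nonneg _) (sq_nonneg _)
  refine le_trans (Pr_mono hp fun σ hσ hq => ?_) ((Pr_or hp _ _).trans (add_le_add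
    (m1.trans ?_) (m2.trans ?_)))
  · have key := area_cover z0 hr.le (range n1) (fun _ => True) z (fun _ => 2 * s)
      (fun _ => by linarith) G (Bad σ) id (fun _ => 3 * e) (fun _ => by linarith)
      (Ico n1 n2) (Act δ V z th σ) (fun k => pos δ (nr δ (z k)))
      (fun k => 4 * ρ k + rad δ (V \ expl δ V z th σ k) σ (nr δ (z k)))
      (fun k => add_nonneg (by have := hs.pos k; positivity) (rad_pos hδ).le) fun x hx => by
        by_cases c1 : ∃ i ∈ range n1, True ∧ dist x (z i) ≤ 2 * s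
        · exact Or.inl c1
        refine Or.inr ?_
        obtain ⟨g, hg, hxg⟩ := g3 x hx
        by_cases c2 : Bad σ g
        · exact Or.inl ⟨g, hg, c2, hxg⟩
        refine Or.inr ?_
        have c3 : ∀ y ∈ expl δ V z th σ n1, 3 * e ≤ dist (pos δ y) x := by
          intro y hy
          by_contra c4
          refine c2 ⟨fun i hi => ?_, y, hy, ?_⟩
          · have : ¬ dist x (z i) ≤ 2 * s := fun h => c1 ⟨i, Finset.mem_range.2 hi, trivial, h⟩
            have := dist_triangle x g (z i)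
            linarith [not_le.1 ‹¬ dist x (z i) ≤ 2 * s›]
          · have := dist_triangle (pos δ y) x g
            linarith [not_le.1 c4]
        have c4 : ∃ k, ∃ y ∈ expl δ V z th σ (k + 1), k < n2 ∧ dist (pos δ y) x < 3 * e := by
          obtain ⟨i, hi, h1, h2⟩ := hend x hx
          have h3 := ha.mesh i (hi.trans_le h2N)
          have h4 := ha.lo i
          have h5 := ha.hi i
          obtain ⟨y, hy, h6⟩ := expl_near (th := th) (σ := σ) hδ (Nat.lt_succ_self i)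
            (he.nr_mem (hs.inside i)) (by linarith)
          refine ⟨i, y, hy, hi, ?_⟩
          have := dist_triangle_right (pos δ y) x (z i)
          linarith
        obtain ⟨y, hy, hk, hyx⟩ := Nat.find_spec c4
        have hmin := fun k => Nat.find_min c4 (m := k)
        set k := Nat.find c4
        have hk1 : n1 ≤ k := by
          by_contra h
          exact absurd (c3 y (expl_mono (by omega) hy)) (not_le.2 hyx)
        have hfar : ∀ u ∈ expl δ V z th σ k, 3 * e ≤ dist (pos δ u) x := by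
          intro u hu
          rcases hk1.eq_or_lt with h | h
          · exact c3 u (h ▸ hu)
          · by_contra h1
            refine hmin (k - 1) (by omega) ⟨u, ?_, by omega, not_le.1 h1⟩
            rwa [Nat.sub_add_cancel (by omega)]
        have hyk : y ∉ expl δ V z th σ k := fun h => absurd (hfar y h) (not_le.2 hyx)
        have hact : Act δ V z th σ k := by
          by_contra h
          exact hyk (expl_not_act h ▸ hy)
        rw [expl_act hact] at hy
        have hy2 := (Finset.mem_union.1 (branch_subset_union hσ (closed_expl k) _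
          ((Finset.mem_union.1 hy).resolve_left hyk))).resolve_right hyk
        obtain ⟨u, hu, h1⟩ := dense_at he hs ha (Finset.mem_Ico.2 ⟨h01.trans hk1,
          hk.trans_le h2N⟩) σ (Or.inl hx)
        refine ⟨k, Finset.mem_Ico.2 ⟨hk1, hk⟩, hact, ?_⟩
        have h2 := hfar u hu
        have h3 := dist_le_rad (δ := δ) hy2
        have h4 := dist_triangle_left x (pos δ (nr δ (z k))) (pos δ y)
        linarith
    have e1 : ∑ k ∈ Ico n1 n2, ind (Act δ V z th σ k) *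
        (4 * ρ k + rad δ (V \ expl δ V z th σ k) σ (nr δ (z k))) ^ 2 = T σ :=
      Finset.sum_congr rfl fun k hk => by
        simp [ws, Φ, (qv_mono (Finset.mem_Ico.1 hk).2.le).trans_lt hq]
    rw [e1] at key
    simp only [ind_true, one_mul, Finset.sum_const, Finset.card_range, nsmul_eq_mul] at key
    by_contra h
    simp only [not_or, not_le, X] at h
    linarith [h.1, h.2]
  · rw [div_le_iff₀ (by positivity)]; linarith
  · rw [div_le_iff₀ (by positivity)]
    refine hT.trans (le_of_eq ?_)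
    field_simp

theorem growth (hp : Trans p) {n : ℕ → ℕ} (hn : Monotone n) {E : ℕ} (hE : 0 < E) {b c : ℝ}
    (hc : 0 ≤ c) (h : ∀ e < E, Pr V p V (fun σ => qv δ V z th ρ (n e) σ (n (e + 1)) < c) ≤ b) :
    Pr V p V (fun σ => qv δ V z th ρ (n 0) σ (n E) < c * E / 2) ≤ 2 * b := by
  have hE' : (0 : ℝ) < E := by exact_mod_cast hE
  have m1 := Pr_markov (V := V) (D := V) hp (t := E / 2) (by positivity)
    (F := fun σ => ∑ e ∈ range E, ind (qv δ V z th ρ (n e) σ (n (e + 1)) < c))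
    fun σ _ => Finset.sum_nonneg fun _ _ => ind_nonneg _
  refine le_trans (Pr_mono hp fun σ _ hq => ?_) (m1.trans ?_)
  · have h1 : ∀ E, qv δ V z th ρ (n 0) σ (n E) =
        ∑ e ∈ range E, qv δ V z th ρ (n e) σ (n (e + 1)) := by
      intro E
      induction E with
      | zero => simp [qv]
      | succ E ih =>
        rw [Finset.sum_range_succ, ← ih]
        exact (Finset.sum_Ico_consecutive _ (hn (Nat.zero_le E)) (hn (Nat.le_succ E))).symm
    have h2 : ∑ e ∈ range E, c * (1 - ind (qv δ V z th ρ (n e) σ (n (e + 1)) < c)) ≤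
        ∑ e ∈ range E, qv δ V z th ρ (n e) σ (n (e + 1)) := by
      refine Finset.sum_le_sum fun e _ => ?_
      by_cases h3 : qv δ V z th ρ (n e) σ (n (e + 1)) < c
      · rw [ind_pos h3, sub_self, mul_zero]
        exact Finset.sum_nonneg fun _ _ => mul_nonneg (ind_nonneg _) (sq_nonneg _)
      · rw [ind_neg h3]; linarith
    rw [← h1, ← Finset.mul_sum, Finset.sum_sub_distrib] at h2
    simp only [Finset.sum_const, Finset.card_range, nsmul_eq_mul, mul_one] at h2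
    by_contra h3
    push Not at h3
    nlinarith
  · rw [PE_sum hp, div_le_iff₀ (by positivity)]
    have := Finset.sum_le_card_nsmul (range E) _ b fun e he => h e (Finset.mem_range.1 he)
    rw [Finset.card_range, nsmul_eq_mul] at this
    unfold Pr at this
    linarith

end Pool.Agent.Lib.MP_60c5b4_pr
end

-- part Pool.Agent.Lib.MP_60c5b4_pr.Match
section

/-!
Two trees whose branches are close have close statistics.
-/

namespace Pool.Agent.Lib.MP_60c5b4_pr

open Finset Classical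

/-- Local closeness of two sets of lattice points at two meshes. -/
def Loc (δ δ' : ℝ) (c : ℂ) (R e : ℝ) (A A' : Finset Pt) : Prop :=
  (∀ v ∈ A, dist (pos δ v) c ≤ R → ∃ v' ∈ A', dist (pos δ v) (pos δ' v') ≤ e) ∧
    ∀ v' ∈ A', dist (pos δ' v') c ≤ R → ∃ v ∈ A, dist (pos δ v) (pos δ' v') ≤ e

/-- New branches stay near their starting points. -/
def Stay (δ : ℝ) (V : Finset Pt) (z : ℕ → ℂ) (ρ th : ℕ → ℝ) (m : ℕ → ℕ) (n0 N : ℕ) (σ : Cfg) :
    Prop :=
  ¬ ∃ k ∈ Ico n0 N, ∃ y ∈ branch (V \ expl δ V z th σ k) σ (nr δ (z k)),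
    m k * (800 * (5 * ρ k)) < dist (pos δ y) (pos δ (nr δ (z k)))

/-- New branches approach the explored set only near their end points. -/
def Touch (δ : ℝ) (V : Finset Pt) (z : ℕ → ℂ) (th : ℕ → ℝ) (N : ℕ) (z0 : ℂ) (r e t : ℝ)
    (σ : Cfg) : Prop :=
  ¬ ∃ k ∈ range N, ∃ y ∈ branch (V \ expl δ V z th σ k) σ (nr δ (z k)),
    dist (pos δ y) z0 ≤ 3 * r ∧ (∃ s ∈ expl δ V z th σ k, dist (pos δ s) (pos δ y) ≤ e) ∧
    4 * t < dist (pos δ y) (pos δ (root (V \ expl δ V z th σ k) σ (nr δ (z k))))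

/-- No distance is close to its threshold. -/
def Margin (δ : ℝ) (V : Finset Pt) (z : ℕ → ℂ) (th : ℕ → ℝ) (N : ℕ) (e : ℝ) (σ : Cfg) : Prop :=
  ¬ ∃ k ∈ range N, (∃ s ∈ expl δ V z th σ k, dist (pos δ s) (z k) < th k + e) ∧
    ¬ ∃ s ∈ expl δ V z th σ k, dist (pos δ s) (z k) < th k - e

/-- The statistic. -/
noncomputable def stat (δ : ℝ) (V : Finset Pt) (d : ℂ) (z : ℕ → ℂ) (th ρ : ℕ → ℝ) (n : ℕ)
    (L : ℝ) (N : ℕ) (σ : Cfg) : ℝ :=
  ∑ k ∈ Ico n N, ws δ V z th ρ n L σ k *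
    (psi δ d (root (V \ expl δ V z th σ k) σ (nr δ (z k))) - psi δ d (nr δ (z k)))

variable {p p' : Pt → Fin 3 → ℝ} {δ δ' M B r a β η e : ℝ} {V V' : Finset Pt} {z0 : ℂ}
  {z : ℕ → ℂ} {ρ th : ℕ → ℝ} {m : ℕ → ℕ} {n0 N k : ℕ} {σ σ' : Cfg}

theorem stat_eq (p : Pt → Fin 3 → ℝ) (d : ℂ) (L : ℝ) :
    stat δ V d z th ρ n0 L N σ = mart δ V p (psi δ d) z th ρ n0 L N σ +
      ∑ k ∈ Ico n0 N, ws δ V z th ρ n0 L σ k *
        (HE V p (V \ expl δ V z th σ k) (psi δ d) (nr δ (z k)) - psi δ d (nr δ (z k))) := by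
  unfold stat mart inc
  rw [← Finset.sum_add_distrib]
  exact Finset.sum_congr rfl fun k _ => by ring

theorem loc_expl {R : ℝ} (hk : k ≤ N)
    (hact : ∀ i < k, Act δ V z th σ i ↔ Act δ' V' z th σ' i)
    (hloc : ∀ i < N, Loc δ δ' z0 R e (branch V σ (nr δ (z i))) (branch V' σ' (nr δ' (z i)))) :
    Loc δ δ' z0 R e (expl δ V z th σ k) (expl δ' V' z th σ' k) := by
  constructor
  · intro v hv hR
    obtain ⟨i, hi, h1, h2⟩ := mem_expl.1 hv
    obtain ⟨v', h3, h4⟩ := (hloc i (hi.trans_le hk)).1 v h2 hR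
    exact ⟨v', mem_expl.2 ⟨i, hi, (hact i hi).1 h1, h3⟩, h4⟩
  · intro v hv hR
    obtain ⟨i, hi, h1, h2⟩ := mem_expl.1 hv
    obtain ⟨v', h3, h4⟩ := (hloc i (hi.trans_le hk)).2 v h2 hR
    exact ⟨v', mem_expl.2 ⟨i, hi, (hact i hi).2 h1, h3⟩, h4⟩

theorem act_match (hz : ∀ k, dist (z k) z0 ≤ 3 * r) (hth : ∀ k, th k ≤ r / 2) (he : 0 ≤ e)
    (hm : Margin δ' V' z th N e σ')
    (hloc : ∀ i < N, Loc δ δ' z0 (7 * r / 2) e (branch V σ (nr δ (z i)))
      (branch V' σ' (nr δ' (z i)))) :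
    ∀ k < N, Act δ V z th σ k ↔ Act δ' V' z th σ' k := by
  intro k
  induction k using Nat.strong_induction_on with
  | _ k ih =>
    intro hk
    have hl := loc_expl hk.le (fun i hi => ih i hi (hi.trans hk)) hloc
    have hm' : (∃ s ∈ expl δ' V' z th σ' k, dist (pos δ' s) (z k) < th k + e) →
        ∃ s ∈ expl δ' V' z th σ' k, dist (pos δ' s) (z k) < th k - e := fun h => by
      by_contra h1
      exact hm ⟨k, Finset.mem_range.2 hk, h, h1⟩
    have h1 := hz k
    have h2 := hth k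
    refine not_congr ⟨fun ⟨s, hs, h⟩ => ?_, fun ⟨s, hs, h⟩ => ?_⟩
    · obtain ⟨s', hs', h3⟩ := hl.1 s hs (by
        have := dist_triangle (pos δ s) (z k) z0
        linarith)
      obtain ⟨u, hu, h4⟩ := hm' ⟨s', hs', by
        have := dist_triangle_left (pos δ' s') (z k) (pos δ s)
        linarith⟩
      exact ⟨u, hu, by linarith⟩
    · obtain ⟨u, hu, h4⟩ := hm' ⟨s, hs, by linarith⟩
      obtain ⟨v, hv, h3⟩ := hl.2 u hu (by
        have := dist_triangle (pos δ' u) (z k) z0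
        linarith)
      refine ⟨v, hv, ?_⟩
      have := dist_triangle (pos δ v) (pos δ' u) (z k)
      linarith

theorem hit_match (he : Env p δ M B V z0 r) (hs : Scheme z0 r a β η z ρ m n0 N)
    (ha : Adm δ ρ th N) (hσ : IsTree V σ) (hσ' : IsTree V' σ') {e2 t : ℝ}
    (hstay : Stay δ V z ρ th m n0 N σ) (ht : Touch δ V z th N z0 r e2 t σ)
    (ht' : Touch δ' V' z th N z0 r e2 t σ') (he0 : 0 ≤ e) (he1 : 8 * e ≤ e2) (he2 : 4 * δ ≤ e2)
    (he3 : e2 ≤ r / 4) (hk : k ∈ Ico n0 N) (he4 : 4 * e2 ≤ ρ k) (hact : Act δ V z th σ k)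
    (hl : Loc δ δ' z0 (7 * r / 2) e (expl δ V z th σ k) (expl δ' V' z th σ' k))
    (hb : Loc δ δ' z0 (7 * r / 2) e (branch V σ (nr δ (z k))) (branch V' σ' (nr δ' (z k)))) :
    dist (pos δ (root (V \ expl δ V z th σ k) σ (nr δ (z k))))
      (pos δ' (root (V' \ expl δ' V' z th σ' k) σ' (nr δ' (z k)))) ≤ 8 * t + e := by
  obtain ⟨f1, -⟩ := item_facts he hs ha hk σ
  have hδ := he.nice.pos
  have hk2 := (Finset.mem_Ico.1 hk).2
  have hin : ∀ y ∈ branch (V \ expl δ V z th σ k) σ (nr δ (z k)), dist (pos δ y) z0 ≤ 2 * r :=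
    fun y hy => f1 y (not_lt.1 fun h => hstay ⟨k, hk, y, hy, h⟩)
  have hx := (hσ.mono (Finset.sdiff_subset (t := expl δ V z th σ k))).exits (nr δ (z k))
  have hfar : ∀ s ∈ expl δ V z th σ k, e2 / 2 < dist (pos δ s) (pos δ (nr δ (z k))) := by
    intro s hs'
    have h1 : th k ≤ dist (pos δ s) (z k) := not_lt.1 fun h => hact ⟨s, hs', h⟩
    have h2 := dist_triangle (pos δ s) (pos δ (nr δ (z k))) (z k)
    have h3 := dist_nr hδ (z k)
    have := ha.lo k
    have := ha.mesh k hk2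
    linarith
  have hmem : nr δ (z k) ∈ V \ expl δ V z th σ k := Finset.mem_sdiff.2
    ⟨he.nr_mem (hs.inside k), fun h => by have := hfar _ h; rw [dist_self] at this; linarith⟩
  have hroot : root (V \ expl δ V z th σ k) σ (nr δ (z k)) ∈ expl δ V z th σ k := by
    obtain ⟨u, hu, e1⟩ := hx.last hmem
    have h1 := hin u hu
    have h2 := dist_triangle (pos δ (next σ u)) (pos δ u) z0
    rw [dist_next hδ] at h2
    by_contra h3
    exact hx.not_mem (Finset.mem_sdiff.2 ⟨he.mem _ (by rw [e1]; linarith [he.le]), h3⟩)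
  obtain ⟨y, hy, q1, q2⟩ := hx.change
    (Q := fun y => ∀ s ∈ expl δ V z th σ k, e2 / 2 < dist (pos δ s) (pos δ y)) hfar
    (fun h => by have := h _ hroot; rw [dist_self] at this; linarith)
  push Not at q2
  obtain ⟨s, hs1, hs2⟩ := q2
  have hy0 := hin y hy
  have hsy : dist (pos δ s) (pos δ y) ≤ e2 / 2 + δ := by
    have h2 := dist_triangle (pos δ s) (pos δ (next σ y)) (pos δ y)
    rw [dist_next hδ] at h2
    linarith
  have hr : 0 < r := hδ.trans_le he.le
  obtain ⟨y', hy', d1⟩ := hb.1 y (branch_mono Finset.sdiff_subset hy) (by linarith)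
  have hy'0 : dist (pos δ' y') z0 ≤ 2 * r + e := by
    have := dist_triangle_left (pos δ' y') z0 (pos δ y)
    linarith
  have hy'S : y' ∉ expl δ' V' z th σ' k := fun h => by
    obtain ⟨u, hu, d2⟩ := hl.2 y' h (by linarith)
    have := q1 u hu
    have := dist_triangle_right (pos δ u) (pos δ y) (pos δ' y')
    linarith
  have hy'2 := (Finset.mem_union.1 (branch_subset_union hσ' (closed_expl k) _ hy')).resolve_right
    hy'S
  obtain ⟨s', hs', d3⟩ := hl.1 s hs1 (by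
    have := dist_triangle (pos δ s) (pos δ y) z0
    linarith)
  have t1 : dist (pos δ y) (pos δ (root (V \ expl δ V z th σ k) σ (nr δ (z k)))) ≤ 4 * t :=
    not_lt.1 fun h => ht ⟨k, Finset.mem_range.2 hk2, y, hy, by linarith, ⟨s, hs1, by linarith⟩, h⟩
  have t2 : dist (pos δ' y') (pos δ' (root (V' \ expl δ' V' z th σ' k) σ' (nr δ' (z k)))) ≤
      4 * t :=
    not_lt.1 fun h => ht' ⟨k, Finset.mem_range.2 hk2, y', hy'2, by linarith, ⟨s', hs', by
      have := dist_triangle4 (pos δ' s') (pos δ s) (pos δ y) (pos δ' y')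
      rw [dist_comm (pos δ' s') (pos δ s)] at this
      linarith⟩, h⟩
  have := dist_triangle4 (pos δ (root (V \ expl δ V z th σ k) σ (nr δ (z k)))) (pos δ y)
    (pos δ' y') (pos δ' (root (V' \ expl δ' V' z th σ' k) σ' (nr δ' (z k))))
  rw [dist_comm _ (pos δ y)] at this
  linarith

theorem psi_sub_le' (d : ℂ) (u v : Pt) :
    |psi δ d u - psi δ' d v| ≤ ‖d‖ * dist (pos δ u) (pos δ' v) := by
  have := Complex.abs_re_le_norm ((starRingEnd ℂ) d * (pos δ u - pos δ' v))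
  rw [norm_mul, Complex.norm_conj, mul_sub, Complex.sub_re] at this
  rwa [dist_eq_norm]

theorem stat_match (he : Env p δ M B V z0 r) (hδ' : 0 < δ')
    (hs : Scheme z0 r a β η z ρ m n0 N) (har : a ≤ r / 2)
    (ha : Adm δ ρ th N) (hσ : IsTree V σ) (hσ' : IsTree V' σ') {e2 t : ℝ} (ht0 : 0 ≤ t)
    (hstay : Stay δ V z ρ th m n0 N σ) (ht : Touch δ V z th N z0 r e2 t σ)
    (ht' : Touch δ' V' z th N z0 r e2 t σ') (hm : Margin δ' V' z th N e σ')
    (he0 : 0 ≤ e) (he1 : 8 * e ≤ e2) (he2 : 4 * δ ≤ e2)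
    (he3 : e2 ≤ r / 4) (he4 : ∀ k < N, 4 * e2 ≤ ρ k)
    (hloc : ∀ i < N, Loc δ δ' z0 (7 * r / 2) e (branch V σ (nr δ (z i)))
      (branch V' σ' (nr δ' (z i)))) (d : ℂ) (L : ℝ) :
    (∀ k < N, ws δ V z th ρ n0 L σ k = ws δ' V' z th ρ n0 L σ' k) ∧
    stat δ V d z th ρ n0 L N σ ≤
      stat δ' V' d z th ρ n0 L N σ' + N * (‖d‖ * (8 * t + e + δ + δ')) := by
  have hact := act_match hs.inside (fun k => (ha.hi k).trans ((hs.small k).trans har)) he0 hm hloc
  have hws : ∀ k < N, ws δ V z th ρ n0 L σ k = ws δ' V' z th ρ n0 L σ' k := by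
    intro k hk
    have : qv δ V z th ρ n0 σ k = qv δ' V' z th ρ n0 σ' k :=
      Finset.sum_congr rfl fun i hi => by
        rw [ind_congr (hact i ((Finset.mem_Ico.1 hi).2.trans hk))]
    simp only [ws, this, hact k hk]
  refine ⟨hws, ?_⟩
  have hδ := he.nice.pos
  have hc : 0 ≤ ‖d‖ * (8 * t + e + δ + δ') := by positivity
  have h1 : stat δ V d z th ρ n0 L N σ - stat δ' V' d z th ρ n0 L N σ' ≤
      (Ico n0 N).card • (‖d‖ * (8 * t + e + δ + δ')) := by
    unfold stat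
    rw [← Finset.sum_sub_distrib]
    refine Finset.sum_le_card_nsmul _ _ _ fun k hk => ?_
    have hk2 := (Finset.mem_Ico.1 hk).2
    rw [← hws k hk2]
    unfold ws
    by_cases h : Act δ V z th σ k ∧ qv δ V z th ρ n0 σ k < L
    · rw [ind_pos h]
      have h2 := hit_match he hs ha hσ hσ' hstay ht ht' he0 he1 he2 he3 hk (he4 k hk2) h.1
        (loc_expl hk2.le (fun i hi => hact i (hi.trans hk2)) hloc) (hloc k hk2)
      have h3 := (abs_le.1 ((psi_sub_le' d _ _).trans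
        (mul_le_mul_of_nonneg_left h2 (norm_nonneg d)))).2
      have h4 : dist (pos δ (nr δ (z k))) (pos δ' (nr δ' (z k))) ≤ δ + δ' := by
        have := dist_triangle_right (pos δ (nr δ (z k))) (pos δ' (nr δ' (z k))) (z k)
        have := dist_nr hδ (z k)
        have := dist_nr hδ' (z k)
        linarith
      have h5 := (abs_le.1 ((psi_sub_le' d _ _).trans
        (mul_le_mul_of_nonneg_left h4 (norm_nonneg d)))).1
      linarith
    · rw [ind_neg h]; simpa using hc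
  rw [nsmul_eq_mul, Nat.card_Ico] at h1
  have h2 : ((N - n0 : ℕ) : ℝ) ≤ N := by exact_mod_cast Nat.sub_le N n0
  have := mul_le_mul_of_nonneg_right h2 hc
  linarith

end Pool.Agent.Lib.MP_60c5b4_pr
end

-- part Pool.Agent.Lib.MP_60c5b4_pr.Core
section

/-!
Choice of parameters: a test separating the drifted tree from the driftless one.
-/

namespace Pool.Agent.Lib.MP_60c5b4_pr

open Finset Classical

theorem exists_pos_le (f : ℕ → ℝ) (hf : ∀ k, 0 < f k) (N : ℕ) :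
    ∃ x > 0, ∀ k < N, x ≤ f k := by
  induction N with
  | zero => exact ⟨1, one_pos, fun k hk => absurd hk (by omega)⟩
  | succ N ih =>
    obtain ⟨x, hx, h⟩ := ih
    refine ⟨min x (f N), lt_min hx (hf N), fun k hk => ?_⟩
    rcases Nat.lt_succ_iff_lt_or_eq.1 hk with h1 | h1
    · exact (min_le_left _ _).trans (h k h1)
    · exact h1 ▸ min_le_right _ _

theorem core {M B r η κ : ℝ} (z0 d : ℂ) (hM : 1 ≤ M) (hr : 0 < r) (hrB : 4 * r ≤ B)
    (hη : 0 < η) (hκ : 0 < κ) :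
    ∃ (N : ℕ) (z : ℕ → ℂ) (e δ0 : ℝ) (Θ : Set (ℕ → ℝ))
      (G G' : (ℕ → ℝ) → ℝ → Finset Pt → Cfg → Prop),
      0 < e ∧ 0 < δ0 ∧ Θ.Finite ∧ (∀ k, dist (z k) z0 ≤ 3 * r) ∧
      (∀ th ∈ Θ, ∀ δ ≤ δ0, ∀ p V, Env p δ M B V z0 r →
        (∀ v, dist (pos δ v) z0 ≤ 2 * r → psi δ d v + κ * δ ^ 2 ≤ avg p (psi δ d) v) →
        Pr V p V (fun σ => ¬ G th δ V σ) ≤ η) ∧
      (∀ δ ≤ δ0, ∀ p V, Env p δ M B V z0 r → (∀ v ∈ V, avg p (psi δ d) v = psi δ d v) →
        ∃ th ∈ Θ, Pr V p V (fun σ => ¬ G' th δ V σ) ≤ η) ∧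
      ∀ th ∈ Θ, ∀ δ ≤ δ0, ∀ δ' ≤ δ0, ∀ p V V' σ σ', Env p δ M B V z0 r → 0 < δ' →
        IsTree V σ → IsTree V' σ' → G th δ V σ → G' th δ' V' σ' →
        (∀ i < N, Loc δ δ' z0 (7 * r / 2) e (branch V σ (nr δ (z i)))
          (branch V' σ' (nr δ' (z i)))) → False := by
  have hcM := cM_pos
  have hB : 0 < B := by linarith
  obtain ⟨c, hc0, hc⟩ : ∃ c > 0, 2 * (32 + 2 * cM) * (c + c) / r ^ 2 = η / 16 :=
    ⟨η * r ^ 2 / (64 * (32 + 2 * cM)), by positivity, by field_simp; ring⟩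
  obtain ⟨a, ha0, har, hac⟩ : ∃ a > 0, a ≤ r / 2 ∧ a ^ 2 ≤ c :=
    ⟨min (r / 2) √c, by positivity, min_le_left _ _, by
      have := pow_le_pow_left₀ (by positivity) (min_le_right (r / 2) √c) 2
      rwa [Real.sq_sqrt hc0.le] at this⟩
  obtain ⟨L, hL0, hL1, hL2⟩ : ∃ L > 0, 200 ≤ κ * L ∧
      ‖d‖ ^ 2 * cM * (L + a ^ 2) / (κ * L / 200) ^ 2 ≤ η / 4 := by
    set L := c + 200 / κ + 320000 * ‖d‖ ^ 2 * cM / (κ ^ 2 * η) with hL
    have x1 : 0 < 200 / κ := by positivity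
    have x2 : 0 ≤ 320000 * ‖d‖ ^ 2 * cM / (κ ^ 2 * η) := by positivity
    have hL0 : 0 < L := by positivity
    refine ⟨L, hL0, ?_, ?_⟩
    · have : 200 / κ ≤ L := by linarith
      rw [div_le_iff₀ hκ] at this; linarith
    · have h1 : 320000 * ‖d‖ ^ 2 * cM / (κ ^ 2 * η) ≤ L := by linarith
      rw [div_le_iff₀ (by positivity)] at h1
      rw [div_le_iff₀ (by positivity)]
      have h2 : ‖d‖ ^ 2 * cM * (L + a ^ 2) ≤ ‖d‖ ^ 2 * cM * (2 * L) :=
        mul_le_mul_of_nonneg_left (by linarith) (by positivity)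
      have h3 := mul_le_mul_of_nonneg_right h1 hL0.le
      nlinarith
  obtain ⟨E, hE0, hEL⟩ : ∃ E : ℕ, 0 < E ∧ L ≤ c * E / 2 := by
    refine ⟨⌈2 * L / c⌉₊ + 1, Nat.succ_pos _, ?_⟩
    have := Nat.le_ceil (2 * L / c)
    rw [div_le_iff₀ hc0] at this
    push_cast; nlinarith
  obtain ⟨β, hβ0, hβ1, hβ2⟩ : ∃ β > 0, (1 + 2 * B) ^ 2 * β ≤ 1 ∧
      ‖d‖ * (1 + 4 * B) * β ≤ κ / 64 := by
    refine ⟨min (1 / (1 + 2 * B) ^ 2) (κ / 64 / ((‖d‖ + 1) * (1 + 4 * B))), by positivity,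
      ?_, ?_⟩
    · have := min_le_left (1 / (1 + 2 * B) ^ 2) (κ / 64 / ((‖d‖ + 1) * (1 + 4 * B)))
      rw [le_div_iff₀ (by positivity)] at this; linarith
    · have := min_le_right (1 / (1 + 2 * B) ^ 2) (κ / 64 / ((‖d‖ + 1) * (1 + 4 * B)))
      rw [le_div_iff₀ (by positivity)] at this
      have h2 : 0 ≤ min (1 / (1 + 2 * B) ^ 2) (κ / 64 / ((‖d‖ + 1) * (1 + 4 * B))) *
        (1 + 4 * B) := by positivity
      linarith
  let s : ℕ → ℝ := fun n => r / (4 * (n + 1))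
  have hs0 : ∀ n, 0 < s n := fun n => by positivity
  have hs1 : ∀ n, s n ≤ r := fun n => div_le_self hr.le (by
    have : (0 : ℝ) ≤ n := by positivity
    linarith)
  have hs2 : ∀ n : ℕ, n * (2 * s n) ^ 2 ≤ r ^ 2 / 4 := fun n => by
    have e : n * (2 * s n) ^ 2 = r ^ 2 / 4 * (n / (n + 1) ^ 2) := by
      simp only [s]; field_simp; ring
    have h0 : (0 : ℝ) ≤ n := by positivity
    have : (n : ℝ) / (n + 1) ^ 2 ≤ 1 := by rw [div_le_one (by positivity)]; nlinarith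
    rw [e]; nlinarith [sq_nonneg r]
  choose εl hεl δl hδl hlog using fun n : ℕ => log_est (B := 2 * B) (s := s n / 2)
    (η := η / (1600 * (n + 1))) hM (by positivity) (by have := hs0 n; positivity) (by positivity)
  obtain ⟨z, ρ, m, n, hn, hsch, hend⟩ := exists_scheme z0 hr ha0 hβ0
    (show 0 < η / 4 by positivity) (fun n => min (εl n / 6) (s n / 3))
    fun n => by have := hεl n; have := hs0 n; positivity
  have hs := hsch E
  set N := n E with hN
  obtain ⟨ρm, hρm0, hρm⟩ := exists_pos_le ρ hs.pos N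
  obtain ⟨δ1, hδ10, hδ1⟩ := exists_pos_le (fun e => min (δl (n e)) (s (n e) / 2))
    (fun e => by have := hδl (n e); have := hs0 (n e); positivity) E
  obtain ⟨t, ht0, ht1, ht2⟩ : ∃ t > 0, t ≤ r / 4 ∧ N * (‖d‖ * (11 * t)) ≤ 1 := by
    refine ⟨min (r / 4) (1 / (11 * (N * ‖d‖ + 1))), by positivity, min_le_left _ _, ?_⟩
    have := min_le_right (r / 4) (1 / (11 * (N * ‖d‖ + 1)))
    rw [le_div_iff₀ (by positivity)] at this
    have h2 : 0 ≤ min (r / 4) (1 / (11 * (N * ‖d‖ + 1))) := by positivity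
    linarith
  obtain ⟨j, hj⟩ : ∃ j : ℕ, N * (25 * (3 * r / t) ^ 2 * q0 ^ j) ≤ η / 4 := by
    obtain ⟨j, hj⟩ := exists_pow_le (η := η / 4 / (N * (25 * (3 * r / t) ^ 2) + 1))
      (by positivity)
    rw [le_div_iff₀ (by positivity)] at hj
    exact ⟨j, by linarith [pow_pos q0_pos j]⟩
  obtain ⟨e2, he20, he21, he22, he23⟩ : ∃ e2 > 0, e2 + 801 ^ j * e2 ≤ 2 * t ∧ 4 * e2 ≤ ρm ∧
      e2 ≤ r / 4 := by
    refine ⟨min (2 * t / (1 + 801 ^ j)) (min (ρm / 4) (r / 4)), by positivity, ?_, ?_,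
      (min_le_right _ _).trans (min_le_right _ _)⟩
    · have := min_le_left (2 * t / (1 + 801 ^ j)) (min (ρm / 4) (r / 4))
      rw [le_div_iff₀ (by positivity)] at this; linarith
    · have := (min_le_right (2 * t / (1 + 801 ^ j)) _).trans (min_le_left (ρm / 4) (r / 4))
      linarith
  obtain ⟨l, hl0, hl⟩ : ∃ l : ℕ, 0 < l ∧ N * (1 / (l : ℝ)) ≤ η / 4 := by
    refine ⟨⌈N / (η / 4)⌉₊ + 1, Nat.succ_pos _, ?_⟩
    have := Nat.le_ceil (N / (η / 4))
    rw [div_le_iff₀ (by positivity)] at this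
    rw [mul_one_div, div_le_iff₀ (by positivity)]
    push_cast; linarith
  have hl' : (0 : ℝ) < l := by exact_mod_cast hl0
  obtain ⟨e, he0, he1, he2, he3⟩ : ∃ e > 0, 8 * e ≤ e2 ∧ 4 * l * e ≤ ρm ∧ e ≤ t := by
    refine ⟨min (e2 / 8) (min (ρm / (4 * l)) t), by positivity, ?_, ?_,
      (min_le_right _ _).trans (min_le_right _ _)⟩
    · have := min_le_left (e2 / 8) (min (ρm / (4 * l)) t); linarith
    · have := (min_le_right (e2 / 8) _).trans (min_le_left (ρm / (4 * l)) t)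
      rw [le_div_iff₀ (by positivity)] at this; linarith
  obtain ⟨δ0, hδ00, d1, d2, d3⟩ : ∃ δ0 > 0, δ0 ≤ δ1 ∧ 4 * δ0 ≤ e2 ∧ δ0 ≤ t := by
    refine ⟨min δ1 (min (e2 / 4) t), by positivity, min_le_left _ _, ?_,
      (min_le_right _ _).trans (min_le_right _ _)⟩
    have := (min_le_right δ1 _).trans (min_le_left (e2 / 4) t); linarith
  let Θ : Set (ℕ → ℝ) := (fun (I : ℕ → Fin l) i => ρ i * (1 / 2 + I i / (2 * l))) ''
    {I | ∀ k, N ≤ k → I k = ⟨0, hl0⟩}
  have hadm : ∀ th ∈ Θ, ∀ δ ≤ δ0, Adm δ ρ th N := by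
    rintro _ ⟨I, -, rfl⟩ δ hδ
    refine ⟨fun k => ?_, fun k => ?_, fun k hk => by have := hρm k hk; linarith⟩
    · have := hs.pos k
      have : 0 ≤ ρ k * (I k / (2 * l)) := by positivity
      simp only; linarith
    · have h1 : ((I k : ℕ) : ℝ) ≤ l := by exact_mod_cast (I k).2.le
      have h2 : ((I k : ℕ) : ℝ) / (2 * l) ≤ 1 / 2 := by
        rw [div_le_iff₀ (by positivity)]; linarith
      have := mul_le_mul_of_nonneg_left h2 (hs.pos k).le
      simp only; linarith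
  refine ⟨N, z, e, δ0, Θ,
    fun th δ V σ => Stay δ V z ρ th m (n 0) N σ ∧ Touch δ V z th N z0 r e2 t σ ∧
      κ / 64 * ∑ k ∈ Ico (n 0) N, ws δ V z th ρ (n 0) L σ k * ρ k ^ 2 - κ * L / 200 ≤
        stat δ V d z th ρ (n 0) L N σ,
    fun th δ V σ => Margin δ V z th N e σ ∧ Touch δ V z th N z0 r e2 t σ ∧
      stat δ V d z th ρ (n 0) L N σ ≤ κ * L / 200 ∧ L ≤ qv δ V z th ρ (n 0) σ N,
    he0, hδ00, ?_, hs.inside, fun th hth δ hδ p V hE hdr => ?_, fun δ hδ p V hE hnull => ?_,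
    fun th hth δ hδ δ' hδ' p V V' σ σ' hE hδ'0 hσ hσ' hG hG' hloc => ?_⟩
  · refine Set.Finite.image _ ((Set.finite_range fun (J : Fin N → Fin l) (k : ℕ) =>
      if h : k < N then J ⟨k, h⟩ else ⟨0, hl0⟩).subset fun I hI => ⟨fun k => I k, ?_⟩)
    funext k
    by_cases h : k < N
    · simp [h]
    · simp only [h, dif_neg, not_false_eq_true]; exact (hI k (not_lt.1 h)).symm
  · have hp := hE.nice.trans
    have ha := hadm th hth δ hδ
    have p1 := stay_est hE hs ha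
    have p2 := (touch_est (z := z) (N := N) hE th ht0 ht1 (show δ ≤ e2 by linarith) he21).trans hj
    have p3 := (mart_tail hE hs ha hβ1 d hL0.le (show 0 < κ * L / 200 by positivity)).trans hL2
    refine le_trans (Pr_mono hp fun σ hσ h => ?_) (((Pr_or hp _ _).trans (add_le_add p1
      ((Pr_or hp _ _).trans (add_le_add p2 p3)))).trans (by linarith))
    by_contra h1
    simp only [not_or] at h1
    refine h ⟨h1.1, h1.2.1, ?_⟩
    have h2 := (abs_lt.1 (not_le.1 h1.2.2)).1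
    have h3 : κ / 64 * ∑ k ∈ Ico (n 0) N, ws δ V z th ρ (n 0) L σ k * ρ k ^ 2 ≤
        ∑ k ∈ Ico (n 0) N, ws δ V z th ρ (n 0) L σ k *
        (HE V p (V \ expl δ V z th σ k) (psi δ d) (nr δ (z k)) - psi δ d (nr δ (z k))) := by
      rw [Finset.mul_sum]
      refine Finset.sum_le_sum fun k hk => ?_
      unfold ws
      by_cases h4 : Act δ V z th σ k ∧ qv δ V z th ρ (n 0) σ k < L
      · rw [ind_pos h4, one_mul, one_mul]
        exact item_drift hE hs ha hκ.le hβ2 hdr hk hσ h4.1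
      · rw [ind_neg h4]; simp
    rw [stat_eq p]; linarith
  · have hp := hE.nice.trans
    obtain ⟨I, hI0, hI⟩ := exists_threshold (V := V) hp δ z hl0 he0.le N
      fun k hk => he2.trans (hρm k hk)
    have hth : (fun i => ρ i * (1 / 2 + I i / (2 * l))) ∈ Θ := ⟨I, hI0, rfl⟩
    refine ⟨_, hth, ?_⟩
    have ha := hadm _ hth δ hδ
    have p1 := (Pr_exists (V := V) (D := V) hp (range N) _).trans
      (Finset.sum_le_card_nsmul _ _ _ fun k hk => hI k (Finset.mem_range.1 hk))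
    rw [Finset.card_range, nsmul_eq_mul] at p1
    set th : ℕ → ℝ := fun i => ρ i * (1 / 2 + I i / (2 * l)) with hthdef
    have p2 := (touch_est (z := z) (N := N) hE th ht0 ht1 (show δ ≤ e2 by linarith) he21).trans hj
    have p3 := (mart_tail hE hs ha hβ1 d hL0.le (show 0 < κ * L / 200 by positivity)).trans hL2
    have p4 := growth (V := V) (δ := δ) (z := z) (th := th) (ρ := ρ) hp hn hE0 (b := η / 8)
      hc0.le fun k hk => by
        have u1 := hδ1 k hk
        have u2 := min_le_left (δl (n k)) (s (n k) / 2)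
        have u3 := min_le_right (δl (n k)) (s (n k) / 2)
        have u4 := min_le_left (εl (n k) / 6) (s (n k) / 3)
        have u5 := min_le_right (εl (n k) / 6) (s (n k) / 3)
        refine (epoch_est hE hs ha hβ1 (hn (Nat.zero_le k)) (hn hk)
          (e := min (εl (n k) / 6) (s (n k) / 3)) (s := s (n k)) (b := η / (1600 * (n k + 1)))
          (by have := hεl (n k); have := hs0 (n k); positivity) (by linarith) (hs1 _) (hs2 _)
          (by linarith) (by positivity) hc0.le (hend k) fun w x hw hx => ?_).trans ?_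
        · refine le_trans (Pr_mono hp fun σ _ ⟨y, hy, h⟩ => ⟨y, hy, by linarith⟩)
            (hlog (n k) δ (by linarith) p hE.nice V w (hE.diam' hw) x hx)
        · have v1 : 100 * (n k : ℝ) * (η / (1600 * (n k + 1))) ≤ η / 16 := by
            rw [← mul_div_assoc, div_le_iff₀ (by positivity)]; linarith
          have v2 : 2 * (32 + 2 * cM) * (c + a ^ 2) / r ^ 2 ≤
              2 * (32 + 2 * cM) * (c + c) / r ^ 2 :=
            div_le_div_of_nonneg_right (mul_le_mul_of_nonneg_left (by linarith) (by positivity))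
              (by positivity)
          linarith
    refine le_trans (Pr_mono hp fun σ hσ h => ?_) (((Pr_or hp _ _).trans (add_le_add p1
      ((Pr_or hp _ _).trans (add_le_add p2 ((Pr_or hp _ _).trans (add_le_add p3 p4)))))).trans
        (by linarith))
    by_contra h1
    simp only [not_or] at h1
    refine h ⟨h1.1, h1.2.1, ?_, hEL.trans (not_lt.1 h1.2.2.2)⟩
    have h2 := (abs_lt.1 (not_le.1 h1.2.2.1)).2
    rw [stat_eq p, Finset.sum_eq_zero fun k _ => by
      rw [HE_eq_self hp Finset.sdiff_subset fun v hv => hnull v (Finset.sdiff_subset hv),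
        sub_self, mul_zero]]
    linarith
  · obtain ⟨g1, g2, g3⟩ := hG
    obtain ⟨g4, g5, g6, g7⟩ := hG'
    obtain ⟨w1, w2⟩ := stat_match hE hδ'0 hs har (hadm th hth δ hδ) hσ hσ' ht0.le g1 g2 g5 g4
      he0.le he1 (by linarith) he23 (fun k hk => he22.trans (hρm k hk)) hloc d L
    have w3 := le_ws_sum g7
    rw [← show ∑ k ∈ Ico (n 0) N, ws δ V z th ρ (n 0) L σ k * ρ k ^ 2 = _ from
      Finset.sum_congr rfl fun k hk => by rw [w1 k (Finset.mem_Ico.1 hk).2]] at w3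
    have w4 : (N : ℝ) * (‖d‖ * (8 * t + e + δ + δ')) ≤ N * (‖d‖ * (11 * t)) :=
      mul_le_mul_of_nonneg_left (mul_le_mul_of_nonneg_left (by linarith) (norm_nonneg _))
        (by positivity)
    have w5 := mul_le_mul_of_nonneg_left w3 (show 0 ≤ κ / 64 by positivity)
    linarith

end Pool.Agent.Lib.MP_60c5b4_pr
end
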