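import Pool.Agent.Lib.MP_60c5b4_pr.Defs

-- part Pool.Agent.Lib.MP_60c5b4_pr.Prod
section

/-!
The product measure on direction choices, resampling, and stopping sets.
-/

namespace Pool.Agent.Lib.MP_60c5b4_pr

open Finset

/-- Transition probabilities. -/
structure Trans (p : Pt → Fin 3 → ℝ) : Prop where
  pos : ∀ v i, 0 < p v i
  sum : ∀ v, ∑ i, p v i = 1

/-- Expectation for independent directions on `V`. -/
noncomputable def Ex (V : Finset Pt) (p : Pt → Fin 3 → ℝ) (F : Cfg → ℝ) : ℝ :=
  ∑ σ : V → Fin 3, (∏ v : V, p v (σ v)) * F (ext V σ)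

variable {V : Finset Pt} {p : Pt → Fin 3 → ℝ}

theorem Ex_add (F G : Cfg → ℝ) : Ex V p (fun σ => F σ + G σ) = Ex V p F + Ex V p G := by
  simp [Ex, mul_add, Finset.sum_add_distrib]

theorem Ex_sub (F G : Cfg → ℝ) : Ex V p (fun σ => F σ - G σ) = Ex V p F - Ex V p G := by
  simp [Ex, mul_sub, Finset.sum_sub_distrib]

theorem Ex_const_mul (a : ℝ) (F : Cfg → ℝ) : Ex V p (fun σ => a * F σ) = a * Ex V p F := by
  simp only [Ex, Finset.mul_sum]
  refine Finset.sum_congr rfl fun σ _ => by ring

theorem Ex_sum {ι : Type*} (s : Finset ι) (F : ι → Cfg → ℝ) :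
    Ex V p (fun σ => ∑ i ∈ s, F i σ) = ∑ i ∈ s, Ex V p (F i) := by
  simp only [Ex, Finset.mul_sum]
  exact Finset.sum_comm

theorem Ex_zero : Ex V p (fun _ => 0) = 0 := by simp [Ex]

theorem wt_pos (hp : Trans p) (σ : V → Fin 3) : 0 < ∏ v : V, p v (σ v) :=
  Finset.prod_pos fun _ _ => hp.pos _ _

theorem Ex_mono (hp : Trans p) {F G : Cfg → ℝ} (h : ∀ σ, F σ ≤ G σ) : Ex V p F ≤ Ex V p G :=
  Finset.sum_le_sum fun σ _ => mul_le_mul_of_nonneg_left (h _) (wt_pos hp σ).le

theorem Ex_nonneg (hp : Trans p) {F : Cfg → ℝ} (h : ∀ σ, 0 ≤ F σ) : 0 ≤ Ex V p F := by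
  have := Ex_mono (V := V) hp (F := fun _ => 0) h
  rwa [Ex_zero] at this

theorem Ex_one (hp : Trans p) : Ex V p (fun _ => 1) = 1 := by
  simp only [Ex, mul_one]
  have := Finset.prod_univ_sum (fun _ : V => (Finset.univ : Finset (Fin 3)))
    (fun (v : V) i => p v i)
  rw [Fintype.piFinset_univ] at this
  rw [← this]
  simp [hp.sum]

theorem Ex_const (hp : Trans p) (a : ℝ) : Ex V p (fun _ => a) = a := by
  have := Ex_const_mul (V := V) (p := p) a (fun _ => 1)
  simpa [Ex_one hp] using this

theorem Ex_pos (hp : Trans p) {F : Cfg → ℝ} (h : ∀ σ, 0 ≤ F σ) (h0 : 0 < F (fun _ => 0)) :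
    0 < Ex V p F := by
  have he : ext V (fun _ => 0) = fun _ => 0 := by
    funext v; simp [ext]
  refine Finset.sum_pos' (fun σ _ => mul_nonneg (wt_pos hp σ).le (h _))
    ⟨fun _ => 0, Finset.mem_univ _, ?_⟩
  rw [he]; exact mul_pos (wt_pos hp _) h0

theorem ext_update {z : Pt} (hz : z ∈ V) (σ : V → Fin 3) (i : Fin 3) :
    ext V (Function.update σ ⟨z, hz⟩ i) = Function.update (ext V σ) z i := by
  funext v
  by_cases hv : v = z
  · subst hv; simp [ext, hz]
  · rw [Function.update_of_ne hv]
    by_cases h : v ∈ V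
    · simp only [ext, h, dif_pos]
      rw [Function.update_of_ne]
      intro h'; exact hv (congrArg Subtype.val h')
    · simp [ext, h]

theorem wt_update {z : Pt} (hz : z ∈ V) (σ : V → Fin 3) (i : Fin 3) :
    (∏ v : V, p v (Function.update σ ⟨z, hz⟩ i v)) * p z (σ ⟨z, hz⟩) =
      (∏ v : V, p v (σ v)) * p z i := by
  rw [← Finset.mul_prod_erase Finset.univ _ (Finset.mem_univ (⟨z, hz⟩ : V)),
    ← Finset.mul_prod_erase Finset.univ (fun v : V => p v (σ v)) (Finset.mem_univ (⟨z, hz⟩ : V))]
  have : ∏ x ∈ Finset.univ.erase (⟨z, hz⟩ : V), p x (Function.update σ ⟨z, hz⟩ i x) =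
      ∏ x ∈ Finset.univ.erase (⟨z, hz⟩ : V), p x (σ x) :=
    Finset.prod_congr rfl fun x hx => by rw [Function.update_of_ne (Finset.ne_of_mem_erase hx)]
  rw [this]; simp only [Function.update_self]; ring

/-- Resampling the direction at one vertex. -/
theorem Ex_resample (hp : Trans p) {z : Pt} (hz : z ∈ V) (F : Cfg → ℝ) :
    Ex V p F = Ex V p (fun σ => ∑ i, p z i * F (Function.update σ z i)) := by
  let f : (V → Fin 3) × Fin 3 → (V → Fin 3) × Fin 3 :=
    fun x => (Function.update x.1 ⟨z, hz⟩ x.2, x.1 ⟨z, hz⟩)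
  have hf : Function.Involutive f := by
    intro x; simp [f]
  have h1 : Ex V p F = ∑ x : (V → Fin 3) × Fin 3,
      (∏ v : V, p v (x.1 v)) * p z x.2 * F (ext V x.1) := by
    rw [Fintype.sum_prod_type]
    refine Finset.sum_congr rfl fun σ _ => ?_
    simp only
    rw [← Finset.sum_mul, ← Finset.mul_sum, hp.sum, mul_one]
  rw [h1, ← Equiv.sum_comp hf.toPerm, Fintype.sum_prod_type]
  refine Finset.sum_congr rfl fun σ _ => ?_
  rw [Finset.mul_sum]
  refine Finset.sum_congr rfl fun i _ => ?_
  simp only [Function.Involutive.coe_toPerm, f]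
  rw [wt_update hz, ext_update hz]; ring

/-- Use `σ` on `S` and `σ'` elsewhere. -/
def merge (S : Finset Pt) (σ σ' : Cfg) : Cfg := fun v => if v ∈ S then σ v else σ' v

/-- A random set determined by the directions on itself. -/
def Stopping (S : Cfg → Finset Pt) : Prop :=
  ∀ σ σ', (∀ v ∈ S σ, σ' v = σ v) → S σ' = S σ

theorem Ex_swap (hp : Trans p) {S : Cfg → Finset Pt} (hS : Stopping S) (F : Cfg → ℝ) :
    Ex V p F = Ex V p (fun σ => Ex V p (fun σ' => F (merge (S σ) σ σ'))) := by
  classical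
  let m : Finset Pt → (V → Fin 3) → (V → Fin 3) → (V → Fin 3) :=
    fun T σ σ' v => if (v : Pt) ∈ T then σ v else σ' v
  have hm : ∀ T σ σ', ext V (m T σ σ') = merge T (ext V σ) (ext V σ') := by
    intro T σ σ'; funext v
    by_cases h : v ∈ V <;> by_cases h' : v ∈ T <;> simp [ext, merge, m, h, h']
  let f : (V → Fin 3) × (V → Fin 3) → (V → Fin 3) × (V → Fin 3) :=
    fun x => (m (S (ext V x.1)) x.1 x.2, m (S (ext V x.1)) x.2 x.1)
  have hS' : ∀ σ σ', S (ext V (m (S (ext V σ)) σ σ')) = S (ext V σ) := by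
    intro σ σ'
    apply hS
    intro v hv
    rw [hm]; simp [merge, hv]
  have hf : Function.Involutive f := by
    intro x
    simp only [f, hS']
    ext v <;> simp only [m] <;> split_ifs <;> rfl
  have h1 : Ex V p F = ∑ x : (V → Fin 3) × (V → Fin 3),
      (∏ v : V, p v (x.1 v)) * (∏ v : V, p v (x.2 v)) * F (ext V x.1) := by
    rw [Fintype.sum_prod_type]
    refine Finset.sum_congr rfl fun σ _ => ?_
    simp only
    have h2 := Ex_one (V := V) hp
    simp only [Ex, mul_one] at h2
    rw [← Finset.sum_mul, ← Finset.mul_sum, h2, mul_one]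
  rw [h1, ← Equiv.sum_comp hf.toPerm, Fintype.sum_prod_type]
  refine Finset.sum_congr rfl fun σ _ => ?_
  simp only [Ex]
  rw [Finset.mul_sum]
  refine Finset.sum_congr rfl fun σ' _ => ?_
  simp only [Function.Involutive.coe_toPerm, f]
  rw [hm, ← mul_assoc, ← Finset.prod_mul_distrib, ← Finset.prod_mul_distrib]
  congr 1
  refine Finset.prod_congr rfl fun v _ => ?_
  simp only [m]
  split_ifs <;> ring

end Pool.Agent.Lib.MP_60c5b4_pr
end

-- part Pool.Agent.Lib.MP_60c5b4_pr.Paths
section

/-!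
Deterministic facts on branches and roots.
-/

namespace Pool.Agent.Lib.MP_60c5b4_pr

open Finset

/-- Following the chosen edges from the first point, one leaves `D` at the second point. -/
inductive Exits (D : Finset Pt) (σ : Cfg) : Pt → Pt → Prop
  | base {a : Pt} : a ∉ D → Exits D σ a a
  | step {a r : Pt} : a ∈ D → Exits D σ (next σ a) r → Exits D σ a r

/-- The second point is on the branch of the first one, inside `D`. -/
inductive Reach (D : Finset Pt) (σ : Cfg) : Pt → Pt → Prop
  | refl {a : Pt} : a ∈ D → Reach D σ a a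
  | head {a v : Pt} : a ∈ D → Reach D σ (next σ a) v → Reach D σ a v

variable {D D' V S : Finset Pt} {σ σ' : Cfg} {a r r' v z : Pt}

theorem Exits.not_mem (h : Exits D σ a r) : r ∉ D := by
  induction h with
  | base h => exact h
  | step _ _ ih => exact ih

theorem Exits.unique (h : Exits D σ a r) (h' : Exits D σ a r') : r = r' := by
  induction h with
  | base h =>
    cases h' with
    | base _ => rfl
    | step h1 _ => exact absurd h1 h
  | step h1 _ ih =>
    cases h' with
    | base h2 => exact absurd h1 h2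
    | step _ h3 => exact ih h3

theorem Exits.succ (h : Exits D σ a r) (ha : a ∈ D) : Exits D σ (next σ a) r := by
  cases h with
  | base h => exact absurd ha h
  | step _ h => exact h

theorem Exits.eq_of_not_mem (h : Exits D σ a r) (ha : a ∉ D) : r = a :=
  h.unique (Exits.base ha)

theorem exits_of_iterate : ∀ (n : ℕ) (a : Pt), (next σ)^[n] a ∉ D → ∃ r, Exits D σ a r
  | 0, a, h => ⟨a, Exits.base h⟩
  | n + 1, a, h => by
    by_cases ha : a ∈ D
    · obtain ⟨r, hr⟩ := exits_of_iterate n (next σ a) (by simpa using h)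
      exact ⟨r, Exits.step ha hr⟩
    · exact ⟨a, Exits.base ha⟩

theorem Exits.iterate (h : Exits D σ a r) : ∃ n, (next σ)^[n] a = r := by
  induction h with
  | base _ => exact ⟨0, rfl⟩
  | step _ _ ih =>
    obtain ⟨n, hn⟩ := ih
    exact ⟨n + 1, by simpa using hn⟩

theorem isTree_iff : IsTree D σ ↔ ∀ a, ∃ r, Exits D σ a r := by
  constructor
  · intro h a
    by_cases ha : a ∈ D
    · obtain ⟨n, hn⟩ := h a ha
      exact exits_of_iterate n a hn
    · exact ⟨a, Exits.base ha⟩
  · intro h a _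
    obtain ⟨r, hr⟩ := h a
    obtain ⟨n, hn⟩ := hr.iterate
    exact ⟨n, hn ▸ hr.not_mem⟩

theorem Reach.left_mem (h : Reach D σ a v) : a ∈ D := by
  cases h with
  | refl h => exact h
  | head h _ => exact h

theorem Reach.right_mem (h : Reach D σ a v) : v ∈ D := by
  induction h with
  | refl h => exact h
  | head _ _ ih => exact ih

theorem Reach.trans (h : Reach D σ a v) (h' : Reach D σ v z) : Reach D σ a z := by
  induction h with
  | refl _ => exact h'
  | head h1 _ ih => exact Reach.head h1 (ih h')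

theorem Reach.tail (h : Reach D σ a v) (h' : next σ v ∈ D) : Reach D σ a (next σ v) :=
  h.trans (Reach.head h.right_mem (Reach.refl h'))

theorem Reach.mono (h : Reach D σ a v) (hD : D ⊆ D') : Reach D' σ a v := by
  induction h with
  | refl h => exact Reach.refl (hD h)
  | head h1 _ ih => exact Reach.head (hD h1) ih

theorem mem_branch : v ∈ branch D σ a ↔ Reach D σ a v := by
  classical
  simp only [branch, Finset.mem_filter]
  constructor
  · rintro ⟨-, n, hn, hm⟩
    induction n generalizing a with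
    | zero => exact hn ▸ Reach.refl (hm 0 le_rfl)
    | succ n ih =>
      refine Reach.head (hm 0 (Nat.zero_le _)) (ih (by simpa using hn) fun m hmn => ?_)
      simpa using hm (m + 1) (by omega)
  · intro h
    refine ⟨h.right_mem, ?_⟩
    induction h with
    | refl h => exact ⟨0, rfl, fun m hm => by rw [Nat.le_zero.mp hm]; exact h⟩
    | head h1 _ ih =>
      obtain ⟨n, hn, hm⟩ := ih
      refine ⟨n + 1, by simpa using hn, fun m hmn => ?_⟩
      cases m with
      | zero => exact h1
      | succ m => simpa using hm m (by omega)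

theorem branch_subset : branch D σ a ⊆ D := fun _ h => (mem_branch.1 h).right_mem

theorem self_mem_branch (ha : a ∈ D) : a ∈ branch D σ a := mem_branch.2 (Reach.refl ha)

theorem branch_eq_empty (ha : a ∉ D) : branch D σ a = ∅ :=
  Finset.eq_empty_of_forall_notMem fun _ h => ha (mem_branch.1 h).left_mem

theorem branch_mono (hD : D ⊆ D') : branch D σ a ⊆ branch D' σ a :=
  fun _ h => mem_branch.2 ((mem_branch.1 h).mono hD)

theorem branch_subset_of_mem (h : v ∈ branch D σ a) : branch D σ v ⊆ branch D σ a :=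
  fun _ h' => mem_branch.2 ((mem_branch.1 h).trans (mem_branch.1 h'))

theorem Reach.congr (h : Reach D σ a v) (hσ : ∀ y, Reach D σ a y → σ' y = σ y) :
    Reach D σ' a v := by
  induction h with
  | refl h => exact Reach.refl h
  | @head a v h1 h2 ih =>
    have : next σ' a = next σ a := by simp [next, hσ a (Reach.refl h1)]
    exact Reach.head h1 (this ▸ ih fun y hy => hσ y (Reach.head h1 hy))

theorem Reach.congr' (h : Reach D σ' a v) (hσ : ∀ y, Reach D σ a y → σ' y = σ y) :
    Reach D σ a v := by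
  induction h with
  | refl h => exact Reach.refl h
  | @head a v h1 h2 ih =>
    have e : next σ' a = next σ a := by simp [next, hσ a (Reach.refl h1)]
    exact Reach.head h1 (e ▸ ih fun y hy => hσ y (Reach.head h1 (e ▸ hy)))

theorem branch_congr (hσ : ∀ y ∈ branch D σ a, σ' y = σ y) : branch D σ' a = branch D σ a := by
  ext v
  simp only [mem_branch] at hσ ⊢
  exact ⟨fun h => h.congr' hσ, fun h => h.congr hσ⟩

theorem Exits.congr (h : Exits D σ a r) (hσ : ∀ y ∈ branch D σ a, σ' y = σ y) :
    Exits D σ' a r := by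
  simp only [mem_branch] at hσ
  induction h with
  | base h => exact Exits.base h
  | @step a r h1 h2 ih =>
    have e : next σ' a = next σ a := by
      simp [next, hσ a (Reach.refl h1)]
    exact Exits.step h1 (e ▸ ih fun y hy => hσ y (Reach.head h1 hy))

theorem exits_congr (hσ : ∀ y ∈ branch D σ a, σ' y = σ y) :
    Exits D σ' a r ↔ Exits D σ a r := by
  refine ⟨fun h => h.congr fun y hy => ?_, fun h => h.congr hσ⟩
  rw [branch_congr hσ] at hy
  exact (hσ y hy).symm

theorem isTree_congr (hσ : ∀ y ∈ D, σ' y = σ y) : IsTree D σ' ↔ IsTree D σ := by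
  simp only [isTree_iff]
  exact forall_congr' fun a => exists_congr fun r =>
    exits_congr fun y hy => hσ y (branch_subset hy)

open Classical in
/-- The point where the branch leaves `D`. -/
noncomputable def root (D : Finset Pt) (σ : Cfg) (a : Pt) : Pt :=
  if h : ∃ r, Exits D σ a r then h.choose else a

theorem Exits.root_eq (h : Exits D σ a r) : root D σ a = r := by
  have h' : ∃ r, Exits D σ a r := ⟨r, h⟩
  simp only [root, h', dif_pos]
  exact h'.choose_spec.unique h

theorem IsTree.exits (h : IsTree D σ) (a : Pt) : Exits D σ a (root D σ a) := by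
  obtain ⟨r, hr⟩ := isTree_iff.1 h a
  rwa [hr.root_eq]

theorem root_of_not_mem (ha : a ∉ D) : root D σ a = a := (Exits.base ha).root_eq

theorem root_congr (hσ : ∀ y ∈ branch D σ a, σ' y = σ y) : root D σ' a = root D σ a := by
  by_cases h : ∃ r, Exits D σ a r
  · obtain ⟨r, hr⟩ := h
    rw [hr.root_eq, ((exits_congr hσ).2 hr).root_eq]
  · have h' : ¬ ∃ r, Exits D σ' a r := fun ⟨r, hr⟩ => h ⟨r, (exits_congr hσ).1 hr⟩
    simp [root, h, h']

theorem root_congr' (hσ : ∀ y ∈ D, σ' y = σ y) : root D σ' a = root D σ a :=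
  root_congr fun y hy => hσ y (branch_subset hy)

theorem branch_congr' (hσ : ∀ y ∈ D, σ' y = σ y) : branch D σ' a = branch D σ a :=
  branch_congr fun y hy => hσ y (branch_subset hy)

theorem Exits.trans (h : Exits D' σ a r') (hD : D' ⊆ D) (h' : Exits D σ r' r) :
    Exits D σ a r := by
  induction h with
  | base _ => exact h'
  | step h1 _ ih => exact Exits.step (hD h1) (ih h')

theorem Exits.restrict (h : Exits D σ a r) (hD : D' ⊆ D) :
    ∃ r', Exits D' σ a r' ∧ Exits D σ r' r := by
  induction h with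
  | base h => exact ⟨_, Exits.base fun h' => h (hD h'), Exits.base h⟩
  | @step a r h1 h2 ih =>
    by_cases ha : a ∈ D'
    · obtain ⟨r', h3, h4⟩ := ih
      exact ⟨r', Exits.step ha h3, h4⟩
    · exact ⟨a, Exits.base ha, Exits.step h1 h2⟩

theorem IsTree.mono (h : IsTree D σ) (hD : D' ⊆ D) : IsTree D' σ :=
  isTree_iff.2 fun a => by
    obtain ⟨r', h1, -⟩ := (h.exits a).restrict hD
    exact ⟨r', h1⟩

theorem Exits.of_reach (h : Exits D σ a r) (h' : Reach D σ a v) : Exits D σ v r := by
  induction h' with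
  | refl _ => exact h
  | head h1 _ ih => exact ih (h.succ h1)

theorem isTree_erase (hz : z ∈ D) :
    IsTree D σ ↔ IsTree (D.erase z) σ ∧ root (D.erase z) σ (next σ z) ≠ z := by
  constructor
  · intro h
    have h1 := h.mono (Finset.erase_subset z D)
    refine ⟨h1, fun h2 => ?_⟩
    have h3 := h1.exits (next σ z)
    rw [h2] at h3
    have key : ∀ a r, Exits D σ a r → ¬ Exits (D.erase z) σ a z := by
      intro a r har
      induction har with
      | @base a ha =>
        intro h4
        have := h4.eq_of_not_mem fun h5 => ha (Finset.mem_of_mem_erase h5)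
        exact ha (this ▸ hz)
      | @step a r ha _ ih =>
        intro h4
        by_cases haz : a = z
        · subst haz; exact ih h3
        · exact ih (h4.succ (Finset.mem_erase.2 ⟨haz, ha⟩))
    exact key _ _ (h.exits z) (Exits.base (Finset.notMem_erase z D))
  · rintro ⟨h1, h2⟩
    have out : ∀ a, root (D.erase z) σ a ≠ z → Exits D σ a (root (D.erase z) σ a) := by
      intro a ha
      refine (h1.exits a).trans (Finset.erase_subset z D) (Exits.base fun h3 => ?_)
      exact (h1.exits a).not_mem (Finset.mem_erase.2 ⟨ha, h3⟩)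
    refine isTree_iff.2 fun a => ?_
    by_cases ha : root (D.erase z) σ a = z
    · refine ⟨root (D.erase z) σ (next σ z), (h1.exits a).trans (Finset.erase_subset z D) ?_⟩
      rw [ha]
      exact Exits.step hz (out _ h2)
    · exact ⟨_, out a ha⟩

theorem root_erase (hz : z ∈ D) (h : IsTree D σ) (a : Pt) :
    root D σ a = if root (D.erase z) σ a = z then root (D.erase z) σ (next σ z)
      else root (D.erase z) σ a := by
  obtain ⟨h1, h2⟩ := (isTree_erase hz).1 h
  have out : ∀ a, root (D.erase z) σ a ≠ z → Exits D σ a (root (D.erase z) σ a) := by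
    intro a ha
    refine (h1.exits a).trans (Finset.erase_subset z D) (Exits.base fun h3 => ?_)
    exact (h1.exits a).not_mem (Finset.mem_erase.2 ⟨ha, h3⟩)
  split_ifs with ha
  · refine Exits.root_eq ((h1.exits a).trans (Finset.erase_subset z D) ?_)
    rw [ha]
    exact Exits.step hz (out _ h2)
  · exact (out a ha).root_eq

/-- `S` is closed under following edges inside `D`. -/
def Closed (D : Finset Pt) (σ : Cfg) (S : Finset Pt) : Prop :=
  S ⊆ D ∧ ∀ v ∈ S, next σ v ∈ D → next σ v ∈ S

theorem closed_branch : Closed D σ (branch D σ a) :=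
  ⟨branch_subset, fun _ hv h => mem_branch.2 ((mem_branch.1 hv).tail h)⟩

theorem closed_empty : Closed D σ ∅ := ⟨Finset.empty_subset _, fun _ h => absurd h (by simp)⟩

theorem Closed.union {T : Finset Pt} (h : Closed D σ S) (h' : Closed D σ T) :
    Closed D σ (S ∪ T) := by
  refine ⟨Finset.union_subset h.1 h'.1, fun v hv hn => ?_⟩
  rcases Finset.mem_union.1 hv with hv | hv
  · exact Finset.mem_union_left _ (h.2 v hv hn)
  · exact Finset.mem_union_right _ (h'.2 v hv hn)

theorem closed_biUnion {ι : Type*} {s : Finset ι} {T : ι → Finset Pt}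
    (h : ∀ i ∈ s, Closed D σ (T i)) : Closed D σ (s.biUnion T) := by
  refine ⟨Finset.biUnion_subset.2 fun i hi => (h i hi).1, fun v hv hn => ?_⟩
  obtain ⟨i, hi, hv⟩ := Finset.mem_biUnion.1 hv
  exact Finset.mem_biUnion.2 ⟨i, hi, (h i hi).2 v hv hn⟩

theorem Closed.reach (h : Closed D σ S) (ha : a ∈ S) (hv : Reach D σ a v) : v ∈ S := by
  induction hv with
  | refl _ => exact ha
  | head h1 h2 ih => exact ih (h.2 _ ha h2.left_mem)

theorem Closed.branch_subset (h : Closed D σ S) (ha : a ∈ S) : branch D σ a ⊆ S :=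
  fun _ hv => h.reach ha (mem_branch.1 hv)

theorem Closed.exits (h : Closed D σ S) (hr : Exits S σ a r) (ha : a ∈ S ∨ a ∉ D) :
    Exits D σ a r := by
  induction hr with
  | base h1 => exact Exits.base (ha.resolve_left h1)
  | @step a r h1 _ ih =>
    refine Exits.step (h.1 h1) (ih ?_)
    by_cases h2 : next σ a ∈ D
    · exact Or.inl (h.2 a h1 h2)
    · exact Or.inr h2

theorem isTree_split (h : Closed D σ S) : IsTree D σ ↔ IsTree S σ ∧ IsTree (D \ S) σ := by
  refine ⟨fun h1 => ⟨h1.mono h.1, h1.mono Finset.sdiff_subset⟩, fun ⟨h1, h2⟩ => ?_⟩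
  refine isTree_iff.2 fun a => ?_
  have h3 := h2.exits a
  refine ⟨_, h3.trans Finset.sdiff_subset (h.exits (h1.exits _) ?_)⟩
  have := h3.not_mem
  rw [Finset.mem_sdiff] at this
  tauto

/-- A branch splits at the point where it leaves a smaller set. -/
theorem Exits.branch_eq (h : Exits D' σ a r) (hD : D' ⊆ D) :
    branch D σ a = branch D' σ a ∪ branch D σ r := by
  ext v
  simp only [Finset.mem_union, mem_branch]
  induction h with
  | @base a h =>
    exact ⟨Or.inr, fun h1 => h1.elim (fun h2 => absurd h2.left_mem h) id⟩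
  | @step a r h1 h2 ih =>
    constructor
    · intro h3
      cases h3 with
      | refl _ => exact Or.inl (Reach.refl h1)
      | head _ h4 => exact (ih.1 h4).imp_left (Reach.head h1)
    · rintro (h3 | h3)
      · exact h3.mono hD
      · exact Reach.head (hD h1) (ih.2 (Or.inr h3))

theorem Exits.last (h : Exits D σ a r) (ha : a ∈ D) :
    ∃ y ∈ branch D σ a, r = next σ y := by
  induction h with
  | base h => exact absurd ha h
  | @step a r h1 h2 ih =>
    by_cases h3 : next σ a ∈ D
    · obtain ⟨y, hy, e⟩ := ih h3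
      exact ⟨y, mem_branch.2 (Reach.head h1 (mem_branch.1 hy)), e⟩
    · exact ⟨a, self_mem_branch h1, h2.eq_of_not_mem h3⟩

/-- Along a branch, a property holding at the start and failing at the root changes at an edge. -/
theorem Exits.change (h : Exits D σ a r) {Q : Pt → Prop} (ha : Q a) (hr : ¬ Q r) :
    ∃ y ∈ branch D σ a, Q y ∧ ¬ Q (next σ y) := by
  induction h with
  | base _ => exact absurd ha hr
  | @step a r h1 h2 ih =>
    by_cases h3 : Q (next σ a)
    · obtain ⟨y, hy, e⟩ := ih h3 hr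
      exact ⟨y, mem_branch.2 (Reach.head h1 (mem_branch.1 hy)), e⟩
    · exact ⟨a, self_mem_branch h1, ha, h3⟩

theorem stopping_branch : Stopping fun σ => branch D σ a := fun _ _ h => branch_congr h

theorem stopping_biUnion {G : Finset Pt} : Stopping fun σ => G.biUnion (branch D σ) := by
  intro σ σ' h
  refine Finset.biUnion_congr rfl fun a ha => branch_congr fun y hy => h y ?_
  exact Finset.mem_biUnion.2 ⟨a, ha, hy⟩

/-- There is a lattice path inside `S` from the point to the outside of `V`. -/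
inductive Esc (V S : Finset Pt) : Pt → Prop
  | out {a : Pt} : a ∉ V → Esc V S a
  | step {a : Pt} (i : Fin 3) : a ∈ S → Esc V S (a + dir i) → Esc V S a

/-- Every point of `S` is joined inside `S` to the outside of `V`. -/
def Bar (V S : Finset Pt) : Prop := ∀ s ∈ S, Esc V S s

theorem Esc.mono {T : Finset Pt} (h : Esc V S a) (hS : S ⊆ T) : Esc V T a := by
  induction h with
  | out h => exact Esc.out h
  | step i h1 _ ih => exact Esc.step i (hS h1) ih

theorem bar_empty : Bar V ∅ := fun _ h => absurd h (by simp)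

theorem Bar.union {T : Finset Pt} (hS : Bar V S) (ht : IsTree (V \ S) σ)
    (hT : Closed (V \ S) σ T) : Bar V (S ∪ T) := by
  have key : ∀ a r, Exits (V \ S) σ a r → (a ∈ T ∨ a ∉ V \ S) → Esc V (S ∪ T) a := by
    intro a r har
    induction har with
    | @base a h =>
      intro _
      by_cases h1 : a ∈ V
      · have : a ∈ S := by
          by_contra h2
          exact h (Finset.mem_sdiff.2 ⟨h1, h2⟩)
        exact (hS a this).mono Finset.subset_union_left
      · exact Esc.out h1
    | @step a r h1 _ ih =>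
      intro h2
      have h3 : a ∈ T := h2.resolve_right (not_not.2 h1)
      refine Esc.step (σ a) (Finset.mem_union_right _ h3) (ih ?_)
      by_cases h4 : next σ a ∈ V \ S
      · exact Or.inl (hT.2 a h3 h4)
      · exact Or.inr h4
  intro s hs
  rcases Finset.mem_union.1 hs with hs | hs
  · exact (hS s hs).mono Finset.subset_union_left
  · exact key s _ (ht.exits s) (Or.inl hs)

theorem Closed.bar (ht : IsTree V σ) (hT : Closed V σ S) : Bar V S := by
  have := (bar_empty (V := V)).union (σ := σ) (T := S) (by simpa using ht) (by simpa using hT)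
  simpa using this

theorem isTree_zero (D : Finset Pt) : IsTree D (fun _ => 0) := by
  intro v _
  have hit : ∀ n : ℕ, (next fun _ => 0)^[n] v = (v.1 + n, v.2) := by
    intro n
    induction n with
    | zero => simp
    | succ n ih =>
      rw [Function.iterate_succ_apply', ih]
      simp [next, dir, add_assoc]
  obtain ⟨B, hB⟩ := (D.image Prod.fst).bddAbove
  refine ⟨(B - v.1 + 1).toNat, fun h => ?_⟩
  rw [hit] at h
  have := hB (Finset.mem_coe.2 (Finset.mem_image_of_mem Prod.fst h))
  simp only at this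
  omega

end Pool.Agent.Lib.MP_60c5b4_pr
end

-- part Pool.Agent.Lib.MP_60c5b4_pr.Forest
section

/-!
Random rooted forests: harmonic measure, domain Markov property, comparison of branches.
-/

namespace Pool.Agent.Lib.MP_60c5b4_pr

open Finset Classical

/-- Indicator of a proposition. -/
noncomputable def ind (P : Prop) : ℝ := if P then 1 else 0

theorem ind_pos {P : Prop} (h : P) : ind P = 1 := if_pos h

theorem ind_neg {P : Prop} (h : ¬ P) : ind P = 0 := if_neg h

@[simp] theorem ind_true : ind True = 1 := ind_pos trivial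

@[simp] theorem ind_false : ind False = 0 := ind_neg not_false

theorem ind_nonneg (P : Prop) : 0 ≤ ind P := by
  unfold ind; split_ifs <;> norm_num

theorem ind_le_one (P : Prop) : ind P ≤ 1 := by
  unfold ind; split_ifs <;> norm_num

theorem ind_mono {P Q : Prop} (h : P → Q) : ind P ≤ ind Q := by
  by_cases hP : P
  · rw [ind_pos hP, ind_pos (h hP)]
  · rw [ind_neg hP]; exact ind_nonneg Q

theorem ind_congr {P Q : Prop} (h : P ↔ Q) : ind P = ind Q := by rw [propext h]

/-- Unnormalised forest expectation. -/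
noncomputable def EF (V : Finset Pt) (p : Pt → Fin 3 → ℝ) (D : Finset Pt) (F : Cfg → ℝ) : ℝ :=
  Ex V p fun σ => if IsTree D σ then F σ else 0

/-- Partition function. -/
noncomputable def ZF (V : Finset Pt) (p : Pt → Fin 3 → ℝ) (D : Finset Pt) : ℝ :=
  EF V p D fun _ => 1

/-- Forest expectation. -/
noncomputable def PE (V : Finset Pt) (p : Pt → Fin 3 → ℝ) (D : Finset Pt) (F : Cfg → ℝ) : ℝ :=
  EF V p D F / ZF V p D

/-- Forest probability. -/
noncomputable def Pr (V : Finset Pt) (p : Pt → Fin 3 → ℝ) (D : Finset Pt) (A : Cfg → Prop) : ℝ :=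
  PE V p D fun σ => ind (A σ)

/-- Harmonic extension. -/
noncomputable def HE (V : Finset Pt) (p : Pt → Fin 3 → ℝ) (D : Finset Pt) (φ : Pt → ℝ)
    (z : Pt) : ℝ :=
  PE V p D fun σ => φ (root D σ z)

/-- One step average. -/
noncomputable def avg (p : Pt → Fin 3 → ℝ) (u : Pt → ℝ) (v : Pt) : ℝ :=
  ∑ i, p v i * u (v + dir i)

variable {V D D' U : Finset Pt} {p : Pt → Fin 3 → ℝ}

theorem ZF_pos (hp : Trans p) : 0 < ZF V p D := by
  unfold ZF EF
  refine Ex_pos hp (fun σ => ?_) ?_
  · split_ifs <;> norm_num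
  · simp [isTree_zero]

theorem EF_mono (hp : Trans p) {F G : Cfg → ℝ} (h : ∀ σ, IsTree D σ → F σ ≤ G σ) :
    EF V p D F ≤ EF V p D G := by
  refine Ex_mono hp fun σ => ?_
  split_ifs with h1
  · exact h σ h1
  · exact le_rfl

theorem EF_congr {F G : Cfg → ℝ} (h : ∀ σ, IsTree D σ → F σ = G σ) :
    EF V p D F = EF V p D G := by
  unfold EF
  congr 1
  funext σ
  split_ifs with h1
  · exact h σ h1
  · rfl

theorem EF_add (F G : Cfg → ℝ) : EF V p D (fun σ => F σ + G σ) = EF V p D F + EF V p D G := by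
  unfold EF
  rw [← Ex_add]
  congr 1
  funext σ
  split_ifs <;> simp

theorem EF_const_mul (a : ℝ) (F : Cfg → ℝ) : EF V p D (fun σ => a * F σ) = a * EF V p D F := by
  unfold EF
  rw [← Ex_const_mul]
  congr 1
  funext σ
  split_ifs <;> simp

theorem PE_mono (hp : Trans p) {F G : Cfg → ℝ} (h : ∀ σ, IsTree D σ → F σ ≤ G σ) :
    PE V p D F ≤ PE V p D G :=
  div_le_div_of_nonneg_right (EF_mono hp h) (ZF_pos hp).le

theorem PE_congr {F G : Cfg → ℝ} (h : ∀ σ, IsTree D σ → F σ = G σ) :
    PE V p D F = PE V p D G := by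
  unfold PE; rw [EF_congr h]

theorem PE_add (F G : Cfg → ℝ) : PE V p D (fun σ => F σ + G σ) = PE V p D F + PE V p D G := by
  unfold PE; rw [EF_add, add_div]

theorem PE_const_mul (a : ℝ) (F : Cfg → ℝ) : PE V p D (fun σ => a * F σ) = a * PE V p D F := by
  unfold PE; rw [EF_const_mul, mul_div_assoc]

theorem PE_sub (F G : Cfg → ℝ) : PE V p D (fun σ => F σ - G σ) = PE V p D F - PE V p D G := by
  have h := PE_add (V := V) (p := p) (D := D) F (fun σ => (-1) * G σ)
  rw [PE_const_mul] at h
  simpa [sub_eq_add_neg] using h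

theorem PE_const (hp : Trans p) (a : ℝ) : PE V p D (fun _ => a) = a := by
  have h := PE_const_mul (V := V) (p := p) (D := D) a (fun _ => 1)
  have h1 : PE V p D (fun _ => 1) = 1 := div_self (ZF_pos hp).ne'
  simpa [h1] using h

theorem PE_sum (hp : Trans p) {ι : Type*} (s : Finset ι) (F : ι → Cfg → ℝ) :
    PE V p D (fun σ => ∑ i ∈ s, F i σ) = ∑ i ∈ s, PE V p D (F i) := by
  induction s using Finset.induction_on with
  | empty => simp [PE_const hp]
  | insert i s hi ih => simp only [Finset.sum_insert hi]; rw [PE_add, ih]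

theorem PE_le (hp : Trans p) {F : Cfg → ℝ} {a : ℝ} (h : ∀ σ, IsTree D σ → F σ ≤ a) :
    PE V p D F ≤ a := by
  simpa [PE_const hp] using PE_mono (V := V) (G := fun _ => a) hp h

theorem le_PE (hp : Trans p) {F : Cfg → ℝ} {a : ℝ} (h : ∀ σ, IsTree D σ → a ≤ F σ) :
    a ≤ PE V p D F := by
  simpa [PE_const hp] using PE_mono (V := V) (F := fun _ => a) hp h

theorem Pr_nonneg (hp : Trans p) (A : Cfg → Prop) : 0 ≤ Pr V p D A :=
  le_PE hp fun _ _ => ind_nonneg _

theorem Pr_le_one (hp : Trans p) (A : Cfg → Prop) : Pr V p D A ≤ 1 :=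
  PE_le hp fun _ _ => ind_le_one _

theorem Pr_mono (hp : Trans p) {A B : Cfg → Prop} (h : ∀ σ, IsTree D σ → A σ → B σ) :
    Pr V p D A ≤ Pr V p D B :=
  PE_mono hp fun σ hσ => ind_mono (h σ hσ)

theorem Pr_or (hp : Trans p) (A B : Cfg → Prop) :
    Pr V p D (fun σ => A σ ∨ B σ) ≤ Pr V p D A + Pr V p D B := by
  unfold Pr
  rw [← PE_add]
  refine PE_mono hp fun σ _ => ?_
  by_cases hA : A σ <;> by_cases hB : B σ <;> simp [hA, hB]

theorem Pr_exists (hp : Trans p) {ι : Type*} (s : Finset ι) (A : ι → Cfg → Prop) :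
    Pr V p D (fun σ => ∃ i ∈ s, A i σ) ≤ ∑ i ∈ s, Pr V p D (A i) := by
  unfold Pr
  rw [← PE_sum hp]
  refine PE_mono hp fun σ _ => ?_
  by_cases h : ∃ i ∈ s, A i σ
  · rw [ind_pos h]
    obtain ⟨i, hi, hA⟩ := h
    refine le_trans ?_ (Finset.single_le_sum (f := fun i => ind (A i σ))
      (fun j _ => ind_nonneg _) hi)
    simp [hA]
  · rw [ind_neg h]
    exact Finset.sum_nonneg fun j _ => ind_nonneg _

theorem Pr_not (hp : Trans p) (A : Cfg → Prop) :
    Pr V p D (fun σ => ¬ A σ) = 1 - Pr V p D A := by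
  unfold Pr
  rw [← PE_const (V := V) (D := D) hp 1, ← PE_sub]
  refine PE_congr fun σ _ => ?_
  by_cases hA : A σ <;> simp [hA]

/-- Markov inequality. -/
theorem Pr_markov (hp : Trans p) {F : Cfg → ℝ} {t : ℝ} (ht : 0 < t)
    (hF : ∀ σ, IsTree D σ → 0 ≤ F σ) : Pr V p D (fun σ => t ≤ F σ) ≤ PE V p D F / t := by
  rw [div_eq_inv_mul, ← PE_const_mul]
  refine PE_mono hp fun σ hσ => ?_
  by_cases h : t ≤ F σ
  · rw [ind_pos h, ← div_eq_inv_mul, le_div_iff₀ ht]; simpa using h
  · rw [ind_neg h]; exact mul_nonneg (inv_nonneg.2 ht.le) (hF σ hσ)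

theorem HE_of_not_mem (hp : Trans p) (φ : Pt → ℝ) {z : Pt} (hz : z ∉ D) : HE V p D φ z = φ z := by
  simp only [HE, root_of_not_mem hz, PE_const hp]

theorem HE_le (hp : Trans p) {φ : Pt → ℝ} {a : ℝ} (h : ∀ v, v ∉ D → φ v ≤ a) (z : Pt) :
    HE V p D φ z ≤ a :=
  PE_le hp fun _ hσ => h _ (hσ.exits z).not_mem

theorem le_HE (hp : Trans p) {φ : Pt → ℝ} {a : ℝ} (h : ∀ v, v ∉ D → a ≤ φ v) (z : Pt) :
    a ≤ HE V p D φ z :=
  le_PE hp fun _ hσ => h _ (hσ.exits z).not_mem

theorem EF_erase (hp : Trans p) (hD : D ⊆ V) {z : Pt} (hz : z ∈ D) (φ : Pt → ℝ) (y : Pt) :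
    EF V p D (fun σ => φ (root D σ y)) = EF V p (D.erase z) fun σ => ∑ i, p z i *
      if root (D.erase z) σ (z + dir i) ≠ z then
        φ (if root (D.erase z) σ y = z then root (D.erase z) σ (z + dir i)
          else root (D.erase z) σ y) else 0 := by
  unfold EF
  rw [Ex_resample hp (hD hz)]
  congr 1
  funext σ
  have hu : ∀ i, ∀ v ∈ D.erase z, Function.update σ z i v = σ v := fun i v hv =>
    Function.update_of_ne (Finset.ne_of_mem_erase hv) _ _
  have hn : ∀ i, next (Function.update σ z i) z = z + dir i := fun i => by simp [next]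
  by_cases h : IsTree (D.erase z) σ
  · rw [if_pos h]
    refine Finset.sum_congr rfl fun i _ => ?_
    congr 1
    have h1 := isTree_erase (σ := Function.update σ z i) hz
    rw [isTree_congr (hu i), root_congr' (hu i), hn] at h1
    by_cases h2 : root (D.erase z) σ (z + dir i) ≠ z
    · have h3 := h1.2 ⟨h, h2⟩
      rw [if_pos h3, if_pos h2]
      beta_reduce
      rw [root_erase hz h3, root_congr' (hu i), root_congr' (hu i), hn]
    · rw [if_neg h2, if_neg fun h3 => h2 (h1.1 h3).2]
  · rw [if_neg h]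
    refine Finset.sum_eq_zero fun i _ => ?_
    rw [if_neg, mul_zero]
    intro h3
    exact h ((isTree_congr (hu i)).1 (h3.mono (Finset.erase_subset z D)))

theorem EF_sum {ι : Type*} (s : Finset ι) (F : ι → Cfg → ℝ) :
    EF V p D (fun σ => ∑ i ∈ s, F i σ) = ∑ i ∈ s, EF V p D (F i) := by
  unfold EF
  rw [← Ex_sum]
  congr 1
  funext σ
  split_ifs <;> simp

/-- The root of the forest has the law of the exit point of the walk. -/
theorem HE_harmonic (hp : Trans p) (hD : D ⊆ V) {z : Pt} (hz : z ∈ D) (φ : Pt → ℝ) :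
    HE V p D φ z = avg p (HE V p D φ) z := by
  unfold avg HE PE
  simp only [← mul_div_assoc]
  rw [← Finset.sum_div]
  congr 1
  simp only [EF_erase hp hD hz, ← EF_const_mul]
  rw [← EF_sum]
  refine EF_congr fun σ _ => ?_
  rw [root_of_not_mem (Finset.notMem_erase z D)]
  have hs := hp.sum z
  simp only [Fin.sum_univ_three] at hs ⊢
  have h2 : p z 2 = 1 - p z 0 - p z 1 := by linarith
  generalize root (D.erase z) σ (z + dir 0) = r0
  generalize root (D.erase z) σ (z + dir 1) = r1
  generalize root (D.erase z) σ (z + dir 2) = r2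
  rw [h2]
  by_cases h0 : r0 = z <;> by_cases h1 : r1 = z <;> by_cases h2 : r2 = z <;>
    simp [h0, h1, h2] <;> ring

theorem ZF_erase (hp : Trans p) (hD : D ⊆ V) {z : Pt} (hz : z ∈ D) :
    ZF V p D = ZF V p (D.erase z) *
      (1 - avg p (HE V p (D.erase z) fun v => ind (v = z)) z) := by
  have h := EF_erase hp hD hz (fun _ => 1) z
  have hZ := (ZF_pos (V := V) (D := D.erase z) hp).ne'
  have h2 : 1 - avg p (HE V p (D.erase z) fun v => ind (v = z)) z =
      PE V p (D.erase z) fun σ => ∑ i, p z i *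
        if root (D.erase z) σ (z + dir i) ≠ z then 1 else 0 := by
    rw [PE_sum hp, avg, ← hp.sum z, ← Finset.sum_sub_distrib]
    refine Finset.sum_congr rfl fun i _ => ?_
    rw [PE_const_mul, hp.sum z]
    have := Pr_not (V := V) (D := D.erase z) hp fun σ => root (D.erase z) σ (z + dir i) = z
    unfold Pr at this
    unfold HE
    have e : (fun σ => if root (D.erase z) σ (z + dir i) ≠ z then (1 : ℝ) else 0) =
        fun σ => ind (¬ root (D.erase z) σ (z + dir i) = z) := by
      funext σ; by_cases h : root (D.erase z) σ (z + dir i) = z <;> simp [h]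
    rw [e, this]
    ring
  rw [h2, PE, mul_div_cancel₀ _ hZ]
  exact h

theorem avg_mono (hp : Trans p) {u w : Pt → ℝ} {v : Pt}
    (h : ∀ i, u (v + dir i) ≤ w (v + dir i)) : avg p u v ≤ avg p w v :=
  Finset.sum_le_sum fun i _ => mul_le_mul_of_nonneg_left (h i) (hp.pos v i).le

theorem avg_const (hp : Trans p) (a : ℝ) (v : Pt) : avg p (fun _ => a) v = a := by
  simp [avg, ← Finset.sum_mul, hp.sum]

theorem avg_add (u w : Pt → ℝ) (v : Pt) :
    avg p (fun x => u x + w x) v = avg p u v + avg p w v := by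
  simp [avg, mul_add, Finset.sum_add_distrib]

theorem avg_sub (u w : Pt → ℝ) (v : Pt) :
    avg p (fun x => u x - w x) v = avg p u v - avg p w v := by
  simp [avg, mul_sub, Finset.sum_sub_distrib]

theorem avg_const_mul (a : ℝ) (u : Pt → ℝ) (v : Pt) :
    avg p (fun x => a * u x) v = a * avg p u v := by
  simp only [avg, Finset.mul_sum]
  exact Finset.sum_congr rfl fun i _ => by ring

/-- Maximum principle. -/
theorem max_principle (hp : Trans p) {u : Pt → ℝ} (hu : ∀ v ∈ U, u v ≤ avg p u v)
    (hb : ∀ v ∈ U, ∀ i, v + dir i ∉ U → u (v + dir i) ≤ 0) : ∀ v ∈ U, u v ≤ 0 := by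
  intro v hv
  by_contra hpos
  push Not at hpos
  obtain ⟨w, hw, hmax⟩ := Finset.exists_max_image U u ⟨v, hv⟩
  obtain ⟨x, hx, hx2⟩ := Finset.exists_max_image (U.filter fun y => u y = u w) Prod.fst
    ⟨w, Finset.mem_filter.2 ⟨hw, rfl⟩⟩
  obtain ⟨hxU, hxw⟩ := Finset.mem_filter.1 hx
  have hm : 0 < u w := hpos.trans_le (hmax v hv)
  have hle : ∀ i, u (x + dir i) ≤ u w := fun i => by
    by_cases h : x + dir i ∈ U
    · exact hmax _ h
    · exact (hb x hxU i h).trans hm.le
  have hlt : u (x + dir 0) < u w := by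
    refine lt_of_le_of_ne (hle 0) fun h => ?_
    by_cases h1 : x + dir 0 ∈ U
    · have := hx2 _ (Finset.mem_filter.2 ⟨h1, h⟩)
      simp [dir] at this
    · have := hb x hxU 0 h1
      linarith
  have h1 : avg p u x < avg p (fun _ => u w) x :=
    Finset.sum_lt_sum (fun i _ => mul_le_mul_of_nonneg_left (hle i) (hp.pos x i).le)
      ⟨0, Finset.mem_univ _, mul_lt_mul_of_pos_left hlt (hp.pos x 0)⟩
  rw [avg_const hp] at h1
  have := hu x hxU
  linarith

/-- Comparison: a subsolution lies below a supersolution. -/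
theorem compare (hp : Trans p) {u w : Pt → ℝ}
    (hu : ∀ v ∈ U, u v - avg p u v ≤ w v - avg p w v)
    (hb : ∀ v ∈ U, ∀ i, v + dir i ∉ U → u (v + dir i) ≤ w (v + dir i)) :
    ∀ v ∈ U, u v ≤ w v := by
  intro v hv
  have := max_principle (U := U) hp (u := fun x => u x - w x)
    (fun v hv => by rw [avg_sub]; have := hu v hv; linarith)
    (fun v hv i hi => by have := hb v hv i hi; linarith) v hv
  linarith

theorem ZF_submod_one (hp : Trans p) (hD : D ⊆ V) (hD' : D' ⊆ D) {x : Pt} (hx : x ∈ D') :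
    ZF V p (D'.erase x) * ZF V p D ≤ ZF V p (D.erase x) * ZF V p D' := by
  rw [ZF_erase hp hD (hD' hx), ZF_erase hp (hD'.trans hD) hx]
  have h1 := ZF_pos (V := V) (D := D.erase x) hp
  have h2 := ZF_pos (V := V) (D := D'.erase x) hp
  have hsub : D'.erase x ⊆ D.erase x := Finset.erase_subset_erase x hD'
  have key : ∀ y, HE V p (D'.erase x) (fun v => ind (v = x)) y ≤
      HE V p (D.erase x) (fun v => ind (v = x)) y := by
    have out : ∀ y, y ∉ D'.erase x → HE V p (D'.erase x) (fun v => ind (v = x)) y ≤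
        HE V p (D.erase x) (fun v => ind (v = x)) y := by
      intro y hy
      rw [HE_of_not_mem hp _ hy]
      by_cases h : y = x
      · rw [h, HE_of_not_mem hp _ (Finset.notMem_erase x D)]
      · rw [ind_neg h]; exact le_HE hp (fun v _ => ind_nonneg _) y
    intro y
    by_cases hy : y ∈ D'.erase x
    · refine compare hp (fun v hv => ?_) (fun v _ i hi => out _ hi) y hy
      rw [← HE_harmonic hp ((Finset.erase_subset _ _).trans (hD'.trans hD)) hv,
        ← HE_harmonic hp ((Finset.erase_subset _ _).trans hD) (hsub hv)]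
      simp
    · exact out y hy
  have h3 := avg_mono (v := x) hp fun i => key (x + dir i)
  nlinarith [mul_pos h1 h2]

theorem ZF_submod (hp : Trans p) (hD : D ⊆ V) (hD' : D' ⊆ D) (S : Finset Pt) (hS : S ⊆ D') :
    ZF V p (D' \ S) * ZF V p D ≤ ZF V p (D \ S) * ZF V p D' := by
  induction S using Finset.induction_on with
  | empty => simp [mul_comm]
  | insert x S hx ih =>
    have ih' := ih ((Finset.subset_insert x S).trans hS)
    have h1 := ZF_submod_one (V := V) (D := D \ S) (D' := D' \ S) hp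
      (Finset.sdiff_subset.trans hD) (Finset.sdiff_subset_sdiff hD' le_rfl)
      (Finset.mem_sdiff.2 ⟨hS (Finset.mem_insert_self x S), hx⟩)
    rw [← Finset.sdiff_insert, ← Finset.sdiff_insert] at h1
    have a1 := ZF_pos (V := V) (D := D \ S) hp
    have a2 := ZF_pos (V := V) (D := D' \ S) hp
    have a3 := ZF_pos (V := V) (D := D) hp
    have a4 := ZF_pos (V := V) (D := D') hp
    have a5 := ZF_pos (V := V) (D := D \ insert x S) hp
    have a6 := ZF_pos (V := V) (D := D' \ insert x S) hp
    have := mul_le_mul h1 ih' (by positivity) (by positivity)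
    have h2 : (ZF V p (D' \ insert x S) * ZF V p D) * (ZF V p (D \ S) * ZF V p (D' \ S)) ≤
        (ZF V p (D \ insert x S) * ZF V p D') * (ZF V p (D \ S) * ZF V p (D' \ S)) := by
      nlinarith
    exact le_of_mul_le_mul_right h2 (mul_pos a1 a2)

/-- A functional determined by the directions on the stopping set. -/
def Det (S : Cfg → Finset Pt) {α : Type*} (G : Cfg → α) : Prop :=
  ∀ σ σ', (∀ v ∈ S σ, σ' v = σ v) → G σ' = G σ

theorem EF_markov (hp : Trans p) {S : Cfg → Finset Pt} (hS : Stopping S)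
    (hc : ∀ σ, Closed D σ (S σ)) {G : Cfg → ℝ} (hG : Det S G) {Φ : Finset Pt → Cfg → ℝ}
    (hΦ : ∀ T σ σ', (∀ v, v ∉ T → σ' v = σ v) → Φ T σ' = Φ T σ) :
    EF V p D (fun σ => G σ * Φ (S σ) σ) =
      Ex V p fun σ => if IsTree (S σ) σ then G σ * EF V p (D \ S σ) (Φ (S σ)) else 0 := by
  unfold EF
  rw [Ex_swap hp hS]
  congr 1
  funext σ
  have h1 : ∀ σ', ∀ v ∈ S σ, merge (S σ) σ σ' v = σ v := fun σ' v hv => by simp [merge, hv]
  have h2 : ∀ σ', ∀ v, v ∉ S σ → merge (S σ) σ σ' v = σ' v := fun σ' v hv => by simp [merge, hv]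
  have h3 : ∀ σ', IsTree D (merge (S σ) σ σ') ↔ IsTree (S σ) σ ∧ IsTree (D \ S σ) σ' := by
    intro σ'
    have := isTree_split (hc (merge (S σ) σ σ'))
    rw [hS σ _ (h1 σ'), isTree_congr (h1 σ'),
      isTree_congr fun v hv => h2 σ' v (Finset.mem_sdiff.1 hv).2] at this
    exact this
  simp only [h3, hS σ _ (h1 _), hG σ _ (h1 _), fun σ' => hΦ (S σ) σ' _ (h2 σ')]
  by_cases h : IsTree (S σ) σ
  · simp only [h, true_and, if_true]
    rw [← Ex_const_mul]
    congr 1
    funext σ'
    split_ifs <;> simp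
  · simp [h, Ex_zero]

/-- Domain Markov property at a stopping set. -/
theorem PE_markov (hp : Trans p) {S : Cfg → Finset Pt} (hS : Stopping S)
    (hc : ∀ σ, Closed D σ (S σ)) {G : Cfg → ℝ} (hG : Det S G) {Φ : Finset Pt → Cfg → ℝ}
    (hΦ : ∀ T σ σ', (∀ v, v ∉ T → σ' v = σ v) → Φ T σ' = Φ T σ) :
    PE V p D (fun σ => G σ * Φ (S σ) σ) =
      PE V p D fun σ => G σ * PE V p (D \ S σ) (Φ (S σ)) := by
  unfold PE
  congr 1
  rw [EF_markov hp hS hc hG hΦ, EF_markov hp hS hc hG
    (Φ := fun T _ => EF V p (D \ T) (Φ T) / ZF V p (D \ T)) fun _ _ _ _ => rfl]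
  congr 1
  funext σ
  split_ifs
  · congr 1
    have := EF_const_mul (V := V) (p := p) (D := D \ S σ)
      (EF V p (D \ S σ) (Φ (S σ)) / ZF V p (D \ S σ)) fun _ => 1
    simp only [mul_one] at this
    rw [this]
    exact (div_mul_cancel₀ _ (ZF_pos hp).ne').symm
  · rfl

/-- A branch avoids `A` at least as often as the walk does. -/
theorem avoid_le (hp : Trans p) (hD : D ⊆ V) (A : Finset Pt) (E : Pt → Prop) (z : Pt) :
    HE V p (D \ A) (fun r => ind (r ∉ D ∧ E r)) z ≤
      Pr V p D fun σ => Disjoint (branch D σ z) A ∧ E (root D σ z) := by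
  have hZ := ZF_pos (V := V) (D := D) hp
  have hZ' := ZF_pos (V := V) (D := D \ A) hp
  have e1 := EF_markov (V := V) (D := D) hp (stopping_branch (D := D) (a := z))
    (fun _ => closed_branch)
    (G := fun σ => ind (Disjoint (branch D σ z) A ∧ E (root D σ z)))
    (fun σ σ' h => by simp only [branch_congr h, root_congr h]) (Φ := fun _ _ => 1)
    (fun _ _ _ _ => rfl)
  have e2 := EF_markov (V := V) (D := D \ A) hp (stopping_branch (D := D \ A) (a := z))
    (fun _ => closed_branch)
    (G := fun σ => ind (root (D \ A) σ z ∉ D ∧ E (root (D \ A) σ z)))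
    (fun σ σ' h => by simp only [root_congr h]) (Φ := fun _ _ => 1)
    (fun _ _ _ _ => rfl)
  simp only [mul_one] at e1 e2
  unfold HE Pr PE
  rw [div_le_div_iff₀ hZ' hZ]
  have e1' : (EF V p D fun σ => ind (Disjoint (branch D σ z) A ∧ E (root D σ z))) =
      _ := e1
  have e2' : (EF V p (D \ A) fun σ =>
      ind (root (D \ A) σ z ∉ D ∧ E (root (D \ A) σ z))) = _ := e2
  have goal : (EF V p (D \ A) fun σ =>
      ind (root (D \ A) σ z ∉ D ∧ E (root (D \ A) σ z))) * ZF V p D ≤
      (EF V p D fun σ => ind (Disjoint (branch D σ z) A ∧ E (root D σ z))) *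
        ZF V p (D \ A) := by
    rw [e1', e2', mul_comm, ← Ex_const_mul, mul_comm _ (ZF V p (D \ A)), ← Ex_const_mul]
    refine Ex_mono hp fun σ => ?_
    have hnn : 0 ≤ ZF V p (D \ A) * if IsTree (branch D σ z) σ then
        (ind (Disjoint (branch D σ z) A ∧ E (root D σ z))) *
          EF V p (D \ branch D σ z) (fun _ => 1) else 0 := by
      have := ZF_pos (V := V) (D := D \ branch D σ z) hp
      unfold ZF at this
      have h0 := ind_nonneg (Disjoint (branch D σ z) A ∧ E (root D σ z))
      split_ifs <;> positivity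
    by_cases h1 : IsTree (branch (D \ A) σ z) σ
    · by_cases h2 : root (D \ A) σ z ∉ D ∧ E (root (D \ A) σ z)
      · have hex : Exits (D \ A) σ z (root (D \ A) σ z) := by
          have hz : z ∈ branch (D \ A) σ z ∨ z ∉ D \ A := by
            by_cases hz : z ∈ D \ A
            · exact Or.inl (self_mem_branch hz)
            · exact Or.inr hz
          have := closed_branch.exits (h1.exits z) hz
          rwa [this.root_eq]
        have hb : branch D σ z = branch (D \ A) σ z := by
          rw [hex.branch_eq Finset.sdiff_subset, branch_eq_empty h2.1, Finset.union_empty]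
        have hr : root D σ z = root (D \ A) σ z :=
          (hex.trans Finset.sdiff_subset (Exits.base h2.1)).root_eq
        have hdis : Disjoint (branch (D \ A) σ z) A :=
          Finset.disjoint_of_subset_left branch_subset Finset.sdiff_disjoint
        rw [hb, hr, if_pos h1, if_pos h1, ind_pos h2, ind_pos ⟨hdis, h2.2⟩, one_mul, one_mul,
          mul_comm, mul_comm (ZF V p (D \ A))]
        exact ZF_submod hp hD Finset.sdiff_subset _ branch_subset
      · rw [if_pos h1, ind_neg h2, zero_mul, mul_zero]; exact hnn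
    · rw [if_neg h1, mul_zero]; exact hnn
  exact goal

/-- The branch visits `A` and ends in `E` no more often than the walk does. -/
theorem visit_le (hp : Trans p) (hD : D ⊆ V) (A : Finset Pt) (E : Pt → Prop) (z : Pt) :
    Pr V p D (fun σ => (∃ y ∈ branch D σ z, y ∈ A) ∧ E (root D σ z)) ≤
      HE V p D (fun r => ind (r ∉ D ∧ E r)) z -
        HE V p (D \ A) (fun r => ind (r ∉ D ∧ E r)) z := by
  have h1 := avoid_le hp hD A E z
  have h2 : Pr V p D (fun σ => (∃ y ∈ branch D σ z, y ∈ A) ∧ E (root D σ z)) +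
      Pr V p D (fun σ => Disjoint (branch D σ z) A ∧ E (root D σ z)) =
      HE V p D (fun r => ind (r ∉ D ∧ E r)) z := by
    unfold Pr HE
    rw [← PE_add]
    refine PE_congr fun σ hσ => ?_
    have := (hσ.exits z).not_mem
    by_cases hE : E (root D σ z)
    · by_cases hd : Disjoint (branch D σ z) A
      · have : ¬ ∃ y ∈ branch D σ z, y ∈ A := fun ⟨y, h1, h2⟩ => Finset.disjoint_left.1 hd h1 h2
        simp [*]
      · have : ∃ y ∈ branch D σ z, y ∈ A := Finset.not_disjoint_iff.1 hd
        simp [*]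
    · simp [hE]
  linarith

theorem visit_le_HE (hp : Trans p) (hD : D ⊆ V) (A : Finset Pt) (z : Pt) :
    Pr V p D (fun σ => ∃ y ∈ branch D σ z, y ∈ A) ≤
      HE V p (D \ A) (fun r => ind (r ∈ D)) z := by
  have h1 := visit_le hp hD A (fun _ => True) z
  have h2 : HE V p D (fun r => ind (r ∉ D ∧ True)) z ≤ 1 :=
    HE_le hp (fun v _ => ind_le_one _) z
  have h3 : HE V p (D \ A) (fun r => ind (r ∈ D)) z +
      HE V p (D \ A) (fun r => ind (r ∉ D ∧ True)) z = 1 := by
    unfold HE
    rw [← PE_add, ← PE_const (V := V) (D := D \ A) hp 1]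
    refine PE_congr fun σ _ => ?_
    by_cases h : root (D \ A) σ z ∈ D <;> simp [h]
  simp only [and_true] at h1 h2 h3
  linarith

theorem visit_end_le (hp : Trans p) (hD : D ⊆ V) (A : Finset Pt) (E : Pt → Prop) (z : Pt)
    {m : ℝ} (hm : 0 ≤ m)
    (hA : ∀ y ∈ A, y ∈ D → HE V p D (fun r => ind (r ∉ D ∧ E r)) y ≤ m) :
    Pr V p D (fun σ => (∃ y ∈ branch D σ z, y ∈ A) ∧ E (root D σ z)) ≤ m := by
  refine (visit_le hp hD A E z).trans ?_
  have out : ∀ y, y ∉ D \ A → HE V p D (fun r => ind (r ∉ D ∧ E r)) y ≤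
      HE V p (D \ A) (fun r => ind (r ∉ D ∧ E r)) y + m := by
    intro y hy
    rw [HE_of_not_mem hp _ hy]
    by_cases h : y ∈ D
    · have h1 : y ∈ A := by
        by_contra h2
        exact hy (Finset.mem_sdiff.2 ⟨h, h2⟩)
      simpa [h] using hA y h1 h
    · rw [HE_of_not_mem hp _ h]; linarith
  have : HE V p D (fun r => ind (r ∉ D ∧ E r)) z ≤
      HE V p (D \ A) (fun r => ind (r ∉ D ∧ E r)) z + m := by
    by_cases hz : z ∈ D \ A
    · refine compare (U := D \ A) hp
        (w := fun y => HE V p (D \ A) (fun r => ind (r ∉ D ∧ E r)) y + m)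
        (fun v hv => ?_) (fun v _ i hi => out _ hi) z hz
      rw [avg_add, avg_const hp, ← HE_harmonic hp hD (Finset.mem_sdiff.1 hv).1,
        ← HE_harmonic hp (Finset.sdiff_subset.trans hD) hv]
      simp
    · exact out z hz
  linarith

end Pool.Agent.Lib.MP_60c5b4_pr
end

-- part Pool.Agent.Lib.MP_60c5b4_pr.Cross
section

/-!
Two lattice paths crossing a strip in the two directions meet (winding number argument).
-/

namespace Pool.Agent.Lib.MP_60c5b4_pr

open Finset

/-- Signed crossing of the ray to the right of the origin between rows `0` and `1`. -/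
def cr (d d' : Pt) : ℤ :=
  if d.2 = 0 ∧ d'.2 = 1 ∧ 1 ≤ d.1 then 1 else if d'.2 = 0 ∧ d.2 = 1 ∧ 1 ≤ d'.1 then -1 else 0

theorem cr_cell (d : Pt) (i j : Fin 3) (h1 : d ≠ 0) (h2 : d + dir i ≠ 0) (h3 : d - dir j ≠ 0)
    (h4 : d + dir i - dir j ≠ 0) :
    cr (d + dir i) (d + dir i - dir j) - cr d (d - dir j) =
      cr (d - dir j) (d + dir i - dir j) - cr d (d + dir i) := by
  obtain ⟨a, b⟩ := d
  simp only [ne_eq, Prod.ext_iff, not_and_or] at h1 h2 h3 h4
  fin_cases i <;> fin_cases j <;> simp [cr, dir] at h1 h2 h3 h4 ⊢ <;> split_ifs <;> omega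

/-- Winding of the path `q` around `v`. -/
def wind (q : ℕ → Pt) (n : ℕ) (v : Pt) : ℤ := ∑ t ∈ range n, cr (v - q t) (v - q (t + 1))

variable {q : ℕ → Pt} {n : ℕ}

theorem wind_step (hq : ∀ t < n, ∃ j, q (t + 1) = q t + dir j) (v : Pt) (i : Fin 3)
    (h1 : ∀ t ≤ n, q t ≠ v) (h2 : ∀ t ≤ n, q t ≠ v + dir i) :
    wind q n (v + dir i) - wind q n v =
      cr (v - q n) (v + dir i - q n) - cr (v - q 0) (v + dir i - q 0) := by
  unfold wind
  rw [← Finset.sum_sub_distrib, ← Finset.sum_range_sub (fun t => cr (v - q t) (v + dir i - q t))]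
  refine Finset.sum_congr rfl fun t ht => ?_
  have ht' := Finset.mem_range.1 ht
  obtain ⟨j, hj⟩ := hq t ht'
  have := cr_cell (v - q t) i j (sub_ne_zero.2 (h1 t ht'.le).symm)
    (by rw [sub_add_eq_add_sub]; exact sub_ne_zero.2 (h2 t ht'.le).symm)
    (by rw [sub_sub, ← hj]; exact sub_ne_zero.2 (h1 (t + 1) ht').symm)
    (by rw [sub_add_eq_add_sub, sub_sub, ← hj]; exact sub_ne_zero.2 (h2 (t + 1) ht').symm)
  rw [sub_add_eq_add_sub, sub_sub, sub_sub, ← hj] at this
  exact this

theorem wind_left (v : Pt) (h : ∀ t ≤ n, (q t).2 = v.2 → v.1 ≤ (q t).1) : wind q n v = 0 := by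
  refine Finset.sum_eq_zero fun t ht => ?_
  have ht' := Finset.mem_range.1 ht
  have h1 := h t ht'.le
  have h2 := h (t + 1) ht'
  simp only [cr, Prod.fst_sub, Prod.snd_sub]
  split_ifs <;> omega

theorem wind_right (hq : ∀ t < n, ∃ j, q (t + 1) = q t + dir j) (v : Pt)
    (h : ∀ t ≤ n, (q t).2 = v.2 → (q t).1 < v.1) (h0 : v.2 ≤ (q 0).2) (hn : (q n).2 < v.2) :
    wind q n v = 1 := by
  have : wind q n v = ∑ t ∈ range n, ((if (q (t + 1)).2 < v.2 then (1 : ℤ) else 0) -
      if (q t).2 < v.2 then (1 : ℤ) else 0) := by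
    refine Finset.sum_congr rfl fun t ht => ?_
    have ht' := Finset.mem_range.1 ht
    have h1 := h t ht'.le
    have h2 := h (t + 1) ht'
    obtain ⟨j, hj⟩ := hq t ht'
    have h3 : (q (t + 1)).2 ≤ (q t).2 + 1 ∧ (q t).2 ≤ (q (t + 1)).2 + 1 := by
      rw [hj]; fin_cases j <;> simp [dir] <;> omega
    simp only [cr, Prod.fst_sub, Prod.snd_sub]
    split_ifs <;> omega
  rw [this, Finset.sum_range_sub (fun t => if (q t).2 < v.2 then (1 : ℤ) else 0)]
  rw [if_pos hn, if_neg (by omega)]; rfl

theorem wind_step_eq (hq : ∀ t < n, ∃ j, q (t + 1) = q t + dir j) (v : Pt) (i : Fin 3)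
    (h1 : ∀ t ≤ n, q t ≠ v) (h2 : ∀ t ≤ n, q t ≠ v + dir i)
    (h0 : v.2 < (q 0).2) (hn : (q n).2 < v.2) (hn' : (q n).2 < (v + dir i).2) :
    wind q n (v + dir i) = wind q n v := by
  have := wind_step hq v i h1 h2
  have e1 : cr (v - q n) (v + dir i - q n) = 0 := by
    simp only [cr, Prod.fst_sub, Prod.snd_sub]
    split_ifs <;> omega
  have e2 : cr (v - q 0) (v + dir i - q 0) = 0 := by
    simp only [cr, Prod.fst_sub, Prod.snd_sub]
    split_ifs <;> omega
  omega

end Pool.Agent.Lib.MP_60c5b4_pr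
end
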