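import Mathlib

/-!
Definitions for MP_60c5b4_pr: weighted oriented spanning trees on the directed triangular
lattice and their encodings as points of Schramm type spaces.
-/

namespace Pool.Agent.Lib.MP_60c5b4_pr

open TopologicalSpace MeasureTheory Filter Topology

/-- Lattice points: `(a, b)` stands for `δ (a + b τ)`. -/
abbrev Pt := ℤ × ℤ

/-- A choice of one outgoing direction at each lattice point. -/
abbrev Cfg := Pt → Fin 3

/-- `τ = exp (2 π i / 3)`. -/
noncomputable def tau : ℂ := Complex.exp (2 * Real.pi * Complex.I / 3)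

/-- The directions `1, τ, τ ^ 2 = -1 - τ` in lattice coordinates. -/
def dir : Fin 3 → Pt := ![(1, 0), (0, 1), (-1, -1)]

/-- Position in the plane of a lattice point at mesh `δ`. -/
noncomputable def pos (δ : ℝ) (v : Pt) : ℂ := (δ : ℂ) * ((v.1 : ℂ) + (v.2 : ℂ) * tau)

/-- Head of the edge chosen at `v`. -/
def next (σ : Cfg) (v : Pt) : Pt := v + dir (σ v)

/-- A choice of directions on `V`, extended by a dummy value (never used) off `V`. -/
def ext (V : Finset Pt) (σ : V → Fin 3) : Cfg :=
  fun v => if h : v ∈ V then σ ⟨v, h⟩ else 0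

/-- The chosen edges out of the vertices of `V` form a spanning tree oriented toward the outer
vertex (all lattice points off `V` merged): from every vertex one eventually leaves `V`. -/
def IsTree (V : Finset Pt) (σ : Cfg) : Prop :=
  ∀ v ∈ V, ∃ n : ℕ, (next σ)^[n] v ∉ V

open Classical in
/-- Vertices of `V` on the branch from `a` to the outer vertex. -/
noncomputable def branch (V : Finset Pt) (σ : Cfg) (a : Pt) : Finset Pt :=
  V.filter fun v => ∃ n : ℕ, (next σ)^[n] a = v ∧ ∀ m ≤ n, (next σ)^[m] a ∈ V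

/-- Weight of a tree: product of the edge weights `1 + c_i δ`. -/
noncomputable def weight (c : ℂ → Fin 3 → ℝ) (δ : ℝ) (V : Finset Pt) (σ : Cfg) : ℝ :=
  ∏ v ∈ V, (1 + c (pos δ v) (σ v) * δ)

open Classical in
/-- Expectation of `F` for the tree sampled proportionally to its weight. -/
noncomputable def treeMean (c : ℂ → Fin 3 → ℝ) (δ : ℝ) (V : Finset Pt) (F : Cfg → ℝ) : ℝ :=
  (∑ σ : V → Fin 3, if IsTree V (ext V σ) then weight c δ V (ext V σ) * F (ext V σ) else 0) /
    ∑ σ : V → Fin 3, if IsTree V (ext V σ) then weight c δ V (ext V σ) else 0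

/-- The points `a`, `b` together with the closed segments of the edges out of the vertices in
`E`, as a nonempty compact subset of the plane. -/
noncomputable def trace (δ : ℝ) (σ : Cfg) (a b : Pt) (E : Finset Pt) : NonemptyCompacts ℂ :=
  ⟨⟨{pos δ a, pos δ b} ∪ ⋃ v ∈ E, segment ℝ (pos δ v) (pos δ (next σ v)),
    (Set.toFinite _).isCompact.union (E.isCompact_biUnion fun _ _ => by
      rw [segment_eq_image]
      exact isCompact_Icc.image (by fun_prop))⟩, ⟨pos δ a, Or.inl (Or.inl rfl)⟩⟩

/-- Schramm's space: nonempty compact sets of triples (point, point, compact set), with the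
Hausdorff metrics. -/
abbrev SchrammSpace := NonemptyCompacts (ℂ × ℂ × NonemptyCompacts ℂ)

/-- Space of nonempty compact sets of pairs (point, compact set), with the Hausdorff metrics. -/
abbrev BranchSpace := NonemptyCompacts (ℂ × NonemptyCompacts ℂ)

open Classical in
/-- Schramm's encoding of the tree: the triples `(a, b, ω)` with `a, b ∈ V` and `ω` the trace
of the tree path from `a` to `b` (its edges start at the vertices lying on exactly one of the
two branches). If `wired` holds all pairs are used (the path may pass through the outer vertex);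
otherwise only `a = b` and the pairs whose branches merge inside `V`. -/
noncomputable def schramm (wired : Prop) (δ : ℝ) (V : Finset Pt) (hV : V.Nonempty) (σ : Cfg) :
    SchrammSpace :=
  ⟨⟨(fun x : Pt × Pt => (pos δ x.1, pos δ x.2,
      trace δ σ x.1 x.2 (symmDiff (branch V σ x.1) (branch V σ x.2)))) ''
      ↑((V ×ˢ V).filter fun x =>
        wired ∨ x.1 = x.2 ∨ ¬ Disjoint (branch V σ x.1) (branch V σ x.2)),
    ((Finset.finite_toSet _).image _).isCompact⟩,
    ⟨_, (hV.choose, hV.choose), Finset.mem_coe.2 (Finset.mem_filter.2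
      ⟨Finset.mem_product.2 ⟨hV.choose_spec, hV.choose_spec⟩, Or.inr (Or.inl rfl)⟩), rfl⟩⟩

/-- Encoding of the tree by its branches: all pairs `(a, γ)` with `a ∈ V` and `γ` the trace of
the branch from `a` to the outer vertex. -/
noncomputable def branches (δ : ℝ) (V : Finset Pt) (hV : V.Nonempty) (σ : Cfg) : BranchSpace :=
  ⟨⟨(fun a : Pt => (pos δ a, trace δ σ a a (branch V σ a))) '' ↑V,
    (V.finite_toSet.image _).isCompact⟩, hV.to_set.image _⟩

/-- Meshes `δ n → 0` and finite vertex sets `V n` inside `Ω` that eventually contain all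
lattice points of any given compact subset of `Ω`. -/
def Approximates (Ω : Set ℂ) (δ : ℕ → ℝ) (V : ℕ → Finset Pt) : Prop :=
  (∀ n, 0 < δ n) ∧ Tendsto δ atTop (𝓝 0) ∧ (∀ n, ∀ v ∈ V n, pos (δ n) v ∈ Ω) ∧
    ∀ K : Set ℂ, IsCompact K → K ⊆ Ω → ∀ᶠ n in atTop, ∀ v : Pt, pos (δ n) v ∈ K → v ∈ V n

/-- The encoded weighted trees `T n` converge in law to `μ`. -/
def LawLimit {X : Type} [TopologicalSpace X] [MeasurableSpace X] (c : ℂ → Fin 3 → ℝ)
    (δ : ℕ → ℝ) (V : ℕ → Finset Pt) (T : ℕ → Cfg → X) (μ : Measure X) : Prop :=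
  IsProbabilityMeasure μ ∧ ∀ f : BoundedContinuousFunction X ℝ,
    Tendsto (fun n => treeMean c (δ n) (V n) fun σ => f (T n σ)) atTop (𝓝 (∫ x, f x ∂μ))

/-- `S n` encodes the trees with weights `c` on `V n`, and `S' n` the uniform trees on `V' n`.
First part: limits in law of the two sequences are mutually singular, in `X` itself (take `π`
the identity and `T = S`, `T' = S'`) and in any space `Y` of finer encodings that maps
continuously to `X` up to a vanishing error. Second part: limits in law in `X` exist along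
subsequences. -/
def SingularLimits {X : Type} [MetricSpace X] (c : ℂ → Fin 3 → ℝ) (δ δ' : ℕ → ℝ)
    (V V' : ℕ → Finset Pt) (S S' : ℕ → Cfg → X) : Prop :=
  (∀ (Y : Type) [TopologicalSpace Y] [MeasurableSpace Y] [BorelSpace Y] (π : Y → X)
    (T T' : ℕ → Cfg → Y) (ε : ℕ → ℝ), Continuous π → Tendsto ε atTop (𝓝 0) →
    (∀ n σ, IsTree (V n) σ → dist (π (T n σ)) (S n σ) ≤ ε n) →
    (∀ n σ, IsTree (V' n) σ → dist (π (T' n σ)) (S' n σ) ≤ ε n) →
    ∀ μ ν : Measure Y, LawLimit c δ V T μ → LawLimit (fun _ _ => 0) δ' V' T' ν →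
      μ.MutuallySingular ν ∧ ¬ μ.AbsolutelyContinuous ν) ∧
  ∀ [MeasurableSpace X] [BorelSpace X],
    (∃ (φ : ℕ → ℕ) (μ : Measure X), StrictMono φ ∧ LawLimit c (δ ∘ φ) (V ∘ φ) (S ∘ φ) μ) ∧
    ∃ (φ : ℕ → ℕ) (ν : Measure X), StrictMono φ ∧
      LawLimit (fun _ _ => 0) (δ' ∘ φ) (V' ∘ φ) (S' ∘ φ) ν

end Pool.Agent.Lib.MP_60c5b4_pr
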