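import Pool.Agent.Lib.MP_60c5b4_pr.Core

/-!
From the discrete test to mutual singularity of the scaling limits.
-/

namespace Pool.Agent.Lib.MP_60c5b4_pr

open Finset Classical MeasureTheory Filter Topology TopologicalSpace

/-- Transition probabilities of the weighted walk. -/
noncomputable def prob (c : ℂ → Fin 3 → ℝ) (δ : ℝ) (V : Finset Pt) : Pt → Fin 3 → ℝ :=
  fun v i => if v ∈ V then (1 + c (pos δ v) i * δ) / 3 else 1 / 3

theorem treeMean_eq (c : ℂ → Fin 3 → ℝ) (δ : ℝ) (V : Finset Pt) (F : Cfg → ℝ) :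
    treeMean c δ V F = PE V (prob c δ V) V F := by
  have h : ∀ σ : V → Fin 3,
      weight c δ V (ext V σ) = 3 ^ V.card * ∏ v : V, prob c δ V v (σ v) := by
    intro σ
    rw [weight, ← Finset.prod_coe_sort, ← Fintype.card_coe V, ← Finset.card_univ,
      ← Finset.prod_const, ← Finset.prod_mul_distrib]
    refine Finset.prod_congr rfl fun v _ => ?_
    simp only [prob, ext, v.2, dif_pos, if_true]
    ring
  have h1 : ∀ G : Cfg → ℝ, (∑ σ : V → Fin 3,
      if IsTree V (ext V σ) then weight c δ V (ext V σ) * G (ext V σ) else 0) =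
      3 ^ V.card * EF V (prob c δ V) V G := by
    intro G
    simp only [EF, Ex, Finset.mul_sum, h]
    refine Finset.sum_congr rfl fun σ _ => ?_
    split_ifs <;> ring
  have h2 := h1 fun _ => 1
  simp only [mul_one] at h2
  unfold treeMean PE ZF
  rw [h1, h2, mul_div_mul_left _ _ (by positivity)]

theorem tau_sq : tau ^ 2 = -1 - tau := by
  have := sqrt3_sq
  apply Complex.ext
  · simp only [sq, Complex.mul_re, tau_re, tau_im, Complex.sub_re, Complex.neg_re,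
      Complex.one_re]
    nlinarith
  · simp only [sq, Complex.mul_im, tau_re, tau_im, Complex.sub_im, Complex.neg_im,
      Complex.one_im]
    ring

theorem coef_bound {c0 c1 c2 : ℝ} {w : ℂ} (hs : c0 + c1 + c2 = 0)
    (hw : w = (c0 + c1 * tau + c2 * tau ^ 2) / 3) :
    |c0| ≤ 2 * ‖w‖ ∧ |c1| ≤ 2 * ‖w‖ ∧ |c2| ≤ 2 * ‖w‖ := by
  have h3 := sqrt3_sq
  have hre : w.re = (c0 - c1 / 2 - c2 / 2) / 3 := by
    rw [hw, tau_sq]; simp [tau_re]; ring
  have him : w.im = (c1 - c2) * √3 / 6 := by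
    rw [hw, tau_sq]; simp [tau_im]; ring
  have hn : ‖w‖ ^ 2 = (c1 ^ 2 + c1 * c2 + c2 ^ 2) / 3 := by
    rw [Complex.sq_norm, Complex.normSq_apply, hre, him, show c0 = -c1 - c2 by linarith]
    linear_combination ((c1 - c2) ^ 2 / 36) * h3
  have h0 : 0 ≤ 2 * ‖w‖ := by positivity
  refine ⟨abs_le_of_sq_le_sq ?_ h0, abs_le_of_sq_le_sq ?_ h0, abs_le_of_sq_le_sq ?_ h0⟩
  · rw [show c0 = -c1 - c2 by linarith]; nlinarith [sq_nonneg (c1 - c2)]
  · nlinarith [sq_nonneg (c1 + 2 * c2)]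
  · nlinarith [sq_nonneg (c2 + 2 * c1)]

theorem avg_psi {c : ℂ → Fin 3 → ℝ} {δ : ℝ} {V : Finset Pt} {v : Pt} (hv : v ∈ V) (d w : ℂ)
    (hs : c (pos δ v) 0 + c (pos δ v) 1 + c (pos δ v) 2 = 0)
    (hw : w = (c (pos δ v) 0 + c (pos δ v) 1 * tau + c (pos δ v) 2 * tau ^ 2) / 3) :
    avg (prob c δ V) (psi δ d) v = psi δ d v + ((starRingEnd ℂ) d * w).re * δ ^ 2 := by
  obtain ⟨r0, r1, r2⟩ := pos_dir_re δ
  obtain ⟨i0, i1, i2⟩ := pos_dir_im δ
  have hre : w.re = (c (pos δ v) 0 - c (pos δ v) 1 / 2 - c (pos δ v) 2 / 2) / 3 := by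
    rw [hw, tau_sq]; simp [tau_re]; ring
  have him : w.im = (c (pos δ v) 1 - c (pos δ v) 2) * √3 / 6 := by
    rw [hw, tau_sq]; simp [tau_im]; ring
  simp only [avg, Fin.sum_univ_three, prob, hv, if_true, psi, pos_add, Complex.mul_re,
    Complex.add_re, Complex.add_im, r0, r1, r2, i0, i1, i2, hre, him]
  rw [show c (pos δ v) 0 = -c (pos δ v) 1 - c (pos δ v) 2 by linarith]
  ring

theorem nice_prob {c : ℂ → Fin 3 → ℝ} {δ M : ℝ} {V : Finset Pt} (hδ : 0 < δ) (hM : 1 ≤ M)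
    (hMδ : M * δ ≤ 1 / 4) (hs : ∀ v ∈ V, c (pos δ v) 0 + c (pos δ v) 1 + c (pos δ v) 2 = 0)
    (hb : ∀ v ∈ V, ∀ i, |c (pos δ v) i| ≤ 2 * M) : Nice (prob c δ V) δ M := by
  have hn : Near (prob c δ V) (M * δ) := by
    intro v i
    unfold prob
    split_ifs with h
    · have := mul_le_mul_of_nonneg_right (hb v h i) hδ.le
      rw [show (1 + c (pos δ v) i * δ) / 3 - 1 / 3 = c (pos δ v) i * δ / 3 by ring, abs_div,
        abs_mul, abs_of_pos hδ, abs_of_pos (by norm_num : (0 : ℝ) < 3)]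
      nlinarith
    · simp; positivity
  refine ⟨⟨fun v i => ?_, fun v => ?_⟩, hn, hδ, hM⟩
  · have := (abs_le.1 (hn v i)).1; linarith
  · rw [Fin.sum_univ_three]
    unfold prob
    split_ifs with h
    · linear_combination (δ / 3) * hs v h
    · norm_num

theorem singular_of_tests {X : Type} [TopologicalSpace X] [MeasurableSpace X] [BorelSpace X]
    {μ ν : Measure X} [IsProbabilityMeasure μ] [IsProbabilityMeasure ν]
    (h : ∀ η > 0, ∃ f : BoundedContinuousFunction X ℝ, (∀ x, 0 ≤ f x ∧ f x ≤ 1) ∧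
      1 - η ≤ ∫ x, f x ∂μ ∧ ∫ x, f x ∂ν ≤ η) : μ ⟂ₘ ν := by
  choose f hf h1 h2 using fun n : ℕ => h ((1 / 2) ^ n) (by positivity)
  have hsum : ∀ (m : Measure X) [IsProbabilityMeasure m] (s : ℕ → Set X),
      (∀ n, 1 / 2 * m.real (s n) ≤ (1 / 2) ^ n) → m (limsup s atTop) = 0 := by
    intro m _ s hs
    refine measure_limsup_atTop_eq_zero (ne_top_of_le_ne_top
      ((summable_geometric_two.mul_left 2).tsum_ofReal_ne_top) (ENNReal.tsum_le_tsum fun n => ?_))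
    rw [← ofReal_measureReal]
    exact ENNReal.ofReal_le_ofReal (by have := hs n; linarith)
  refine Measure.MutuallySingular.mk
    (hsum μ (fun n => {x | 1 / 2 ≤ 1 - f n x}) fun n => ?_)
    (hsum ν (fun n => {x | 1 / 2 ≤ f n x}) fun n => ?_) fun x _ => ?_
  · have := mul_meas_ge_le_integral_of_nonneg (μ := μ) (f := fun x => 1 - f n x)
      (Eventually.of_forall fun x => sub_nonneg.2 (hf n x).2)
      ((integrable_const 1).sub ((f n).integrable μ)) (1 / 2)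
    rw [integral_sub (integrable_const 1) ((f n).integrable μ)] at this
    simp only [integral_const, probReal_univ, smul_eq_mul, mul_one] at this
    linarith [h1 n]
  · exact (mul_meas_ge_le_integral_of_nonneg (μ := ν) (f := fun x => f n x)
      (Eventually.of_forall fun x => (hf n x).1) ((f n).integrable ν) (1 / 2)).trans (h2 n)
  · simp only [Set.mem_union, mem_limsup_iff_frequently_mem, Set.mem_ofPred_eq]
    rw [← frequently_or_distrib]
    exact Frequently.of_forall fun n => by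
      rcases le_total (1 / 2) (f n x) with h | h
      · exact Or.inr h
      · exact Or.inl (by linarith)

theorem test_of_sep {X Y : Type} [MetricSpace X] [TopologicalSpace Y] [MeasurableSpace Y]
    {π : Y → X} (hπ : Continuous π) {c c' : ℂ → Fin 3 → ℝ}
    {δ δ' : ℕ → ℝ} {V V' : ℕ → Finset Pt} {T T' : ℕ → Cfg → Y} {μ ν : Measure Y}
    (hμ : LawLimit c δ V T μ) (hν : LawLimit c' δ' V' T' ν) {η e : ℝ} (he : 0 < e)
    {A A' : ℕ → Cfg → Prop}
    (h1 : ∀ᶠ n in atTop, Trans (prob c (δ n) (V n)) ∧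
      Pr (V n) (prob c (δ n) (V n)) (V n) (fun σ => ¬ A n σ) ≤ η)
    (h2 : ∃ᶠ n in atTop, Trans (prob c' (δ' n) (V' n)) ∧
      Pr (V' n) (prob c' (δ' n) (V' n)) (V' n) (fun σ => ¬ A' n σ) ≤ η)
    (hsep : ∀ n n' σ σ', A n σ → A' n' σ' → e ≤ dist (π (T n σ)) (π (T' n' σ'))) :
    ∃ f : BoundedContinuousFunction Y ℝ, (∀ x, 0 ≤ f x ∧ f x ≤ 1) ∧
      1 - η ≤ ∫ x, f x ∂μ ∧ ∫ x, f x ∂ν ≤ η := by
  let F : Set X := {x | ∃ n σ, A n σ ∧ π (T n σ) = x}
  let f : BoundedContinuousFunction Y ℝ :=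
    ((thickenedIndicator he F).comp NNReal.toReal NNReal.isometry_coe.lipschitz).compContinuous
      ⟨π, hπ⟩
  have hf : ∀ x, f x = (thickenedIndicator he F (π x) : ℝ) := fun x => rfl
  have hb : ∀ x, 0 ≤ f x ∧ f x ≤ 1 := fun x => by
    rw [hf]
    exact ⟨NNReal.coe_nonneg _, by exact_mod_cast thickenedIndicator_le_one he F (π x)⟩
  refine ⟨f, hb, ge_of_tendsto (hμ.2 f) (h1.mono fun n ⟨hp, hn⟩ => ?_),
    isClosed_Iic.mem_of_frequently_of_tendsto (h2.mono fun n ⟨hp, hn⟩ => ?_) (hν.2 f)⟩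
  · rw [treeMean_eq]
    have := Pr_not (V := V n) (D := V n) hp (A n)
    refine le_trans (by linarith : 1 - η ≤ Pr (V n) (prob c (δ n) (V n)) (V n) (A n))
      (PE_mono hp fun σ _ => ?_)
    by_cases h : A n σ
    · rw [ind_pos h, hf, thickenedIndicator_one he F ⟨n, σ, h, rfl⟩]; simp
    · rw [ind_neg h]; exact (hb _).1
  · rw [Set.mem_Iic, treeMean_eq]
    refine le_trans (PE_mono hp fun σ _ => ?_) hn
    by_cases h : A' n σ
    · rw [hf, thickenedIndicator_zero he F]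
      · exact ind_nonneg _
      · rw [Metric.mem_thickening_iff]
        rintro ⟨_, ⟨n', σ', h', rfl⟩, h3⟩
        exact absurd (hsep n' n σ' σ h' h) (not_le.2 (by rwa [dist_comm]))
    · rw [ind_pos h]; exact (hb _).2

/-- Closeness of the encodings gives local closeness of branches. -/
def Transfer {X : Type} [MetricSpace X] (δ δ' : ℝ) (V V' : Finset Pt) (T T' : Cfg → X) : Prop :=
  ∀ σ σ' e, dist (T σ) (T' σ') < e → ∀ a ∈ V, ∀ b ∈ V,
    ¬ Disjoint (branch V σ a) (branch V σ b) → ∃ a' ∈ V', ∃ b' ∈ V',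
    dist (pos δ a) (pos δ' a') < e ∧ dist (pos δ b) (pos δ' b') < e ∧
    ∀ z0 R, (∀ y ∈ branch V σ b, R + (e + δ + δ') < dist (pos δ y) z0) →
      (∀ y ∈ branch V' σ' b', R + (e + δ + δ') < dist (pos δ' y) z0) →
      Loc δ δ' z0 R (e + δ + δ') (branch V σ a) (branch V' σ' a')

theorem singular_of_transfer {X Y : Type} [MetricSpace X] [TopologicalSpace Y]
    [MeasurableSpace Y] [BorelSpace Y]
    {Ω : Set ℂ} (hΩ : IsOpen Ω) (hΩb : Bornology.IsBounded Ω) {Δ : ℂ → ℂ}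
    (hΔ : ContinuousOn Δ Ω) (hΔb : ∃ M, ∀ z ∈ Ω, ‖Δ z‖ ≤ M) (hΔ0 : ∃ z ∈ Ω, Δ z ≠ 0)
    {c : ℂ → Fin 3 → ℝ} (hc : ∀ z ∈ Ω, c z 0 + c z 1 + c z 2 = 0 ∧
      Δ z = (c z 0 + c z 1 * tau + c z 2 * tau ^ 2) / 3)
    {δ δ' : ℕ → ℝ} {V V' : ℕ → Finset Pt} (hA : Approximates Ω δ V) (hA' : Approximates Ω δ' V')
    {S S' : ℕ → Cfg → X} (hT : ∀ n n', Transfer (δ n) (δ' n') (V n) (V' n') (S n) (S' n'))
    {π : Y → X} (hπ : Continuous π) {T T' : ℕ → Cfg → Y} {ε0 : ℕ → ℝ}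
    (hε0 : Tendsto ε0 atTop (𝓝 0))
    (hTS : ∀ n σ, IsTree (V n) σ → dist (π (T n σ)) (S n σ) ≤ ε0 n)
    (hTS' : ∀ n σ, IsTree (V' n) σ → dist (π (T' n σ)) (S' n σ) ≤ ε0 n)
    {μ ν : Measure Y} (hμ : LawLimit c δ V T μ) (hν : LawLimit (fun _ _ => 0) δ' V' T' ν) :
    μ ⟂ₘ ν := by
  have := hμ.1
  have := hν.1
  obtain ⟨M0, hM0⟩ := hΔb
  obtain ⟨z0, hz0, hd⟩ := hΔ0
  set M := max 1 M0 with hMdef
  have hM : 1 ≤ M := le_max_left _ _
  set d := Δ z0 with hddef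
  have hκ : 0 < ‖d‖ ^ 2 / 2 := by have := norm_pos_iff.2 hd; positivity
  obtain ⟨r0, hr0, hK, hdr⟩ : ∃ r0 > 0, Metric.closedBall z0 (3 * r0) ⊆ Ω ∧
      ∀ x, dist x z0 ≤ r0 → ‖d‖ ^ 2 / 2 ≤ ((starRingEnd ℂ) d * Δ x).re := by
    have h1 : ContinuousAt (fun x => ((starRingEnd ℂ) d * Δ x).re) z0 :=
      Complex.continuous_re.continuousAt.comp
        (continuousAt_const.mul (hΔ.continuousAt (hΩ.mem_nhds hz0)))
    have h2 : ‖d‖ ^ 2 / 2 < ((starRingEnd ℂ) d * Δ z0).re := by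
      rw [← hddef, Complex.conj_mul']
      norm_cast
      linarith
    obtain ⟨ε, hε, h3⟩ := Metric.eventually_nhds_iff.1
      ((h1.eventually (lt_mem_nhds h2)).and (hΩ.mem_nhds hz0))
    refine ⟨ε / 4, by positivity, fun x hx => (h3 ?_).2, fun x hx => (h3 (by linarith)).1.le⟩
    rw [Metric.mem_closedBall] at hx; linarith
  obtain ⟨B0, hB0⟩ := hΩb.subset_closedBall z0
  set B := max B0 r0 with hBdef
  have hB1 : r0 ≤ B := le_max_right _ _
  have hB2 : ∀ x ∈ Ω, dist x z0 ≤ B := fun x hx => (hB0 hx).trans (le_max_left _ _)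
  refine singular_of_tests fun η3 hη3 => ?_
  obtain ⟨η, hη, rfl⟩ : ∃ η > 0, η3 = 3 * η := ⟨η3 / 3, by positivity, by ring⟩
  obtain ⟨R0, hR0, R01, R02⟩ : ∃ R0 > 0, R0 ≤ r0 ∧ M * R0 ≤ 1 / 480 := by
    refine ⟨min r0 (1 / (480 * M)), by positivity, min_le_left _ _, ?_⟩
    have := min_le_right r0 (1 / (480 * M))
    rw [le_div_iff₀ (by positivity)] at this; linarith
  obtain ⟨s0, hs0, δk, hδk, hcomp⟩ := merge_est (B := 2 * B) hM (by linarith) hR0 R02 hη
  obtain ⟨q, hq, q1, q2⟩ : ∃ q > 0, q ≤ r0 ∧ 4 * q ≤ s0 :=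
    ⟨min r0 (s0 / 4), by positivity, min_le_left _ _, by
      have := min_le_right r0 (s0 / 4); linarith⟩
  obtain ⟨ε, hε, δl, hδl, hlog⟩ := log_est hM (show 0 < B by linarith) hq hη
  obtain ⟨r, hr, r1, r2, r3⟩ : ∃ r > 0, 5 * r ≤ ε ∧ 5 * r ≤ q ∧ M * r ≤ 1 / 2000 := by
    refine ⟨min (ε / 5) (min (q / 5) (1 / (2000 * M))), by positivity, ?_, ?_, ?_⟩
    · have := min_le_left (ε / 5) (min (q / 5) (1 / (2000 * M))); linarith
    · have := (min_le_right (ε / 5) _).trans (min_le_left (q / 5) (1 / (2000 * M))); linarith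
    · have := (min_le_right (ε / 5) _).trans (min_le_right (q / 5) (1 / (2000 * M)))
      rw [le_div_iff₀ (by positivity)] at this; linarith
  obtain ⟨N, z, e, δ0, Θ, G, G', he, hδ0, hΘ, hz, cA, cB, cC⟩ :=
    core z0 d hM hr (show 4 * r ≤ B by linarith) hη hκ
  set R := min (e / 3) r with hR
  have R1 : R ≤ e / 3 := min_le_left _ _
  have R2 : R ≤ r := min_le_right _ _
  obtain ⟨s, hs, δm, hδm, hmerge⟩ := merge_est (B := 2 * B) (R := R) (η := η / (N + 1)) hM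
    (by linarith) (by positivity)
    (by have := mul_le_mul_of_nonneg_left R2 (zero_le_one.trans hM); linarith) (by positivity)
  obtain ⟨t, ht, t1, t2, t3, t4, t5, t6, t7, t8⟩ : ∃ t > 0, t ≤ δl ∧ t ≤ δ0 ∧ t ≤ δm ∧
      6 * t ≤ e ∧ 3 * t ≤ s ∧ 6 * t ≤ r ∧ t ≤ 1 ∧ t ≤ δk := by
    obtain ⟨t, ht, h⟩ := exists_pos_le
      (fun k => [δl, δ0, δm, e / 6, s / 3, r / 6, 1, δk].getD k 1) (fun k => by
        rcases k with _ | _ | _ | _ | _ | _ | _ | _ | k <;> simp <;> positivity) 8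
    have h0 := h 0 (by norm_num)
    have h1 := h 1 (by norm_num)
    have h2 := h 2 (by norm_num)
    have h3 := h 3 (by norm_num)
    have h4 := h 4 (by norm_num)
    have h5 := h 5 (by norm_num)
    have h6 := h 6 (by norm_num)
    have h7 := h 7 (by norm_num)
    simp at h0 h1 h2 h3 h4 h5 h6 h7
    exact ⟨t, ht, h0, h1, h2, by linarith, by linarith, by linarith, h6, h7⟩
  set b0 : ℂ := z0 + (2 * q : ℝ) with hb0
  have hb0d : dist b0 z0 = 2 * q := by
    rw [hb0, dist_eq_norm, add_sub_cancel_left, Complex.norm_real, Real.norm_eq_abs,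
      abs_of_pos (by positivity)]
  have hbn : ∀ x : ℝ, 0 < x → x ≤ t → dist (pos x (nr x b0)) z0 ≤ 2 * q + t ∧
      2 * q - t ≤ dist (pos x (nr x b0)) z0 := fun x hx hxt => by
    have h1 := dist_nr hx b0
    have h2 := dist_triangle (pos x (nr x b0)) b0 z0
    have h3 := dist_triangle_left b0 z0 (pos x (nr x b0))
    constructor <;> linarith
  have henv : ∀ {c : ℂ → Fin 3 → ℝ} {δ : ℕ → ℝ} {V : ℕ → Finset Pt}, Approximates Ω δ V →
      (∀ x ∈ Ω, c x 0 + c x 1 + c x 2 = 0 ∧ ∀ i, |c x i| ≤ 2 * M) →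
      ∀ᶠ n in atTop, δ n ≤ t ∧ (∀ v, dist (pos (δ n) v) z0 ≤ 3 * r0 → v ∈ V n) ∧
        Env (prob c (δ n) (V n)) (δ n) M B (V n) z0 r := by
    intro c δ V ⟨a1, a2, a3, a4⟩ hcb
    filter_upwards [a2.eventually_le_const ht, a4 _ (isCompact_closedBall _ _) hK] with n b1 b2
    refine ⟨b1, b2, nice_prob (a1 n) hM ?_ (fun v hv => (hcb _ (a3 n v hv)).1)
      fun v hv => (hcb _ (a3 n v hv)).2, fun v hv => b2 v ?_, fun v hv => hB2 _ (a3 n v hv), r3,
      by linarith, by linarith, by linarith⟩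
    · have := mul_le_mul_of_nonneg_left (show δ n ≤ r by linarith) (zero_le_one.trans hM)
      linarith
    · rw [Metric.mem_closedBall]; linarith
  have e1 := henv (c := c) hA fun x hx => ⟨(hc x hx).1, fun i => by
    obtain ⟨u0, u1, u2⟩ := coef_bound (hc x hx).1 (hc x hx).2
    have := (hM0 x hx).trans (le_max_right 1 M0)
    fin_cases i <;> simp <;> linarith⟩
  have e2 := henv (c := fun _ _ => 0) hA' fun x _ => ⟨by simp, fun i => by simp; linarith⟩
  have havoid : ∀ x ≤ t, ∀ p V, Env p x M B V z0 r → Pr V p V (fun σ =>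
      ∃ y ∈ branch V σ (nr x b0), dist (pos x y) z0 ≤ ε) ≤ η := fun x hx p V hE =>
    hlog x (hx.trans t1) p hE.nice V z0 hE.diam _ (by
      have := (hbn x hE.nice.pos hx).2; linarith)
  obtain ⟨th, hth, hfreq⟩ : ∃ th ∈ Θ, ∃ᶠ n in atTop, Pr (V' n)
      (prob (fun _ _ => 0) (δ' n) (V' n)) (V' n) (fun σ => ¬ G' th (δ' n) (V' n) σ) ≤ η := by
    by_contra h
    push Not at h
    obtain ⟨n, h1, h2⟩ := (((eventually_all_finite hΘ).2 h).and e2).exists
    obtain ⟨th, h3, h4⟩ := cB (δ' n) (h2.1.trans t2) _ _ h2.2.2 fun v hv => by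
      rw [avg_psi hv d 0 (by simp) (by simp)]; simp
    exact absurd h4 (not_le.2 (h1 th h3))
  let Mg : ℕ → Cfg → Pt → Prop := fun n σ x => ∃ a, dist (pos (δ' n) a) (pos (δ' n) x) ≤ s ∧
    ∃ y ∈ symmDiff (branch (V' n) σ a) (branch (V' n) σ x),
      R < dist (pos (δ' n) y) (pos (δ' n) x)
  have e0 := hε0.eventually_le_const (show 0 < t / 3 by positivity)
  refine test_of_sep hπ hμ hν (show 0 < t / 3 by positivity)
    (A := fun n σ => ((δ n ≤ t ∧ (∀ v, dist (pos (δ n) v) z0 ≤ 3 * r0 → v ∈ V n) ∧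
      Env (prob c (δ n) (V n)) (δ n) M B (V n) z0 r) ∧ ε0 n ≤ t / 3) ∧ IsTree (V n) σ ∧
      G th (δ n) (V n) σ ∧
      (¬ ∃ y ∈ branch (V n) σ (nr (δ n) b0), dist (pos (δ n) y) z0 ≤ ε) ∧
      ¬ ∃ a, dist (pos (δ n) a) (pos (δ n) (nr (δ n) z0)) ≤ s0 ∧
        ∃ y ∈ symmDiff (branch (V n) σ a) (branch (V n) σ (nr (δ n) z0)),
          R0 < dist (pos (δ n) y) (pos (δ n) (nr (δ n) z0)))
    (A' := fun n σ => (δ' n ≤ t ∧ ε0 n ≤ t / 3 ∧
      Env (prob (fun _ _ => 0) (δ' n) (V' n)) (δ' n) M B (V' n) z0 r)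
      ∧ IsTree (V' n) σ ∧ G' th (δ' n) (V' n) σ ∧
      (¬ ∃ y ∈ branch (V' n) σ (nr (δ' n) b0), dist (pos (δ' n) y) z0 ≤ ε) ∧
      (¬ Mg n σ (nr (δ' n) b0)) ∧ ¬ ∃ k ∈ range N, Mg n σ (nr (δ' n) (z k)))
    ((e1.and e0).mono fun n ⟨hn, hn0⟩ => ?_)
    ((hfreq.and_eventually (e2.and e0)).mono fun n ⟨p1, hn, hn0⟩ => ?_)
    fun n n' σ σ' ⟨⟨⟨a1, a2, a3⟩, a0⟩, a4, a5, a6, a7⟩ ⟨⟨b1, b0', b3⟩, b4, b5, b6, b7, b8⟩ => ?_
  · have hp := hn.2.2.nice.trans
    have p1 := cA th hth (δ n) (hn.1.trans t2) _ _ hn.2.2 fun v hv => by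
      have hv' := hn.2.1 v (by linarith)
      have hx := hc _ (hA.2.2.1 n v hv')
      rw [avg_psi hv' d _ hx.1 hx.2]
      have := mul_le_mul_of_nonneg_right (hdr (pos (δ n) v) (by linarith)) (sq_nonneg (δ n))
      linarith
    have p2 := havoid _ hn.1 _ _ hn.2.2
    have hz0' := dist_nr hn.2.2.nice.pos z0
    have p3 := hcomp _ (hn.1.trans t8) _ hn.2.2.nice _ (nr (δ n) z0)
      (hn.2.2.diam' (by linarith [hn.1])) fun v hv => hn.2.1 v (by
        have := dist_triangle (pos (δ n) v) (pos (δ n) (nr (δ n) z0)) z0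
        linarith [hn.1])
    refine ⟨hp, le_trans (Pr_mono hp fun σ hσ h => ?_) (((Pr_or hp _ _).trans
      (add_le_add p1 ((Pr_or hp _ _).trans (add_le_add p2 p3)))).trans (by linarith))⟩
    by_contra h1
    simp only [not_or, not_not] at h1
    exact h ⟨⟨hn, hn0⟩, hσ, h1.1, h1.2.1, h1.2.2⟩
  · have hE := hn.2.2
    have hp := hE.nice.trans
    have p2 := havoid _ hn.1 _ _ hE
    have hm : ∀ x, dist (pos (δ' n) x) z0 ≤ 2 * q + t → Pr (V' n)
        (prob (fun _ _ => 0) (δ' n) (V' n)) (V' n) (fun σ => Mg n σ x) ≤ η / (N + 1) := by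
      intro x hx
      refine hmerge _ (hn.1.trans t3) _ hE.nice _ x (fun v hv => ?_) fun v hv => hn.2.1 v ?_
      · have := hE.diam v hv
        have h1 := hE.diam x (hn.2.1 x (by linarith))
        have := dist_triangle_right (pos (δ' n) v) (pos (δ' n) x) z0
        linarith
      · have := dist_triangle (pos (δ' n) v) (pos (δ' n) x) z0
        linarith
    have p3 := hm _ (hbn _ hE.nice.pos hn.1).1
    have p4 := (Pr_exists (V := V' n) (D := V' n) hp (range N) _).trans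
      (Finset.sum_le_card_nsmul _ _ _ fun k _ => hm (nr (δ' n) (z k)) (by
        have := dist_nr hE.nice.pos (z k)
        have := dist_triangle (pos (δ' n) (nr (δ' n) (z k))) (z k) z0
        have := hz k
        linarith [hn.1]))
    rw [Finset.card_range, nsmul_eq_mul] at p4
    have e3 : η / (N + 1) + N * (η / (N + 1)) = η := by field_simp; ring
    refine ⟨hp, le_trans (Pr_mono hp fun σ hσ h => ?_) (((Pr_or hp _ _).trans
      (add_le_add p1 ((Pr_or hp _ _).trans (add_le_add p2 ((Pr_or hp _ _).trans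
        (add_le_add p3 p4)))))).trans (by linarith))⟩
    by_contra h1
    simp only [not_or, not_not] at h1
    exact h ⟨⟨hn.1, hn0, hE⟩, hσ, h1.1, h1.2.1, h1.2.2.1, h1.2.2.2⟩
  · by_contra hlt
    push Not at hlt
    have hx := a3.nice.pos
    have hx' := b3.nice.pos
    refine cC th hth _ (a1.trans t2) _ (b1.trans t2) _ _ _ σ σ' a3 hx' a4 b4 a5 b5 fun k hk => ?_
    have hlt' : dist (S n σ) (S' n' σ') < t := by
      have h1 := hTS n σ a4
      have h2 := hTS' n' σ' b4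
      have := dist_triangle4 (S n σ) (π (T n σ)) (π (T' n' σ')) (S' n' σ')
      rw [dist_comm (S n σ) (π (T n σ))] at this
      linarith
    have hz0' := dist_nr hx z0
    have hx0 : nr (δ n) z0 ∈ V n := a2 _ (by linarith)
    obtain ⟨y0, hy0, ey0⟩ := (a4.exits (nr (δ n) z0)).last hx0
    have hshare : ∀ w, dist w z0 ≤ 2 * q → y0 ∈ branch (V n) σ (nr (δ n) w) := by
      intro w hw
      by_contra h
      have h1 : dist (pos (δ n) y0) (pos (δ n) (nr (δ n) z0)) ≤ R0 := not_lt.1 fun h2 =>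
        a7 ⟨nr (δ n) w, by
          have := dist_nr hx w
          have := dist_triangle4 (pos (δ n) (nr (δ n) w)) w z0 (pos (δ n) (nr (δ n) z0))
          rw [dist_comm z0] at this
          linarith, y0, Finset.mem_symmDiff.2 (Or.inr ⟨hy0, h⟩), h2⟩
      refine (a4.exits (nr (δ n) z0)).not_mem (a2 _ ?_)
      have := dist_triangle4 (pos (δ n) (next σ y0)) (pos (δ n) y0) (pos (δ n) (nr (δ n) z0)) z0
      rw [dist_next hx] at this
      rw [ey0]; linarith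
    obtain ⟨a', ha', b', hb', d1, d2, hl⟩ := hT n n' σ σ' t hlt' _ (a3.nr_mem (hz k)) _
      (a2 (nr (δ n) b0) (by have := (hbn _ hx a1).1; linarith))
      (Finset.not_disjoint_iff.2 ⟨y0, hshare _ (by linarith [hz k]), hshare _ hb0d.le⟩)
    have near : ∀ (w : ℂ) (u : Pt), dist (pos (δ n) (nr (δ n) w)) (pos (δ' n') u) < t →
        dist (pos (δ' n') u) (pos (δ' n') (nr (δ' n') w)) ≤ s := fun w u h => by
      have := dist_nr hx w
      have := dist_nr hx' w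
      have := dist_triangle4 (pos (δ' n') u) (pos (δ n) (nr (δ n) w)) w
        (pos (δ' n') (nr (δ' n') w))
      rw [dist_comm (pos (δ' n') u) (pos (δ n) _), dist_comm w] at this
      linarith
    have m1 : ∀ y ∈ symmDiff (branch (V' n') σ' b') (branch (V' n') σ' (nr (δ' n') b0)),
        dist (pos (δ' n') y) (pos (δ' n') (nr (δ' n') b0)) ≤ R := fun y hy =>
      not_lt.1 fun h => b7 ⟨b', near _ _ d2, y, hy, h⟩
    have m2 : ∀ y ∈ symmDiff (branch (V' n') σ' a') (branch (V' n') σ' (nr (δ' n') (z k))),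
        dist (pos (δ' n') y) (pos (δ' n') (nr (δ' n') (z k))) ≤ R := fun y hy =>
      not_lt.1 fun h => b8 ⟨k, Finset.mem_range.2 hk, a', near _ _ d1, y, hy, h⟩
    obtain ⟨l1, l2⟩ := hl z0 (7 * r / 2)
      (fun y hy => by
        have : ε < dist (pos (δ n) y) z0 := not_le.1 fun h => a6 ⟨y, hy, h⟩
        linarith)
      (fun y hy => by
        by_cases h : y ∈ branch (V' n') σ' (nr (δ' n') b0)
        · have : ε < dist (pos (δ' n') y) z0 := not_le.1 fun h' => b6 ⟨y, h, h'⟩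
          linarith
        · have h1 := m1 y (Finset.mem_symmDiff.2 (Or.inl ⟨hy, h⟩))
          have h2 := (hbn _ hx' b1).2
          have := dist_triangle_left (pos (δ' n') (nr (δ' n') b0)) z0 (pos (δ' n') y)
          linarith)
    constructor
    · intro v hv hR'
      obtain ⟨u, hu, h1⟩ := l1 v hv hR'
      by_cases h : u ∈ branch (V' n') σ' (nr (δ' n') (z k))
      · exact ⟨u, h, by linarith⟩
      · have h2 := m2 u (Finset.mem_symmDiff.2 (Or.inl ⟨hu, h⟩))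
        refine ⟨_, self_mem_branch (b3.nr_mem (hz k)), ?_⟩
        have := dist_triangle (pos (δ n) v) (pos (δ' n') u) (pos (δ' n') (nr (δ' n') (z k)))
        linarith
    · intro u hu hR'
      by_cases h : u ∈ branch (V' n') σ' a'
      · obtain ⟨v, hv, h1⟩ := l2 u h hR'
        exact ⟨v, hv, by linarith⟩
      · have h2 := m2 u (Finset.mem_symmDiff.2 (Or.inr ⟨hu, h⟩))
        refine ⟨_, self_mem_branch (a3.nr_mem (hz k)), ?_⟩
        have := dist_nr hx (z k)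
        have := dist_nr hx' (z k)
        have := dist_triangle4 (pos (δ n) (nr (δ n) (z k))) (z k)
          (pos (δ' n') (nr (δ' n') (z k))) (pos (δ' n') u)
        rw [dist_comm (z k), dist_comm (pos (δ' n') (nr (δ' n') (z k))) (pos (δ' n') u)] at this
        linarith

theorem nc_close {Y : Type} [MetricSpace Y] {K K' : NonemptyCompacts Y} {e : ℝ}
    (h : dist K K' < e) {x : Y} (hx : x ∈ K) : ∃ y ∈ K', dist x y < e := by
  rw [Metric.NonemptyCompacts.dist_eq] at h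
  exact Metric.exists_dist_lt_of_hausdorffDist_lt hx h
    (Metric.hausdorffEDist_ne_top_of_nonempty_of_bounded K.nonempty K'.nonempty
      K.isCompact.isBounded K'.isCompact.isBounded)

theorem mem_trace {δ : ℝ} {σ : Cfg} {a b v : Pt} {E : Finset Pt} (hv : v ∈ E) :
    pos δ v ∈ trace δ σ a b E :=
  Or.inr (Set.mem_biUnion hv (left_mem_segment ℝ _ _))

theorem near_of_mem_trace {δ : ℝ} (hδ : 0 < δ) {σ : Cfg} {a b : Pt} {E W : Finset Pt} {x : ℂ}
    (hx : x ∈ trace δ σ a b E) (ha : a ∈ W) (hb : b ∈ W) (hE : E ⊆ W) :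
    ∃ v ∈ W, dist x (pos δ v) ≤ δ := by
  rcases hx with (rfl | rfl) | hx
  · exact ⟨a, ha, by simpa using hδ.le⟩
  · exact ⟨b, hb, by simpa using hδ.le⟩
  · obtain ⟨v, hv, h⟩ := Set.mem_iUnion₂.1 hx
    refine ⟨v, hE hv, ?_⟩
    have := (convex_closedBall (pos δ v) δ).segment_subset (x := pos δ v)
      (y := pos δ (next σ v)) (by simpa using hδ.le) (by
        rw [Metric.mem_closedBall, dist_next hδ]) h
    exact this

theorem transfer_branches {δ δ' : ℝ} (hδ : 0 < δ) (hδ' : 0 < δ') {V V' : Finset Pt}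
    (hV : V.Nonempty) (hV' : V'.Nonempty) :
    Transfer δ δ' V V' (branches δ V hV) (branches δ' V' hV') := by
  intro σ σ' e h a ha b hb _
  obtain ⟨_, ⟨a', ha', rfl⟩, h1⟩ := nc_close h (x := (pos δ a, trace δ σ a a (branch V σ a)))
    ⟨a, ha, rfl⟩
  obtain ⟨_, ⟨b', hb', rfl⟩, h2⟩ := nc_close h (x := (pos δ b, trace δ σ b b (branch V σ b)))
    ⟨b, hb, rfl⟩
  rw [Prod.dist_eq, max_lt_iff] at h1 h2
  refine ⟨a', ha', b', hb', h1.1, h2.1, fun z0 R _ _ => ⟨fun v hv _ => ?_, fun v hv _ => ?_⟩⟩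
  · obtain ⟨x, hx, h3⟩ := nc_close h1.2 (mem_trace hv)
    obtain ⟨u, hu, h4⟩ := near_of_mem_trace hδ' hx (self_mem_branch ha') (self_mem_branch ha')
      le_rfl
    exact ⟨u, hu, by linarith [dist_triangle (pos δ v) x (pos δ' u)]⟩
  · obtain ⟨x, hx, h3⟩ := nc_close ((dist_comm _ _).trans_lt h1.2) (mem_trace hv)
    obtain ⟨u, hu, h4⟩ := near_of_mem_trace hδ hx (self_mem_branch ha) (self_mem_branch ha)
      le_rfl
    refine ⟨u, hu, ?_⟩
    have := dist_triangle_left (pos δ u) (pos δ' v) x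
    rw [dist_comm x (pos δ' v)] at this
    linarith

theorem transfer_schramm (w : Prop) {δ δ' : ℝ} (hδ : 0 < δ) (hδ' : 0 < δ') {V V' : Finset Pt}
    (hV : V.Nonempty) (hV' : V'.Nonempty) :
    Transfer δ δ' V V' (schramm w δ V hV) (schramm w δ' V' hV') := by
  intro σ σ' e h a ha b hb hab0
  obtain ⟨_, ⟨⟨a', b'⟩, hab, rfl⟩, h1⟩ := nc_close h (x := (pos δ a, pos δ b,
    trace δ σ a b (symmDiff (branch V σ a) (branch V σ b))))
    ⟨(a, b), Finset.mem_coe.2 (Finset.mem_filter.2 ⟨Finset.mem_product.2 ⟨ha, hb⟩,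
      Or.inr (Or.inr hab0)⟩), rfl⟩
  obtain ⟨ha', hb'⟩ := Finset.mem_product.1 (Finset.mem_filter.1 (Finset.mem_coe.1 hab)).1
  rw [Prod.dist_eq, max_lt_iff, Prod.dist_eq, max_lt_iff] at h1
  have he : 0 < e := dist_nonneg.trans_lt h
  refine ⟨a', ha', b', hb', h1.1, h1.2.1, fun z0 R g1 g2 =>
    ⟨fun v hv hR => ?_, fun v hv hR => ?_⟩⟩
  · obtain ⟨x, hx, h3⟩ := nc_close h1.2.2 (mem_trace (Finset.mem_symmDiff.2 (Or.inl
      ⟨hv, fun h => by have := g1 v h; linarith⟩)))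
    obtain ⟨u, hu, h4⟩ := near_of_mem_trace hδ' hx
      (Finset.mem_union_left _ (self_mem_branch ha'))
      (Finset.mem_union_right _ (self_mem_branch hb')) symmDiff_le_sup
    have h5 := dist_triangle (pos δ v) x (pos δ' u)
    refine ⟨u, (Finset.mem_union.1 hu).resolve_right fun h => ?_, by linarith⟩
    have := g2 u h
    have := dist_triangle_left (pos δ' u) z0 (pos δ v)
    linarith
  · obtain ⟨x, hx, h3⟩ := nc_close ((dist_comm _ _).trans_lt h1.2.2) (mem_trace (Finset.mem_symmDiff.2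
      (Or.inl ⟨hv, fun h => by have := g2 v h; linarith⟩)))
    obtain ⟨u, hu, h4⟩ := near_of_mem_trace hδ hx
      (Finset.mem_union_left _ (self_mem_branch ha))
      (Finset.mem_union_right _ (self_mem_branch hb)) symmDiff_le_sup
    have h5 := dist_triangle_left (pos δ u) (pos δ' v) x
    rw [dist_comm x (pos δ' v)] at h5
    refine ⟨u, (Finset.mem_union.1 hu).resolve_right fun h => ?_, by linarith⟩
    have := g1 u h
    have := dist_triangle (pos δ u) (pos δ' v) z0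
    linarith

theorem exists_law {X : Type} [MetricSpace X] [MeasurableSpace X] [BorelSpace X]
    {V : Finset Pt} {p : Pt → Fin 3 → ℝ} (hp : Trans p) (T : Cfg → X) {K : Set X}
    (hK : IsCompact K) (hT : ∀ σ, T σ ∈ K) :
    ∃ m : ProbabilityMeasure X, m Kᶜ = 0 ∧ ∀ f : BoundedContinuousFunction X ℝ,
      ∫ x, f x ∂(m : Measure X) = PE V p V fun σ => f (T σ) := by
  let a : (V → Fin 3) → ℝ := fun σ =>
    (∏ v : V, p v (σ v)) * (if IsTree V (ext V σ) then 1 else 0) / ZF V p V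
  have ha : ∀ σ, 0 ≤ a σ := fun σ => div_nonneg (mul_nonneg (wt_pos hp σ).le (by
    split_ifs <;> norm_num)) (ZF_pos hp).le
  let m : Measure X := ∑ σ : V → Fin 3, ENNReal.ofReal (a σ) • Measure.dirac (T (ext V σ))
  have hm : IsProbabilityMeasure m := by
    refine ⟨?_⟩
    simp only [m, Measure.coe_finsetSum, Finset.sum_apply, Measure.smul_apply, measure_univ,
      smul_eq_mul, mul_one]
    rw [← ENNReal.ofReal_sum_of_nonneg fun σ _ => ha σ, ← Finset.sum_div]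
    have : ∑ σ : V → Fin 3, (∏ v : V, p v (σ v)) * (if IsTree V (ext V σ) then 1 else 0) =
      ZF V p V := rfl
    rw [this, div_self (ZF_pos hp).ne', ENNReal.ofReal_one]
  refine ⟨⟨m, hm⟩, ?_, fun f => ?_⟩
  · refine (ProbabilityMeasure.null_iff_toMeasure_null (⟨m, hm⟩ : ProbabilityMeasure X) _).2 ?_
    change m Kᶜ = 0
    simp only [m, Measure.coe_finsetSum, Finset.sum_apply,
      Measure.smul_apply, smul_eq_mul]
    refine Finset.sum_eq_zero fun σ _ => ?_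
    rw [Measure.dirac_apply' _ hK.isClosed.measurableSet.compl,
      Set.indicator_of_notMem (not_not.2 (hT _)), mul_zero]
  · change ∫ x, f x ∂m = _
    simp only [m]
    rw [integral_finsetSum_measure fun σ _ =>
      (f.integrable _).smul_measure ENNReal.ofReal_ne_top]
    unfold PE EF Ex
    rw [Finset.sum_div]
    refine Finset.sum_congr rfl fun σ _ => ?_
    rw [integral_smul_measure, integral_dirac, ENNReal.toReal_ofReal (ha σ), smul_eq_mul]
    simp only [a]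
    split_ifs <;> ring

theorem exists_limit {X : Type} [MetricSpace X] [SeparableSpace X] [MeasurableSpace X]
    [BorelSpace X] {c : ℂ → Fin 3 → ℝ} {δ : ℕ → ℝ} {V : ℕ → Finset Pt} {T : ℕ → Cfg → X}
    {K : Set X} (hK : IsCompact K)
    (h : ∀ᶠ n in atTop, Trans (prob c (δ n) (V n)) ∧ ∀ σ, T n σ ∈ K) :
    ∃ (φ : ℕ → ℕ) (μ : Measure X), StrictMono φ ∧ LawLimit c (δ ∘ φ) (V ∘ φ) (T ∘ φ) μ := by
  obtain ⟨n0, hn0⟩ := eventually_atTop.1 h
  choose m hm1 hm2 using fun n : ℕ => exists_law (V := V (n + n0))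
    (hn0 (n + n0) (by omega)).1 (T (n + n0)) hK (hn0 (n + n0) (by omega)).2
  obtain ⟨μ, -, φ, hφ, hlim⟩ := (isCompact_setOfPred_probabilityMeasure_mass_eq_compl_isCompact_le
    (u := fun _ => 0) (K := fun _ => K) tendsto_const_nhds (fun _ => hK)
    (Or.inr monotone_const)).tendsto_subseq (x := m) fun n _ => (hm1 n).le
  refine ⟨fun n => φ n + n0, μ, fun a b hab => Nat.add_lt_add_right (hφ hab) n0, inferInstance,
    fun f => ?_⟩
  have := ProbabilityMeasure.tendsto_iff_forall_integral_tendsto.1 hlim f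
  simp only [Function.comp_apply, hm2] at this
  simpa only [Function.comp_apply, treeMean_eq] using this

theorem trace_subset {δ B : ℝ} (hδ : 0 < δ) (hδ1 : δ ≤ 1) {V E : Finset Pt} {σ : Cfg} {a b : Pt}
    (hV : ∀ v ∈ V, pos δ v ∈ Metric.closedBall (0 : ℂ) B) (ha : a ∈ V) (hb : b ∈ V)
    (hE : E ⊆ V) : (trace δ σ a b E : Set ℂ) ⊆ Metric.closedBall 0 (B + 1) := by
  intro x hx
  obtain ⟨v, hv, h⟩ := near_of_mem_trace hδ hx ha hb hE
  have := hV v hv
  have := dist_triangle x (pos δ v) 0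
  rw [Metric.mem_closedBall] at *
  linarith

theorem eventually_ok {Ω : Set ℂ} {B M : ℝ} (hB : Ω ⊆ Metric.closedBall 0 B) (hM : 1 ≤ M)
    {c : ℂ → Fin 3 → ℝ} (hc : ∀ x ∈ Ω, c x 0 + c x 1 + c x 2 = 0 ∧ ∀ i, |c x i| ≤ 2 * M)
    {δ : ℕ → ℝ} {V : ℕ → Finset Pt} (hA : Approximates Ω δ V) :
    ∀ᶠ n in atTop, Trans (prob c (δ n) (V n)) ∧ 0 < δ n ∧ δ n ≤ 1 ∧
      ∀ v ∈ V n, pos (δ n) v ∈ Metric.closedBall (0 : ℂ) B := by
  obtain ⟨a1, a2, a3, -⟩ := hA
  filter_upwards [a2.eventually_le_const (show 0 < 1 / (4 * M) by positivity)] with n hn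
  rw [le_div_iff₀ (by positivity)] at hn
  have := a1 n
  exact ⟨(nice_prob (a1 n) hM (by linarith) (fun v hv => (hc _ (a3 n v hv)).1)
    fun v hv => (hc _ (a3 n v hv)).2).trans, a1 n, by nlinarith, fun v hv => hB (a3 n v hv)⟩

theorem limit_schramm (w : Prop) [MeasurableSpace SchrammSpace] [BorelSpace SchrammSpace]
    {B : ℝ} {c : ℂ → Fin 3 → ℝ} {δ : ℕ → ℝ} {V : ℕ → Finset Pt} (hV : ∀ n, (V n).Nonempty)
    (h : ∀ᶠ n in atTop, Trans (prob c (δ n) (V n)) ∧ 0 < δ n ∧ δ n ≤ 1 ∧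
      ∀ v ∈ V n, pos (δ n) v ∈ Metric.closedBall (0 : ℂ) B) :
    ∃ (φ : ℕ → ℕ) (μ : Measure SchrammSpace), StrictMono φ ∧
      LawLimit c (δ ∘ φ) (V ∘ φ) ((fun n => schramm w (δ n) (V n) (hV n)) ∘ φ) μ := by
  refine exists_limit (NonemptyCompacts.isCompact_subsets_of_isCompact
    ((isCompact_closedBall (0 : ℂ) B).prod ((isCompact_closedBall (0 : ℂ) B).prod
      (NonemptyCompacts.isCompact_subsets_of_isCompact (isCompact_closedBall (0 : ℂ) (B + 1))))))
    (h.mono fun n ⟨h1, h2, h3, h4⟩ => ⟨h1, fun σ => ?_⟩)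
  rintro _ ⟨⟨a, b⟩, hab, rfl⟩
  obtain ⟨ha, hb⟩ := Finset.mem_product.1 (Finset.mem_filter.1 (Finset.mem_coe.1 hab)).1
  exact ⟨h4 a ha, h4 b hb, trace_subset h2 h3 h4 ha hb
    (symmDiff_le_sup.trans (sup_le branch_subset branch_subset))⟩

theorem limit_branches [MeasurableSpace BranchSpace] [BorelSpace BranchSpace]
    {B : ℝ} {c : ℂ → Fin 3 → ℝ} {δ : ℕ → ℝ} {V : ℕ → Finset Pt} (hV : ∀ n, (V n).Nonempty)
    (h : ∀ᶠ n in atTop, Trans (prob c (δ n) (V n)) ∧ 0 < δ n ∧ δ n ≤ 1 ∧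
      ∀ v ∈ V n, pos (δ n) v ∈ Metric.closedBall (0 : ℂ) B) :
    ∃ (φ : ℕ → ℕ) (μ : Measure BranchSpace), StrictMono φ ∧
      LawLimit c (δ ∘ φ) (V ∘ φ) ((fun n => branches (δ n) (V n) (hV n)) ∘ φ) μ := by
  refine exists_limit (NonemptyCompacts.isCompact_subsets_of_isCompact
    ((isCompact_closedBall (0 : ℂ) B).prod
      (NonemptyCompacts.isCompact_subsets_of_isCompact (isCompact_closedBall (0 : ℂ) (B + 1)))))
    (h.mono fun n ⟨h1, h2, h3, h4⟩ => ⟨h1, fun σ => ?_⟩)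
  rintro _ ⟨a, ha, rfl⟩
  exact ⟨h4 a ha, trace_subset h2 h3 h4 ha ha branch_subset⟩

theorem main {Ω : Set ℂ} (hΩ : IsOpen Ω) (hΩb : Bornology.IsBounded Ω) {Δ : ℂ → ℂ}
    (hΔ : ContinuousOn Δ Ω) (hΔb : ∃ M, ∀ z ∈ Ω, ‖Δ z‖ ≤ M) (hΔ0 : ∃ z ∈ Ω, Δ z ≠ 0)
    {c : ℂ → Fin 3 → ℝ} (hc : ∀ z ∈ Ω, c z 0 + c z 1 + c z 2 = 0 ∧
      Δ z = (c z 0 + c z 1 * tau + c z 2 * tau ^ 2) / 3)
    {δ δ' : ℕ → ℝ} {V V' : ℕ → Finset Pt} (hV : ∀ n, (V n).Nonempty) (hV' : ∀ n, (V' n).Nonempty)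
    (hA : Approximates Ω δ V) (hA' : Approximates Ω δ' V') :
    (∀ wired : Prop, SingularLimits c δ δ' V V' (fun n => schramm wired (δ n) (V n) (hV n))
      fun n => schramm wired (δ' n) (V' n) (hV' n)) ∧
    SingularLimits c δ δ' V V' (fun n => branches (δ n) (V n) (hV n))
      fun n => branches (δ' n) (V' n) (hV' n) := by
  have nac : ∀ {Y : Type} [MeasurableSpace Y] {μ ν : Measure Y}, IsProbabilityMeasure μ →
      μ ⟂ₘ ν → μ ⟂ₘ ν ∧ ¬ μ ≪ ν := fun h1 h2 => ⟨h2, fun h3 => IsProbabilityMeasure.ne_zero _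
    (Measure.eq_zero_of_absolutelyContinuous_of_mutuallySingular h3 h2)⟩
  obtain ⟨B, hB⟩ := hΩb.subset_closedBall 0
  obtain ⟨M, hM⟩ := id hΔb
  have e1 := eventually_ok (c := c) hB (le_max_left 1 M) (fun x hx => ⟨(hc x hx).1, fun i => by
    obtain ⟨u0, u1, u2⟩ := coef_bound (hc x hx).1 (hc x hx).2
    have := (hM x hx).trans (le_max_right 1 M)
    fin_cases i <;> simp <;> linarith⟩) hA
  have e2 := eventually_ok (c := fun _ _ => 0) hB le_rfl (fun x _ => ⟨by simp, fun i => by simp⟩)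
    hA'
  refine ⟨fun w => ⟨fun Y _ _ _ π T T' ε h1 h2 h3 h4 μ ν hμ hν => nac hμ.1
      (singular_of_transfer hΩ hΩb hΔ hΔb hΔ0 hc hA hA'
        (fun n n' => transfer_schramm w (hA.1 n) (hA'.1 n') _ _) h1 h2 h3 h4 hμ hν),
      ⟨limit_schramm w hV e1, limit_schramm w hV' e2⟩⟩,
    fun Y _ _ _ π T T' ε h1 h2 h3 h4 μ ν hμ hν => nac hμ.1
      (singular_of_transfer hΩ hΩb hΔ hΔb hΔ0 hc hA hA'
        (fun n n' => transfer_branches (hA.1 n) (hA'.1 n') _ _) h1 h2 h3 h4 hμ hν),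
      ⟨limit_branches hV e1, limit_branches hV' e2⟩⟩

end Pool.Agent.Lib.MP_60c5b4_pr
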