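import Pool.Agent.Lib.MP_60c5b4_pr.Cross

-- part Pool.Agent.Lib.MP_60c5b4_pr.Tube
section

/-!
The walk crosses a long tube with probability bounded below.
-/

namespace Pool.Agent.Lib.MP_60c5b4_pr

open Finset

/-- Transition probabilities within `lam` of `1 / 3`. -/
def Near (p : Pt → Fin 3 → ℝ) (lam : ℝ) : Prop := ∀ v i, |p v i - 1 / 3| ≤ lam

theorem tube_real {h b θ lam p0 p1 p2 : ℝ} (hh : 4 ≤ h) (hb1 : -(h - 1) ≤ b) (hb2 : b ≤ h - 1)
    (hθ1 : 1 + 2 / h ≤ θ) (hθ2 : θ ≤ 1 + 3 / h) (hs : p0 + p1 + p2 = 1)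
    (h0 : |p0 - 1 / 3| ≤ lam) (h1 : |p1 - 1 / 3| ≤ lam) (h2 : |p2 - 1 / 3| ≤ lam)
    (hl : lam * h ≤ 1 / 20) :
    θ * (h ^ 2 - b ^ 2) ^ 2 ≤ p0 * (θ ^ 3 * (h ^ 2 - b ^ 2) ^ 2) +
      p1 * (h ^ 2 - (b + 1) ^ 2) ^ 2 + p2 * (h ^ 2 - (b - 1) ^ 2) ^ 2 := by
  have hpos : 0 < h := by linarith
  have hlam : 0 ≤ lam := (abs_nonneg _).trans h0
  set g := (h ^ 2 - b ^ 2) ^ 2 with hg
  set gp := (h ^ 2 - (b + 1) ^ 2) ^ 2 with hgp
  set gm := (h ^ 2 - (b - 1) ^ 2) ^ 2 with hgm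
  have hs0 : 0 ≤ h ^ 2 - b ^ 2 := by nlinarith
  have hg0 : 0 ≤ g := by positivity
  have hg4 : g ≤ h ^ 4 := by
    have : h ^ 2 - b ^ 2 ≤ h ^ 2 := by nlinarith
    calc g ≤ (h ^ 2) ^ 2 := pow_le_pow_left₀ hs0 this 2
      _ = h ^ 4 := by ring
  have h3h : 3 / h ≤ 3 / 4 := div_le_div_of_nonneg_left (by norm_num) (by norm_num) hh
  have h2h : 0 < 2 / h := by positivity
  have hθ : 1 ≤ θ := by linarith
  have hA : 12 / h ^ 2 ≤ θ ^ 3 - 3 * θ + 2 := by
    have e : θ ^ 3 - 3 * θ + 2 = (θ - 1) ^ 2 * (θ + 2) := by ring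
    have : (2 / h) ^ 2 ≤ (θ - 1) ^ 2 := pow_le_pow_left₀ h2h.le (by linarith) 2
    have e2 : 12 / h ^ 2 = (2 / h) ^ 2 * 3 := by field_simp; ring
    rw [e, e2]
    exact mul_le_mul this (by linarith) (by norm_num) (by positivity)
  have hmean : 5 * h ^ 2 ≤ θ ^ 3 * g + gp + gm - 3 * θ * g := by
    have e : gp + gm = 2 * g + 12 * b ^ 2 - 4 * h ^ 2 + 2 := by rw [hg, hgp, hgm]; ring
    have h5 : 12 / h ^ 2 * g ≤ (θ ^ 3 - 3 * θ + 2) * g := mul_le_mul_of_nonneg_right hA hg0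
    have h6 : 12 * (h ^ 2 - b ^ 2) - 3 * h ^ 2 ≤ 12 / h ^ 2 * g := by
      have : 12 / h ^ 2 * g - (12 * (h ^ 2 - b ^ 2) - 3 * h ^ 2) =
          12 * ((h ^ 2 - b ^ 2) / h - h / 2) ^ 2 := by
        rw [hg]; field_simp; ring
      nlinarith [sq_nonneg ((h ^ 2 - b ^ 2) / h - h / 2)]
    nlinarith
  have hd0 : |(θ ^ 3 - 1) * g| ≤ 18 * h ^ 3 := by
    have e : θ ^ 3 - 1 = (θ - 1) * (θ ^ 2 + θ + 1) := by ring
    have h7 : θ ^ 2 + θ + 1 ≤ 6 := by nlinarith
    have h8 : θ ^ 3 - 1 ≤ 3 / h * 6 := by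
      rw [e]; exact mul_le_mul (by linarith) h7 (by positivity) (by positivity)
    have h9 : 0 ≤ θ ^ 3 - 1 := by rw [e]; exact mul_nonneg (by linarith) (by positivity)
    rw [abs_of_nonneg (mul_nonneg h9 hg0)]
    calc (θ ^ 3 - 1) * g ≤ 3 / h * 6 * h ^ 4 := mul_le_mul h8 hg4 hg0 (by positivity)
      _ = 18 * h ^ 3 := by field_simp; ring
  have hd1 : |gp - g| ≤ 4 * h ^ 3 := by
    have e : gp - g = -(2 * b + 1) * (2 * h ^ 2 - b ^ 2 - (b + 1) ^ 2) := by rw [hg, hgp]; ring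
    rw [e, abs_mul]
    have a1 : |-(2 * b + 1)| ≤ 2 * h := abs_le.2 ⟨by linarith, by linarith⟩
    have a2 : |2 * h ^ 2 - b ^ 2 - (b + 1) ^ 2| ≤ 2 * h ^ 2 :=
      abs_le.2 ⟨by nlinarith, by nlinarith⟩
    calc _ ≤ 2 * h * (2 * h ^ 2) := mul_le_mul a1 a2 (abs_nonneg _) (by positivity)
      _ = 4 * h ^ 3 := by ring
  have hd2 : |gm - g| ≤ 4 * h ^ 3 := by
    have e : gm - g = (2 * b - 1) * (2 * h ^ 2 - b ^ 2 - (b - 1) ^ 2) := by rw [hg, hgm]; ring
    rw [e, abs_mul]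
    have a1 : |2 * b - 1| ≤ 2 * h := abs_le.2 ⟨by linarith, by linarith⟩
    have a2 : |2 * h ^ 2 - b ^ 2 - (b - 1) ^ 2| ≤ 2 * h ^ 2 :=
      abs_le.2 ⟨by nlinarith, by nlinarith⟩
    calc _ ≤ 2 * h * (2 * h ^ 2) := mul_le_mul a1 a2 (abs_nonneg _) (by positivity)
      _ = 4 * h ^ 3 := by ring
  have t0 : -(lam * (18 * h ^ 3)) ≤ (p0 - 1 / 3) * ((θ ^ 3 - 1) * g) :=
    neg_le_of_abs_le (by rw [abs_mul]; exact mul_le_mul h0 hd0 (abs_nonneg _) hlam)
  have t1 : -(lam * (4 * h ^ 3)) ≤ (p1 - 1 / 3) * (gp - g) :=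
    neg_le_of_abs_le (by rw [abs_mul]; exact mul_le_mul h1 hd1 (abs_nonneg _) hlam)
  have t2 : -(lam * (4 * h ^ 3)) ≤ (p2 - 1 / 3) * (gm - g) :=
    neg_le_of_abs_le (by rw [abs_mul]; exact mul_le_mul h2 hd2 (abs_nonneg _) hlam)
  have t3 : lam * h ^ 3 ≤ h ^ 2 / 20 := by
    have : lam * h * h ^ 2 ≤ 1 / 20 * h ^ 2 := mul_le_mul_of_nonneg_right hl (by positivity)
    nlinarith
  have e : p0 * (θ ^ 3 * g) + p1 * gp + p2 * gm - θ * g =
      (θ ^ 3 * g + gp + gm - 3 * θ * g) / 3 + (p0 - 1 / 3) * ((θ ^ 3 - 1) * g) +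
        (p1 - 1 / 3) * (gp - g) + (p2 - 1 / 3) * (gm - g) := by
    have : p2 = 1 - p0 - p1 := by linarith
    rw [this]; ring
  linarith [sq_nonneg h]

/-- The constant of the tube estimate. -/
noncomputable def cT : ℝ := Real.exp (-88) / 3

theorem cT_pos : 0 < cT := by unfold cT; positivity

theorem cT_le_one : cT ≤ 1 := by
  unfold cT
  have : Real.exp (-88) ≤ 1 := Real.exp_le_one_iff.2 (by norm_num)
  linarith

variable {p : Pt → Fin 3 → ℝ} {lam : ℝ}

theorem tube (hp : Trans p) (hl : Near p lam) (y : Pt) {h L : ℤ} (hh : 4 ≤ h)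
    (hL : L ≤ 21 * h) (hlam : lam * h ≤ 1 / 20) {U : Finset Pt}
    (hU : ∀ v ∈ U, -h < v.2 - y.2 ∧ v.2 - y.2 < h ∧
      2 * (v.1 - y.1) - (v.2 - y.2) ≤ 2 * L)
    {H : Pt → ℝ} {m : ℝ} (hm : 0 ≤ m) (hH0 : ∀ v ∈ U, ∀ i, 0 ≤ H (v + dir i))
    (hsup : ∀ v ∈ U, avg p H v ≤ H v)
    (hb : ∀ v ∈ U, ∀ i, v + dir i ∉ U → -h < (v + dir i).2 - y.2 → (v + dir i).2 - y.2 < h →
      -3 * h ≤ 2 * ((v + dir i).1 - y.1) - ((v + dir i).2 - y.2) → m ≤ H (v + dir i))
    {x : Pt} (hx : x ∈ U) (hx1 : -h ≤ 2 * (x.2 - y.2)) (hx2 : 2 * (x.2 - y.2) ≤ h)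
    (hx3 : -h ≤ 2 * (x.1 - y.1) - (x.2 - y.2)) : cT * m ≤ H x := by
  have hh' : (4 : ℝ) ≤ h := by exact_mod_cast hh
  have hpos : (0 : ℝ) < h := by linarith
  set t : ℝ := 2 / h with ht
  have ht0 : 0 < t := by positivity
  have hth : t * h = 2 := by rw [ht]; field_simp
  have ht1 : t ≤ 1 / 2 := by rw [ht, div_le_iff₀ hpos]; linarith
  set θ := Real.exp t with hθ
  have hθ1 : 1 + 2 / (h : ℝ) ≤ θ := by have := Real.add_one_le_exp t; linarith
  have hθ2 : θ ≤ 1 + 3 / (h : ℝ) := by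
    have h1 := Real.abs_exp_sub_one_sub_id_le (x := t) (by rw [abs_of_pos ht0]; linarith)
    have h2 := (abs_le.1 h1).2
    have h3 : 3 / (h : ℝ) = 3 / 2 * t := by rw [ht]; field_simp
    rw [h3]; nlinarith
  have hθ0 : 0 < θ := Real.exp_pos t
  let u : Pt → ℝ := fun v => 2 * ((v.1 : ℝ) - y.1) - ((v.2 : ℝ) - y.2)
  let b : Pt → ℝ := fun v => (v.2 : ℝ) - y.2
  let f : Pt → ℝ := fun v => Real.exp (t * u v) * ((h : ℝ) ^ 2 - b v ^ 2) ^ 2
  set Fm : ℝ := Real.exp (t * (2 * L + 2)) * (h : ℝ) ^ 4 with hFm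
  set fl : ℝ := Real.exp (-2) * (h : ℝ) ^ 4 / 5 with hfl
  have hFm0 : 0 < Fm := by positivity
  have hfl0 : 0 < fl := by positivity
  have hsub : ∀ v ∈ U, f v ≤ avg p f v := by
    intro v hv
    obtain ⟨a1, a2, -⟩ := hU v hv
    have a1' : -((h : ℝ) - 1) ≤ b v := by
      have : -(h - 1) ≤ v.2 - y.2 := by omega
      simp only [b]; exact_mod_cast this
    have a2' : b v ≤ (h : ℝ) - 1 := by
      have : v.2 - y.2 ≤ h - 1 := by omega
      simp only [b]; exact_mod_cast this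
    have hs := hp.sum v
    rw [Fin.sum_univ_three] at hs
    have key := tube_real hh' a1' a2' hθ1 hθ2 hs (hl v 0) (hl v 1) (hl v 2) hlam
    have e0 : f (v + dir 0) = Real.exp (t * u v) / θ * (θ ^ 3 * ((h : ℝ) ^ 2 - b v ^ 2) ^ 2) := by
      have e : u (v + dir 0) = u v + 2 := by simp [u, dir]; ring
      have e' : b (v + dir 0) = b v := by simp [b, dir]
      simp only [f, e, e', mul_add, Real.exp_add]
      rw [show t * 2 = t + t by ring, Real.exp_add, ← hθ]; field_simp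
    have e1 : f (v + dir 1) = Real.exp (t * u v) / θ * ((h : ℝ) ^ 2 - (b v + 1) ^ 2) ^ 2 := by
      have e : u (v + dir 1) = u v - 1 := by simp [u, dir]; ring
      have e' : b (v + dir 1) = b v + 1 := by simp [b, dir]; ring
      simp only [f, e, e', mul_sub, Real.exp_sub, mul_one, ← hθ]
    have e2 : f (v + dir 2) = Real.exp (t * u v) / θ * ((h : ℝ) ^ 2 - (b v - 1) ^ 2) ^ 2 := by
      have e : u (v + dir 2) = u v - 1 := by simp [u, dir]; ring
      have e' : b (v + dir 2) = b v - 1 := by simp [b, dir]; ring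
      simp only [f, e, e', mul_sub, Real.exp_sub, mul_one, ← hθ]
    have e3 : f v = Real.exp (t * u v) / θ * (θ * ((h : ℝ) ^ 2 - b v ^ 2) ^ 2) := by
      simp only [f]; field_simp
    rw [avg, Fin.sum_univ_three, e0, e1, e2, e3]
    have hE : 0 ≤ Real.exp (t * u v) / θ := by positivity
    linarith [mul_le_mul_of_nonneg_left key hE]
  have hg4 : ∀ v : Pt, -h ≤ v.2 - y.2 → v.2 - y.2 ≤ h →
      ((h : ℝ) ^ 2 - b v ^ 2) ^ 2 ≤ (h : ℝ) ^ 4 := by
    intro v a1 a2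
    have a1' : -(h : ℝ) ≤ b v := by simp only [b]; exact_mod_cast a1
    have a2' : b v ≤ (h : ℝ) := by simp only [b]; exact_mod_cast a2
    have h1 : 0 ≤ (h : ℝ) ^ 2 - b v ^ 2 := by nlinarith
    have h2 : (h : ℝ) ^ 2 - b v ^ 2 ≤ (h : ℝ) ^ 2 := by nlinarith
    calc _ ≤ ((h : ℝ) ^ 2) ^ 2 := pow_le_pow_left₀ h1 h2 2
      _ = _ := by ring
  have hcmp := compare (U := U) hp (u := fun v => m * (f v - fl)) (w := fun v => Fm * H v)
    (fun v hv => by
      rw [avg_const_mul, avg_const_mul, avg_sub, avg_const hp]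
      have h1 := hsub v hv
      have h2 := hsup v hv
      linarith [mul_le_mul_of_nonneg_left h1 hm, mul_le_mul_of_nonneg_left h2 hFm0.le])
    (fun v hv i hi => by
      obtain ⟨a1, a2, a3⟩ := hU v hv
      have hH := hH0 v hv i
      have hw : -1 ≤ (v + dir i).2 - v.2 ∧ (v + dir i).2 - v.2 ≤ 1 ∧
          2 * ((v + dir i).1 - v.1) - ((v + dir i).2 - v.2) ≤ 2 := by
        fin_cases i <;> simp [dir]
      have hb' := hb v hv i hi
      clear hb hH0
      generalize v + dir i = w at *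
      have hr : 0 ≤ Fm * H w := mul_nonneg hFm0.le hH
      by_cases c1 : w.2 - y.2 = -h ∨ w.2 - y.2 = h
      · have : f w = 0 := by
          have : (h : ℝ) ^ 2 - b w ^ 2 = 0 := by
            rcases c1 with c | c
            · have : b w = -h := by simp only [b]; exact_mod_cast c
              rw [this]; ring
            · have : b w = h := by simp only [b]; exact_mod_cast c
              rw [this]; ring
          simp [f, this]
        rw [this]; linarith [mul_nonneg hm hfl0.le]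
      · have g4 := hg4 w (by omega) (by omega)
        by_cases c2 : -3 * h ≤ 2 * (w.1 - y.1) - (w.2 - y.2)
        · have hm' := hb' (by omega) (by omega) c2
          have hu : u w ≤ 2 * L + 2 := by
            have : 2 * (w.1 - y.1) - (w.2 - y.2) ≤ 2 * L + 2 := by omega
            simp only [u]; exact_mod_cast this
          have h2 : f w ≤ Fm :=
            mul_le_mul (Real.exp_le_exp.2 (mul_le_mul_of_nonneg_left hu ht0.le)) g4
              (by positivity) (Real.exp_pos _).le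
          linarith [mul_nonneg hm hfl0.le, mul_le_mul_of_nonneg_left h2 hm,
            mul_le_mul_of_nonneg_left hm' hFm0.le]
        · have hu : u w ≤ -3 * h := by
            have : 2 * (w.1 - y.1) - (w.2 - y.2) ≤ -3 * h := by omega
            simp only [u]; exact_mod_cast this
          have h1 : Real.exp (t * u w) ≤ Real.exp (-2) / 5 := by
            have h2 : t * u w ≤ -2 + -4 := by nlinarith
            have h3 : Real.exp (-4) ≤ 1 / 5 := by
              rw [Real.exp_neg, inv_eq_one_div]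
              exact one_div_le_one_div_of_le (by norm_num)
                (by have := Real.add_one_le_exp 4; linarith)
            calc _ ≤ Real.exp (-2 + -4) := Real.exp_le_exp.2 h2
              _ = Real.exp (-2) * Real.exp (-4) := Real.exp_add _ _
              _ ≤ Real.exp (-2) * (1 / 5) := mul_le_mul_of_nonneg_left h3 (Real.exp_pos _).le
              _ = _ := by ring
          have h2 : f w ≤ fl := by
            calc f w ≤ Real.exp (-2) / 5 * (h : ℝ) ^ 4 :=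
                  mul_le_mul h1 g4 (by positivity) (by positivity)
              _ = fl := by rw [hfl]; ring
          linarith [mul_nonneg hm (sub_nonneg.2 h2)]) x hx
  have hfx : Real.exp (-2) * (9 / 16 * (h : ℝ) ^ 4) ≤ f x := by
    have a1 : -(h : ℝ) ≤ 2 * b x := by simp only [b]; exact_mod_cast hx1
    have a2 : 2 * b x ≤ (h : ℝ) := by simp only [b]; exact_mod_cast hx2
    have a3 : -(h : ℝ) ≤ u x := by simp only [u]; exact_mod_cast hx3
    have h1 : 3 / 4 * (h : ℝ) ^ 2 ≤ (h : ℝ) ^ 2 - b x ^ 2 := by nlinarith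
    have h2 : (3 / 4 * (h : ℝ) ^ 2) ^ 2 ≤ ((h : ℝ) ^ 2 - b x ^ 2) ^ 2 :=
      pow_le_pow_left₀ (by positivity) h1 2
    refine mul_le_mul (Real.exp_le_exp.2 (by nlinarith)) (by nlinarith) (by positivity)
      (Real.exp_pos _).le
  have hF : Fm ≤ Real.exp 86 * (h : ℝ) ^ 4 := by
    refine mul_le_mul_of_nonneg_right (Real.exp_le_exp.2 ?_) (by positivity)
    have : (L : ℝ) ≤ 21 * h := by exact_mod_cast hL
    nlinarith
  have hHx : 0 ≤ H x := by
    have := avg_mono (u := fun _ => 0) (w := H) (v := x) hp (hH0 x hx)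
    rw [avg_const hp] at this
    exact this.trans (hsup x hx)
  have h4 : (0 : ℝ) < (h : ℝ) ^ 4 := by positivity
  have h5 : m * (Real.exp (-2) / 3) * (h : ℝ) ^ 4 ≤ Real.exp 86 * H x * (h : ℝ) ^ 4 := by
    have h6 : m * (Real.exp (-2) / 3 * (h : ℝ) ^ 4) ≤ m * (f x - fl) := by
      refine mul_le_mul_of_nonneg_left ?_ hm
      have : 0 < Real.exp (-2) * (h : ℝ) ^ 4 := by positivity
      rw [hfl]; linarith
    have h7 := mul_le_mul_of_nonneg_right hF hHx
    calc _ = m * (Real.exp (-2) / 3 * (h : ℝ) ^ 4) := by ring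
      _ ≤ Real.exp 86 * (h : ℝ) ^ 4 * H x := h6.trans (hcmp.trans h7)
      _ = _ := by ring
  have h6 := le_of_mul_le_mul_right h5 h4
  have h7 : Real.exp (-88) * Real.exp 86 = Real.exp (-2) := by rw [← Real.exp_add]; norm_num
  have h8 := mul_le_mul_of_nonneg_left h6 (Real.exp_pos (-88)).le
  have h9 : Real.exp (-2) * (cT * m) ≤ Real.exp (-2) * H x := by
    unfold cT
    calc Real.exp (-2) * (Real.exp (-88) / 3 * m) = Real.exp (-88) * (m * (Real.exp (-2) / 3)) := by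
          ring
      _ ≤ Real.exp (-88) * (Real.exp 86 * H x) := h8
      _ = _ := by rw [← mul_assoc, h7]
  exact le_of_mul_le_mul_left h9 (Real.exp_pos _)

end Pool.Agent.Lib.MP_60c5b4_pr
end

-- part Pool.Agent.Lib.MP_60c5b4_pr.Abs
section

/-!
Absorption estimate: a walk started near a long lattice path hits it with probability bounded
below before going far.
-/

namespace Pool.Agent.Lib.MP_60c5b4_pr

open Finset Classical

/-- Hexagonal ball. -/
def Hex (n : ℤ) (v : Pt) : Prop :=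
  -n ≤ v.1 ∧ v.1 ≤ n ∧ -n ≤ v.2 ∧ v.2 ≤ n ∧ -n ≤ v.1 - v.2 ∧ v.1 - v.2 ≤ n

/-- Rotation by `τ`. -/
def rot (v : Pt) : Pt := (-v.2, v.1 - v.2)

/-- Rotation by `τ ^ 2`. -/
def rot' (v : Pt) : Pt := (v.2 - v.1, -v.1)

theorem rot_rot' (v : Pt) : rot (rot' v) = v := by simp [rot, rot']

theorem rot_add (v w : Pt) : rot (v + w) = rot v + rot w := by
  simp only [rot, Prod.fst_add, Prod.snd_add, Prod.mk_add_mk, Prod.mk.injEq]; omega

theorem rot_dir (i : Fin 3) : rot (dir i) = dir (i + 1) := by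
  fin_cases i <;> simp [rot, dir]

/-- Rotated transition probabilities. -/
def rotP (p : Pt → Fin 3 → ℝ) : Pt → Fin 3 → ℝ := fun v i => p (rot v) (i + 1)

variable {p : Pt → Fin 3 → ℝ} {lam : ℝ}

theorem Trans.rotP (hp : Trans p) : Trans (rotP p) := by
  refine ⟨fun v i => hp.pos _ _, fun v => ?_⟩
  have := hp.sum (rot v)
  simp only [Fin.sum_univ_three, Pool.Agent.Lib.MP_60c5b4_pr.rotP] at this ⊢
  norm_num [show (2 : Fin 3) + 1 = 0 from rfl, show (1 : Fin 3) + 1 = 2 from rfl]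
  linarith

theorem Near.rotP (hl : Near p lam) : Near (rotP p) lam := fun _ _ => hl _ _

theorem avg_rotP (H : Pt → ℝ) (v : Pt) :
    avg (rotP p) (fun w => H (rot w)) v = avg p H (rot v) := by
  simp only [avg, Fin.sum_univ_three, rotP, rot_add, rot_dir]
  norm_num [show (2 : Fin 3) + 1 = 0 from rfl, show (1 : Fin 3) + 1 = 2 from rfl]
  ring

/-- The box containing a hexagonal ball. -/
noncomputable def box (y : Pt) (n : ℤ) : Finset Pt :=
  (Finset.Icc (y.1 - n) (y.1 + n)) ×ˢ (Finset.Icc (y.2 - n) (y.2 + n))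

theorem mem_box {y v : Pt} {n : ℤ} :
    v ∈ box y n ↔ (y.1 - n ≤ v.1 ∧ v.1 ≤ y.1 + n) ∧ (y.2 - n ≤ v.2 ∧ v.2 ≤ y.2 + n) := by
  simp [box]

/-- Moving a macroscopic distance in direction `i`. -/
def MoveStmt (lam : ℝ) (i : Fin 3) : Prop :=
  ∀ (p : Pt → Fin 3 → ℝ), Trans p → Near p lam → ∀ (y : Pt) (n L : ℤ), 2 ≤ n → 0 ≤ L →
    L ≤ 42 * n → lam * n ≤ 1 / 40 → ∀ (S : Pt → Prop) (H : Pt → ℝ) (m : ℝ), 0 ≤ m →
    (∀ v, Hex (L + 4 * n + 1) (v - y) → 0 ≤ H v) →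
    (∀ v, Hex (L + 4 * n + 1) (v - y) → ¬ S v → avg p H v ≤ H v) →
    (∀ v, Hex (L + 4 * n + 1) (v - y) → S v → m ≤ H v) →
    (∀ v, Hex (2 * n) (v - (y + L • dir i)) → m ≤ H v) →
    ∀ x, Hex n (x - y) → cT * m ≤ H x

theorem dir_bound (v : Pt) (i : Fin 3) :
    ((v + dir i).1 = v.1 + 1 ∧ (v + dir i).2 = v.2) ∨
    ((v + dir i).1 = v.1 ∧ (v + dir i).2 = v.2 + 1) ∨
    ((v + dir i).1 = v.1 - 1 ∧ (v + dir i).2 = v.2 - 1) := by
  fin_cases i <;> simp [dir] <;> omega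

theorem move_zero : MoveStmt lam 0 := by
  intro p hp hl y n L hn hL0 hL hlam S H m hm h0 hsup hS hend x hx
  by_cases hxS : S x
  · refine le_trans ?_ (hS x ?_ hxS)
    · nlinarith [cT_le_one, cT_pos]
    · simp only [Hex, Prod.fst_sub, Prod.snd_sub] at hx ⊢; omega
  let U := (box y (L + 4 * n)).filter fun v => (-(2 * n) < v.2 - y.2 ∧ v.2 - y.2 < 2 * n ∧
    -3 * (2 * n) ≤ 2 * (v.1 - y.1) - (v.2 - y.2) ∧
    2 * (v.1 - y.1) - (v.2 - y.2) ≤ 2 * L) ∧ ¬ S v
  have hU : ∀ v, v ∈ U ↔ (-(2 * n) < v.2 - y.2 ∧ v.2 - y.2 < 2 * n ∧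
      -3 * (2 * n) ≤ 2 * (v.1 - y.1) - (v.2 - y.2) ∧
      2 * (v.1 - y.1) - (v.2 - y.2) ≤ 2 * L) ∧ ¬ S v := by
    intro v
    simp only [U, Finset.mem_filter, mem_box, and_iff_right_iff_imp]
    omega
  by_cases hxU : x ∈ U
  swap
  · refine le_trans ?_ (hend x ?_)
    · nlinarith [cT_le_one, cT_pos]
    · rw [hU] at hxU
      simp only [hxS, not_false_eq_true, and_true] at hxU
      simp only [Hex, Prod.fst_sub, Prod.snd_sub, Prod.fst_add, Prod.snd_add, dir,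
        Matrix.cons_val_zero, Prod.smul_mk, smul_eq_mul, mul_one, mul_zero] at hx ⊢
      omega
  simp only [Hex, Prod.fst_sub, Prod.snd_sub] at hx
  refine tube hp hl y (h := 2 * n) (L := L) (by omega) (by omega) (by push_cast; linarith)
    (U := U) (fun v hv => ?_) hm (fun v hv i => h0 _ ?_) (fun v hv => hsup v ?_ ((hU v).1 hv).2)
    (fun v hv i hi a1 a2 a3 => ?_) hxU (by omega) (by omega) (by omega)
  · have := ((hU v).1 hv).1; omega
  · have := ((hU v).1 hv).1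
    have := dir_bound v i
    simp only [Hex, Prod.fst_sub, Prod.snd_sub]; omega
  · have := ((hU v).1 hv).1
    simp only [Hex, Prod.fst_sub, Prod.snd_sub]; omega
  · have h1 := ((hU v).1 hv).1
    have h2 := dir_bound v i
    by_cases h3 : S (v + dir i)
    · refine hS _ ?_ h3
      simp only [Hex, Prod.fst_sub, Prod.snd_sub]; omega
    · rw [hU] at hi
      simp only [h3, not_false_eq_true, and_true] at hi
      refine hend _ ?_
      generalize v + dir i = w at *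
      simp only [Hex, Prod.fst_sub, Prod.snd_sub, Prod.fst_add, Prod.snd_add, dir,
        Matrix.cons_val_zero, Prod.smul_mk, smul_eq_mul, mul_one, mul_zero]
      omega

theorem hex_rot {n : ℤ} {v y : Pt} (h : Hex n (v - rot' y)) : Hex n (rot v - y) := by
  simp only [Hex, rot, rot', Prod.fst_sub, Prod.snd_sub] at h ⊢; omega

theorem hex_rot' {n : ℤ} {v y : Pt} (h : Hex n (v - y)) : Hex n (rot' v - rot' y) := by
  simp only [Hex, rot', Prod.fst_sub, Prod.snd_sub] at h ⊢; omega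

theorem move_succ {i : Fin 3} (h : MoveStmt lam i) : MoveStmt lam (i + 1) := by
  intro p hp hl y n L hn hL0 hL hlam S H m hm h0 hsup hS hend x hx
  have := h (rotP p) hp.rotP hl.rotP (rot' y) n L hn hL0 hL hlam (fun v => S (rot v))
    (fun v => H (rot v)) m hm (fun v hv => h0 _ (hex_rot hv))
    (fun v hv h1 => by rw [avg_rotP]; exact hsup _ (hex_rot hv) h1)
    (fun v hv h1 => hS _ (hex_rot hv) h1)
    (fun v hv => hend _ (hex_rot (by
      have : rot' (y + L • dir (i + 1)) = rot' y + L • dir i := by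
        fin_cases i <;> simp [rot', dir] <;> omega
      rw [this]; exact hv))) (rot' x) (hex_rot' hx)
  simpa [rot_rot'] using this

theorem move_one : MoveStmt lam 1 := by
  have := move_succ (lam := lam) move_zero
  rwa [show (0 : Fin 3) + 1 = 1 by decide] at this

theorem move_two : MoveStmt lam 2 := by
  have := move_succ (lam := lam) move_one
  rwa [show (1 : Fin 3) + 1 = 2 by decide] at this

/-- The three linear forms cutting out a triangle. -/
def ell (k : Fin 3) (v : Pt) : ℤ := ![-v.2, v.1, v.2 - v.1] k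

/-- Absorption by a path leaving the triangle through side `k`. -/
def AbsStmt (lam : ℝ) (k : Fin 3) : Prop :=
  ∀ (p : Pt → Fin 3 → ℝ), Trans p → Near p lam → ∀ (x : Pt) (ρ : ℤ), 2 ≤ ρ →
    lam * ρ ≤ 1 / 160 → ∀ (S : Pt → Prop) (H : Pt → ℝ),
    (∀ v, Hex (125 * ρ) (v - x) → 0 ≤ H v) →
    (∀ v, Hex (125 * ρ) (v - x) → ¬ S v → avg p H v ≤ H v) →
    (∀ v, Hex (125 * ρ) (v - x) → S v → 1 ≤ H v) →
    ∀ (q : ℕ → Pt) (n : ℕ), Hex ρ (q 0 - x) → (∀ t < n, ∃ j, q (t + 1) = q t + dir j) →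
    (∀ t ≤ n, S (q t) ∧ ∀ j, ell j (q t - x) ≤ 17 * ρ + 1) → 17 * ρ < ell k (q n - x) →
    cT ^ 3 ≤ H x

theorem abs_zero : AbsStmt lam 0 := by
  intro p hp hl x ρ hρ hlam S H h0 hsup hS q n hq0 hq hqS hqn
  have hc0 := cT_pos
  have hc1 := cT_le_one
  have hρ' : (2 : ℝ) ≤ ρ := by exact_mod_cast hρ
  have hlam0 : 0 ≤ lam := (abs_nonneg _).trans (hl x 0)
  have hqa : ∀ t ≤ n, (q t).1 - x.1 ≤ 17 * ρ + 1 ∧
      ((q t).2 - x.2) - ((q t).1 - x.1) ≤ 17 * ρ + 1 := fun t ht =>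
    ⟨by simpa [ell] using (hqS t ht).2 1, by simpa [ell] using (hqS t ht).2 2⟩
  have hqn' : (q n).2 - x.2 < -(17 * ρ) := by
    have : 17 * ρ < -((q n).2 - x.2) := by simpa [ell] using hqn
    omega
  simp only [Hex, Prod.fst_sub, Prod.snd_sub] at hq0
  have third : ∀ z, Hex (2 * (2 * ρ)) (z - (x + (42 * ρ) • dir 2 + (33 * ρ) • dir 1)) →
      cT ≤ H z := by
    intro z hz
    have hz' : Hex (4 * ρ) (z - (x.1 - 42 * ρ, x.2 - 9 * ρ)) := by
      simp only [Hex, Prod.fst_sub, Prod.snd_sub, Prod.fst_add, Prod.snd_add, dir,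
        Matrix.cons_val_one, Matrix.cons_val_zero, Matrix.cons_val, Prod.smul_mk, smul_eq_mul,
        mul_one, mul_zero, mul_neg] at hz ⊢
      omega
    clear hz
    simp only [Hex, Prod.fst_sub, Prod.snd_sub] at hz'
    by_cases hzS : S z
    · refine hc1.trans (hS z ?_ hzS)
      simp only [Hex, Prod.fst_sub, Prod.snd_sub]; omega
    let y : Pt := (x.1 - 42 * ρ, x.2 - 9 * ρ)
    let U := (box x (125 * ρ)).filter fun v => (-(8 * ρ) < v.2 - y.2 ∧ v.2 - y.2 < 8 * ρ ∧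
      -3 * (8 * ρ) ≤ 2 * (v.1 - y.1) - (v.2 - y.2) ∧
      2 * (v.1 - y.1) - (v.2 - y.2) ≤ 2 * (64 * ρ)) ∧ ¬ S v ∧ wind q n v = 0
    have hU : ∀ v, v ∈ U ↔ (-(8 * ρ) < v.2 - y.2 ∧ v.2 - y.2 < 8 * ρ ∧
        -3 * (8 * ρ) ≤ 2 * (v.1 - y.1) - (v.2 - y.2) ∧
        2 * (v.1 - y.1) - (v.2 - y.2) ≤ 2 * (64 * ρ)) ∧ ¬ S v ∧ wind q n v = 0 := by
      intro v
      simp only [U, y, Finset.mem_filter, mem_box, and_iff_right_iff_imp]
      omega
    have hzU : z ∈ U := by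
      rw [hU]
      refine ⟨by simp only [y]; omega, hzS, wind_left z fun t ht h1 => ?_⟩
      have := hqa t ht
      omega
    have := tube hp hl y (h := 8 * ρ) (L := 64 * ρ) (by omega) (by omega)
      (by push_cast; linarith) (U := U) (H := H) (m := 1) (fun v hv => ?_) zero_le_one
      (fun v hv i => h0 _ ?_) (fun v hv => hsup v ?_ ((hU v).1 hv).2.1)
      (fun v hv i hi a1 a2 a3 => ?_) hzU (by simp only [y]; omega) (by simp only [y]; omega)
      (by simp only [y]; omega)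
    · simpa using this
    · have := ((hU v).1 hv).1; omega
    · have := ((hU v).1 hv).1
      have := dir_bound v i
      simp only [Hex, Prod.fst_sub, Prod.snd_sub, y] at *; omega
    · have := ((hU v).1 hv).1
      simp only [Hex, Prod.fst_sub, Prod.snd_sub, y] at *; omega
    · obtain ⟨h1, h1S, h1w⟩ := (hU v).1 hv
      have h2 := dir_bound v i
      by_cases h3 : S (v + dir i)
      · refine hS _ ?_ h3
        simp only [Hex, Prod.fst_sub, Prod.snd_sub, y] at *; omega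
      · exfalso
        have hw := wind_step_eq hq v i (fun t ht e => h1S (e ▸ (hqS t ht).1))
          (fun t ht e => h3 (e ▸ (hqS t ht).1)) (by simp only [y] at *; omega)
          (by simp only [y] at *; omega) (by simp only [y] at *; omega)
        rw [h1w] at hw
        rw [hU] at hi
        simp only [h3, hw, not_false_eq_true, and_true] at hi
        have := wind_right hq (v + dir i) (fun t ht e => by
          have := hqa t ht
          simp only [y] at *; omega) (by simp only [y] at *; omega) (by simp only [y] at *; omega)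
        omega
  have hx2 : ∀ v, Hex (33 * ρ + 4 * (2 * ρ) + 1) (v - (x + (42 * ρ) • dir 2)) →
      Hex (125 * ρ) (v - x) := by
    intro v hv
    simp only [Hex, Prod.fst_sub, Prod.snd_sub, Prod.fst_add, Prod.snd_add, dir,
      Matrix.cons_val, Prod.smul_mk, smul_eq_mul, mul_one, mul_neg] at hv ⊢
    omega
  have second := move_one p hp hl (x + (42 * ρ) • dir 2) (2 * ρ) (33 * ρ) (by omega) (by omega)
    (by omega) (by push_cast; nlinarith) S H cT hc0.le (fun v hv => h0 v (hx2 v hv))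
    (fun v hv => hsup v (hx2 v hv)) (fun v hv h1 => hc1.trans (hS v (hx2 v hv) h1)) third
  have hx1 : ∀ v, Hex (42 * ρ + 4 * ρ + 1) (v - x) → Hex (125 * ρ) (v - x) := by
    intro v hv
    simp only [Hex, Prod.fst_sub, Prod.snd_sub] at hv ⊢
    omega
  have first := move_two p hp hl x ρ (42 * ρ) hρ (by omega) le_rfl (by nlinarith) S H (cT * cT)
    (by positivity) (fun v hv => h0 v (hx1 v hv)) (fun v hv => hsup v (hx1 v hv))
    (fun v hv h1 => le_trans (by nlinarith) (hS v (hx1 v hv) h1)) second x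
    (by simp only [Hex, sub_self, Prod.fst_zero, Prod.snd_zero]; omega)
  calc cT ^ 3 = cT * (cT * cT) := by ring
    _ ≤ H x := first

theorem ell_rot' (k : Fin 3) (v x : Pt) : ell k (rot' v - rot' x) = ell (k + 1) (v - x) := by
  fin_cases k <;> simp [ell, rot'] <;> omega

theorem abs_succ {k : Fin 3} (h : AbsStmt lam k) : AbsStmt lam (k + 1) := by
  intro p hp hl x ρ hρ hlam S H h0 hsup hS q n hq0 hq hqS hqn
  have := h (rotP p) hp.rotP hl.rotP (rot' x) ρ hρ hlam (fun v => S (rot v))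
    (fun v => H (rot v)) (fun v hv => h0 _ (hex_rot hv))
    (fun v hv h1 => by rw [avg_rotP]; exact hsup _ (hex_rot hv) h1)
    (fun v hv h1 => hS _ (hex_rot hv) h1) (fun t => rot' (q t)) n (hex_rot' hq0)
    (fun t ht => by
      obtain ⟨j, hj⟩ := hq t ht
      refine ⟨j + 2, ?_⟩
      simp only [hj]
      fin_cases j <;> simp [rot', dir] <;> omega)
    (fun t ht => ⟨by simpa [rot_rot'] using (hqS t ht).1,
      fun j => by rw [ell_rot']; exact (hqS t ht).2 _⟩)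
    (by rw [ell_rot']; exact hqn)
  simpa [rot_rot'] using this

theorem abs_all (k : Fin 3) : AbsStmt lam k := by
  have h0 := abs_zero (lam := lam)
  have h1 := abs_succ h0
  rw [show (0 : Fin 3) + 1 = 1 by decide] at h1
  have h2 := abs_succ h1
  rw [show (1 : Fin 3) + 1 = 2 by decide] at h2
  have : k = 0 ∨ k = 1 ∨ k = 2 := by revert k; decide
  rcases this with rfl | rfl | rfl <;> assumption

theorem esc_path {V S : Finset Pt} {x a : Pt} {R : ℤ} (h : Esc V S a)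
    (hV : ∀ v, (∀ j, ell j (v - x) ≤ R + 1) → v ∈ V) (ha : ∀ j, ell j (a - x) ≤ R + 1) :
    ∃ (q : ℕ → Pt) (n : ℕ), q 0 = a ∧ (∀ t < n, ∃ j, q (t + 1) = q t + dir j) ∧
      (∀ t ≤ n, q t ∈ S ∧ ∀ j, ell j (q t - x) ≤ R + 1) ∧ ∃ k, R < ell k (q n - x) := by
  induction h with
  | out h => exact absurd (hV _ ha) h
  | @step a i h1 _ ih =>
    by_cases h2 : ∃ k, R < ell k (a - x)
    · exact ⟨fun _ => a, 0, rfl, fun t ht => absurd ht (by omega), fun t _ => ⟨h1, ha⟩, h2⟩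
    · push Not at h2
      obtain ⟨q, n, e0, e1, e2, e3⟩ := ih fun j => by
        have h3 := h2 j
        have h4 := dir_bound a i
        generalize a + dir i = w at *
        fin_cases j <;> simp [ell] at h3 ⊢ <;> omega
      refine ⟨fun t => Nat.casesOn t a q, n + 1, rfl, fun t ht => ?_, fun t ht => ?_, e3⟩
      · cases t with
        | zero => exact ⟨i, e0⟩
        | succ t => exact e1 t (by omega)
      · cases t with
        | zero => exact ⟨h1, ha⟩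
        | succ t => exact e2 t (by omega)

/-- Absorption estimate in lattice units. -/
theorem absorb (hp : Trans p) (hl : Near p lam) {V S : Finset Pt} (hS : Bar V S) {x s : Pt}
    {ρ : ℤ} (hρ : 2 ≤ ρ) (hlam : lam * ρ ≤ 1 / 160) (hs : s ∈ S) (hsx : Hex ρ (s - x))
    (hV : ∀ v, Hex (125 * ρ) (v - x) → v ∈ V) {g : Pt → ℝ} {m : ℝ} (hm : 0 < m)
    (hg : ∀ v, Hex (125 * ρ) (v - x) → g v ≤ m)
    (hsub : ∀ v, Hex (125 * ρ) (v - x) → v ∉ S → g v ≤ avg p g v)
    (hg0 : ∀ v, Hex (125 * ρ) (v - x) → v ∈ S → g v ≤ 0) : g x ≤ (1 - cT ^ 3) * m := by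
  obtain ⟨q, n, e0, e1, e2, k, e3⟩ := esc_path (x := x) (R := 17 * ρ) (hS s hs)
    (fun v hv => hV v (by
      have h0 := hv 0
      have h1 := hv 1
      have h2 := hv 2
      simp only [Hex, Prod.fst_sub, Prod.snd_sub]
      simp [ell] at h0 h1 h2
      omega))
    (fun j => by
      simp only [Hex, Prod.fst_sub, Prod.snd_sub] at hsx
      fin_cases j <;> simp [ell] <;> omega)
  have := abs_all (lam := lam) k p hp hl x ρ hρ hlam (fun v => v ∈ S)
    (fun v => 1 - m⁻¹ * g v)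
    (fun v hv => by
      have := hg v hv
      rw [sub_nonneg, ← div_eq_inv_mul, div_le_one hm]; exact this)
    (fun v hv h1 => by
      rw [avg_sub, avg_const hp, avg_const_mul]
      have := mul_le_mul_of_nonneg_left (hsub v hv h1) (inv_nonneg.2 hm.le)
      linarith)
    (fun v hv h1 => by
      have := mul_nonneg (inv_nonneg.2 hm.le) (neg_nonneg.2 (hg0 v hv h1))
      linarith) q n (e0 ▸ hsx) e1 e2 e3
  have h1 : m⁻¹ * g x ≤ 1 - cT ^ 3 := by linarith
  rw [← div_eq_inv_mul, div_le_iff₀ hm] at h1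
  exact h1

end Pool.Agent.Lib.MP_60c5b4_pr
end

-- part Pool.Agent.Lib.MP_60c5b4_pr.Est
section

/-!
Plane geometry of the lattice; exponential and polynomial (Beurling type) escape estimates.
-/

namespace Pool.Agent.Lib.MP_60c5b4_pr

open Finset Classical

theorem tau_re : tau.re = -1 / 2 := by
  have : (2 * Real.pi * Complex.I / 3 : ℂ) = ((2 * Real.pi / 3 : ℝ) : ℂ) * Complex.I := by
    push_cast; ring
  rw [tau, this, Complex.exp_ofReal_mul_I_re,
    show 2 * Real.pi / 3 = Real.pi - Real.pi / 3 by ring, Real.cos_pi_sub, Real.cos_pi_div_three]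
  norm_num

theorem tau_im : tau.im = √3 / 2 := by
  have : (2 * Real.pi * Complex.I / 3 : ℂ) = ((2 * Real.pi / 3 : ℝ) : ℂ) * Complex.I := by
    push_cast; ring
  rw [tau, this, Complex.exp_ofReal_mul_I_im,
    show 2 * Real.pi / 3 = Real.pi - Real.pi / 3 by ring, Real.sin_pi_sub, Real.sin_pi_div_three]

variable {δ : ℝ}

theorem pos_re (v : Pt) : (pos δ v).re = δ * (v.1 - v.2 / 2) := by
  simp [pos, tau_re]; left; ring

theorem pos_im (v : Pt) : (pos δ v).im = δ * (v.2 * (√3 / 2)) := by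
  simp [pos, tau_im]

theorem pos_add (u v : Pt) : pos δ (u + v) = pos δ u + pos δ v := by
  simp only [pos, Prod.fst_add, Prod.snd_add]; push_cast; ring

theorem pos_sub (u v : Pt) : pos δ (u - v) = pos δ u - pos δ v := by
  simp only [pos, Prod.fst_sub, Prod.snd_sub]; push_cast; ring

theorem sqrt3_sq : (√3 : ℝ) ^ 2 = 3 := Real.sq_sqrt (by norm_num)

theorem norm_pos_sq (v : Pt) :
    ‖pos δ v‖ ^ 2 = δ ^ 2 * ((v.1 : ℝ) ^ 2 - v.1 * v.2 + (v.2 : ℝ) ^ 2) := by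
  rw [Complex.sq_norm, Complex.normSq_apply, pos_re, pos_im]
  have := sqrt3_sq
  linear_combination (δ ^ 2 * (v.2 : ℝ) ^ 2 / 4) * this

theorem norm_pos_dir (hδ : 0 < δ) (i : Fin 3) : ‖pos δ (dir i)‖ = δ := by
  have : ‖pos δ (dir i)‖ ^ 2 = δ ^ 2 := by
    rw [norm_pos_sq]; fin_cases i <;> simp [dir]
  exact (pow_left_inj₀ (norm_nonneg _) hδ.le two_ne_zero).1 this

theorem dist_step (hδ : 0 < δ) (v : Pt) (i : Fin 3) : dist (pos δ (v + dir i)) (pos δ v) = δ := by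
  rw [dist_eq_norm, pos_add, add_sub_cancel_left, norm_pos_dir hδ]

theorem dist_next (hδ : 0 < δ) (σ : Cfg) (v : Pt) : dist (pos δ (next σ v)) (pos δ v) = δ :=
  dist_step hδ v _

theorem hex_of_dist (hδ : 0 < δ) {u v : Pt} {ρ : ℝ} {n : ℤ} (h : dist (pos δ u) (pos δ v) ≤ ρ)
    (hn : 2 * ρ ≤ δ * n) : Hex n (u - v) := by
  rw [dist_eq_norm, ← pos_sub] at h
  generalize u - v = w at *
  have h0 : 0 ≤ ρ := (norm_nonneg _).trans h
  have h1 : ‖pos δ w‖ ^ 2 ≤ ρ ^ 2 := pow_le_pow_left₀ (norm_nonneg _) h 2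
  have hn0 : (0 : ℝ) ≤ n := by
    by_contra h2
    push Not at h2
    nlinarith
  have h2 : (2 * ρ) ^ 2 ≤ (δ * n) ^ 2 := pow_le_pow_left₀ (by positivity) hn 2
  rw [norm_pos_sq] at h1
  have h3 : 4 * ((w.1 : ℝ) ^ 2 - w.1 * w.2 + (w.2 : ℝ) ^ 2) ≤ (n : ℝ) ^ 2 := by
    have : δ ^ 2 * (4 * ((w.1 : ℝ) ^ 2 - w.1 * w.2 + (w.2 : ℝ) ^ 2)) ≤ δ ^ 2 * (n : ℝ) ^ 2 := by
      nlinarith
    exact le_of_mul_le_mul_left this (by positivity)
  have a1 := abs_le_of_sq_le_sq' (a := (w.1 : ℝ)) (b := n)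
    (by nlinarith [sq_nonneg ((w.1 : ℝ) - 2 * w.2), sq_nonneg (w.1 : ℝ)]) hn0
  have a2 := abs_le_of_sq_le_sq' (a := (w.2 : ℝ)) (b := n)
    (by nlinarith [sq_nonneg ((w.2 : ℝ) - 2 * w.1), sq_nonneg (w.2 : ℝ)]) hn0
  have a3 := abs_le_of_sq_le_sq' (a := (w.1 : ℝ) - w.2) (b := n)
    (by nlinarith [sq_nonneg ((w.1 : ℝ) + w.2), sq_nonneg ((w.1 : ℝ) - w.2)]) hn0
  exact ⟨by exact_mod_cast a1.1, by exact_mod_cast a1.2, by exact_mod_cast a2.1,
    by exact_mod_cast a2.2, by exact_mod_cast a3.1, by exact_mod_cast a3.2⟩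

theorem dist_of_hex (hδ : 0 < δ) {u v : Pt} {n : ℤ} (h : Hex n (u - v)) :
    dist (pos δ u) (pos δ v) ≤ 2 * δ * n := by
  rw [dist_eq_norm, ← pos_sub]
  generalize u - v = w at *
  obtain ⟨a1, a2, a3, a4, -, -⟩ := h
  have b1 : -(n : ℝ) ≤ w.1 := by exact_mod_cast a1
  have b2 : (w.1 : ℝ) ≤ n := by exact_mod_cast a2
  have b3 : -(n : ℝ) ≤ w.2 := by exact_mod_cast a3
  have b4 : (w.2 : ℝ) ≤ n := by exact_mod_cast a4
  have hn : (0 : ℝ) ≤ n := by linarith
  refine abs_le_of_sq_le_sq' (a := ‖pos δ w‖) ?_ (by positivity) |>.2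
  rw [norm_pos_sq]
  have : (w.1 : ℝ) ^ 2 - w.1 * w.2 + (w.2 : ℝ) ^ 2 ≤ 4 * (n : ℝ) ^ 2 := by
    nlinarith [sq_nonneg ((w.1 : ℝ) + w.2), sq_nonneg (n : ℝ)]
  nlinarith [mul_le_mul_of_nonneg_left this (sq_nonneg δ)]

theorem eq_of_dist_lt (hδ : 0 < δ) {u v : Pt} (h : dist (pos δ u) (pos δ v) < δ) : u = v := by
  rw [dist_eq_norm, ← pos_sub] at h
  rw [← sub_eq_zero]
  generalize u - v = w at *
  have h1 : ‖pos δ w‖ ^ 2 < δ ^ 2 := pow_lt_pow_left₀ h (norm_nonneg _) two_ne_zero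
  rw [norm_pos_sq] at h1
  have h2 : (w.1 : ℝ) ^ 2 - w.1 * w.2 + (w.2 : ℝ) ^ 2 < 1 := by
    by_contra h3
    push Not at h3
    nlinarith [mul_le_mul_of_nonneg_left h3 (sq_nonneg δ)]
  have h3 : w.1 ^ 2 - w.1 * w.2 + w.2 ^ 2 < 1 := by exact_mod_cast h2
  have h4 : w.1 = 0 := by nlinarith [sq_nonneg (w.1 - 2 * w.2), sq_nonneg w.1]
  have h5 : w.2 = 0 := by nlinarith [sq_nonneg (w.2 - 2 * w.1), sq_nonneg w.2]
  exact Prod.ext h4 h5

theorem exists_near (hδ : 0 < δ) (z : ℂ) : ∃ v, dist (pos δ v) z ≤ δ := by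
  have h3 : (0 : ℝ) < √3 := by positivity
  have h3' : √3 ≤ (2 : ℝ) := by
    rw [Real.sqrt_le_iff]; norm_num
  let b : ℤ := round (2 * z.im / (√3 * δ))
  let a : ℤ := round (z.re / δ + b / 2)
  refine ⟨(a, b), ?_⟩
  have hb := abs_sub_round (2 * z.im / (√3 * δ))
  have ha := abs_sub_round (z.re / δ + b / 2)
  rw [dist_comm, dist_eq_norm]
  refine (Complex.norm_le_abs_re_add_abs_im _).trans ?_
  have e1 : (z - pos δ (a, b)).re = δ * (z.re / δ + b / 2 - a) := by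
    rw [Complex.sub_re, pos_re]; field_simp; ring
  have e2 : (z - pos δ (a, b)).im = δ * (√3 / 2) * (2 * z.im / (√3 * δ) - b) := by
    rw [Complex.sub_im, pos_im]; field_simp
  rw [e1, e2, abs_mul, abs_mul, abs_of_pos hδ, abs_of_pos (by positivity : 0 < δ * (√3 / 2))]
  have t1 := mul_le_mul_of_nonneg_left ha hδ.le
  have t2 := mul_le_mul_of_nonneg_left hb (by positivity : 0 ≤ δ * (√3 / 2))
  nlinarith

/-- A lattice point near a point of the plane. -/
noncomputable def nr (δ : ℝ) (z : ℂ) : Pt :=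
  if h : ∃ v, dist (pos δ v) z ≤ δ then h.choose else 0

theorem dist_nr (hδ : 0 < δ) (z : ℂ) : dist (pos δ (nr δ z)) z ≤ δ := by
  have h := exists_near hδ z
  simp only [nr, h, dif_pos]
  exact h.choose_spec

/-- A walk at mesh `δ` with drift bounded by `M`. -/
structure Nice (p : Pt → Fin 3 → ℝ) (δ M : ℝ) : Prop where
  trans : Trans p
  near : Near p (M * δ)
  pos : 0 < δ
  one : 1 ≤ M

/-- The contraction constant. -/
noncomputable def q0 : ℝ := 1 - cT ^ 3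

theorem q0_lt_one : q0 < 1 := by
  have := pow_pos cT_pos 3
  unfold q0; linarith

theorem q0_pos : 0 < q0 := by
  have h1 : cT < 1 := by
    unfold cT
    have : Real.exp (-88) ≤ 1 := Real.exp_le_one_iff.2 (by norm_num)
    linarith
  have := pow_lt_one₀ cT_pos.le h1 (n := 3) (by norm_num)
  unfold q0; linarith

variable {p : Pt → Fin 3 → ℝ} {M : ℝ} {V S : Finset Pt} {g : Pt → ℝ} {c : ℂ} {R : ℝ}

/-- `g` is a subsolution off `S`, at most `0` on `S` and at most `1`, in the ball `B(c, R)`. -/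
structure SubOn (p : Pt → Fin 3 → ℝ) (δ : ℝ) (V S : Finset Pt) (g : Pt → ℝ) (c : ℂ) (R : ℝ) :
    Prop where
  mem : ∀ v, dist (pos δ v) c ≤ R → v ∈ V
  le_one : ∀ v, dist (pos δ v) c ≤ R → g v ≤ 1
  sub : ∀ v, dist (pos δ v) c ≤ R → v ∉ S → g v ≤ avg p g v
  zero : ∀ v, dist (pos δ v) c ≤ R → v ∈ S → g v ≤ 0

theorem escape (hp : Nice p δ M) (hS : Bar V S) (hg : SubOn p δ V S g c R) {x s : Pt} {ρ m : ℝ}
    (hρ : δ ≤ ρ) (hM : M * ρ ≤ 1 / 480) (hs : s ∈ S) (hsx : dist (pos δ s) (pos δ x) ≤ ρ)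
    (hx : dist (pos δ x) c + 800 * ρ ≤ R) (hm : 0 < m)
    (hle : ∀ v, dist (pos δ v) (pos δ x) ≤ 800 * ρ → g v ≤ m) : g x ≤ q0 * m := by
  have hδ := hp.pos
  have h1 : 2 * ρ / δ ≤ (⌈2 * ρ / δ⌉ : ℤ) := Int.le_ceil _
  have h2 : ((⌈2 * ρ / δ⌉ : ℤ) : ℝ) < 2 * ρ / δ + 1 := Int.ceil_lt_add_one _
  have h3 : (2 : ℝ) ≤ 2 * ρ / δ := by rw [le_div_iff₀ hδ]; linarith
  set n : ℤ := ⌈2 * ρ / δ⌉
  have h4 : 2 * ρ ≤ δ * n := by rw [div_le_iff₀ hδ] at h1; linarith
  have h5 : δ * n ≤ 3 * ρ := by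
    have : δ * n ≤ δ * (2 * ρ / δ + 1) := mul_le_mul_of_nonneg_left h2.le hδ.le
    rw [mul_add, mul_div_cancel₀ _ hδ.ne'] at this
    linarith
  have hd : ∀ v, Hex (125 * n) (v - x) → dist (pos δ v) (pos δ x) ≤ 800 * ρ := by
    intro v hv
    have := dist_of_hex hδ hv
    push_cast at this
    nlinarith
  have hd' : ∀ v, Hex (125 * n) (v - x) → dist (pos δ v) c ≤ R := fun v hv => by
    have := dist_triangle (pos δ v) (pos δ x) c
    have := hd v hv
    linarith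
  have hn2 : 2 ≤ n := by exact_mod_cast h3.trans h1
  refine absorb hp.trans hp.near hS hn2 ?_ hs (hex_of_dist hδ hsx h4)
    (fun v hv => hg.mem v (hd' v hv)) hm (fun v hv => hle v (hd v hv))
    (fun v hv => hg.sub v (hd' v hv)) (fun v hv => hg.zero v (hd' v hv))
  have := mul_le_mul_of_nonneg_left h5 (zero_le_one.trans hp.one)
  nlinarith

/-- Exponential escape estimate from a dense barrier. -/
theorem exp_tail (hp : Nice p δ M) (hS : Bar V S) (hg : SubOn p δ V S g c R) {ρ : ℝ}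
    (hρ : δ ≤ ρ) (hM : M * ρ ≤ 1 / 480)
    (hden : ∀ v, dist (pos δ v) c ≤ R → ∃ s ∈ S, dist (pos δ s) (pos δ v) ≤ ρ) (j : ℕ) :
    ∀ x, dist (pos δ x) c + j * (800 * ρ) ≤ R → g x ≤ q0 ^ j := by
  have hρ0 : 0 < ρ := hp.pos.trans_le hρ
  induction j with
  | zero => intro x hx; simpa using hg.le_one x (by simpa using hx)
  | succ j ih =>
    intro x hx
    push_cast at hx
    have hj : (0 : ℝ) ≤ j * (800 * ρ) := by positivity
    obtain ⟨s, hs, hsx⟩ := hden x (by linarith)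
    rw [pow_succ']
    refine escape hp hS hg hρ hM hs hsx (by linarith) (pow_pos q0_pos j) fun v hv => ih v ?_
    have := dist_triangle (pos δ v) (pos δ x) c
    linarith

/-- Polynomial escape estimate from one long path. -/
theorem beurling (hp : Nice p δ M) (hS : Bar V S) (hg : SubOn p δ V S g c R) {s : Pt}
    (hs : s ∈ S) (hM : M * R ≤ 1 / 480) (j : ℕ) :
    ∀ (ρ : ℝ) (x : Pt), δ ≤ ρ → dist (pos δ s) (pos δ x) ≤ ρ →
      dist (pos δ s) c + 801 ^ j * ρ ≤ R → g x ≤ q0 ^ j := by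
  induction j with
  | zero =>
    intro ρ x _ h1 h2
    have := dist_triangle (pos δ x) (pos δ s) c
    rw [dist_comm] at h1
    simpa using hg.le_one x (by simp at h2; linarith)
  | succ j ih =>
    intro ρ x hρ h1 h2
    have hρ0 : 0 < ρ := hp.pos.trans_le hρ
    have h3 : (1 : ℝ) ≤ 801 ^ j := one_le_pow₀ (by norm_num)
    have h4 : 801 * ρ ≤ 801 ^ (j + 1) * ρ := by rw [pow_succ]; nlinarith
    have h5 := dist_triangle (pos δ x) (pos δ s) c
    have h6 := dist_nonneg (x := pos δ s) (y := c)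
    rw [pow_succ']
    refine escape hp hS hg hρ ?_ hs h1 (by rw [dist_comm] at h1; linarith) (pow_pos q0_pos j)
      fun v hv => ih (801 * ρ) v (by linarith) ?_ ?_
    · exact le_trans (mul_le_mul_of_nonneg_left (by linarith) (zero_le_one.trans hp.one)) hM
    · have := dist_triangle (pos δ s) (pos δ x) (pos δ v)
      rw [dist_comm] at hv
      linarith
    · rw [pow_succ] at h2; linarith

end Pool.Agent.Lib.MP_60c5b4_pr
end

-- part Pool.Agent.Lib.MP_60c5b4_pr.Log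
section

/-!
A branch is unlikely to visit a small ball far from its starting point.
-/

namespace Pool.Agent.Lib.MP_60c5b4_pr

open Finset Classical

theorem log_lower {u : ℝ} (h : |u| ≤ 1 / 2) :
    u - u ^ 2 / 2 - 2 * |u| ^ 3 ≤ Real.log (1 + u) ∧ |Real.log (1 + u)| ≤ 2 * |u| := by
  have h1 : |(-u)| < 1 := by rw [abs_neg]; linarith
  have h2 := Real.abs_log_sub_add_sum_range_le h1 2
  have h3 := Real.abs_log_sub_add_sum_range_le h1 0
  simp only [Finset.sum_range_succ, Finset.sum_range_zero, abs_neg, sub_neg_eq_add] at h2 h3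
  have h4 : ∀ n : ℕ, |u| ^ n / (1 - |u|) ≤ 2 * |u| ^ n := fun n => by
    rw [div_le_iff₀ (by linarith)]
    have : 0 ≤ |u| ^ n := by positivity
    nlinarith
  constructor
  · have := (abs_le.1 (h2.trans (h4 _))).1
    norm_num at this
    linarith
  · simpa using h3.trans (h4 _)

theorem sqrt_lower {u : ℝ} (h : |u| ≤ 1 / 2) :
    1 + u / 2 - u ^ 2 / 8 - |u| ^ 3 ≤ √(1 + u) ∧ |√(1 + u) - 1| ≤ |u| := by
  obtain ⟨h1, h2⟩ := abs_le.1 h
  constructor
  · refine Real.le_sqrt_of_sq_le ?_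
    rcases le_total 0 u with h0 | h0
    · rw [abs_of_nonneg h0]
      have : 0 ≤ u ^ 3 := by positivity
      have e : 1 + u - (1 + u / 2 - u ^ 2 / 8 - u ^ 3) ^ 2 =
          u ^ 3 * (17 / 8 + 63 / 64 * u - u ^ 2 / 4 - u ^ 3) := by ring
      have : 0 ≤ 17 / 8 + 63 / 64 * u - u ^ 2 / 4 - u ^ 3 := by nlinarith
      nlinarith
    · rw [abs_of_nonpos h0]
      have h3 : 0 ≤ (-u) ^ 3 := by have : 0 ≤ -u := by linarith
                                   positivity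
      have e : 1 + u - (1 + u / 2 - u ^ 2 / 8 - (-u) ^ 3) ^ 2 =
          (-u) ^ 3 * (15 / 8 + 65 / 64 * u - u ^ 2 / 4 + u ^ 3) := by ring
      have : 0 ≤ 15 / 8 + 65 / 64 * u - u ^ 2 / 4 + u ^ 3 := by nlinarith
      nlinarith
  · have h3 := Real.sq_sqrt (show 0 ≤ 1 + u by linarith)
    have h4 := Real.sqrt_nonneg (1 + u)
    have e : u = (√(1 + u) - 1) * (√(1 + u) + 1) := by nlinarith
    conv_rhs => rw [e, abs_mul]
    have : 1 ≤ |√(1 + u) + 1| := by rw [abs_of_nonneg (by linarith)]; linarith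
    nlinarith [abs_nonneg (√(1 + u) - 1)]

theorem drift_three {lam p0 p1 p2 x0 x1 x2 b0 b1 b2 : ℝ} (h0 : |p0 - 1 / 3| ≤ lam)
    (h1 : |p1 - 1 / 3| ≤ lam) (h2 : |p2 - 1 / 3| ≤ lam) (a0 : |x0| ≤ b0) (a1 : |x1| ≤ b1)
    (a2 : |x2| ≤ b2) :
    (x0 + x1 + x2) / 3 - lam * (b0 + b1 + b2) ≤ p0 * x0 + p1 * x1 + p2 * x2 := by
  have hl : 0 ≤ lam := (abs_nonneg _).trans h0
  have t0 : -(lam * b0) ≤ (p0 - 1 / 3) * x0 :=
    neg_le_of_abs_le (by rw [abs_mul]; exact mul_le_mul h0 a0 (abs_nonneg _) hl)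
  have t1 : -(lam * b1) ≤ (p1 - 1 / 3) * x1 :=
    neg_le_of_abs_le (by rw [abs_mul]; exact mul_le_mul h1 a1 (abs_nonneg _) hl)
  have t2 : -(lam * b2) ≤ (p2 - 1 / 3) * x2 :=
    neg_le_of_abs_le (by rw [abs_mul]; exact mul_le_mul h2 a2 (abs_nonneg _) hl)
  linarith

theorem radial_real {lam p0 p1 p2 u0 u1 u2 k : ℝ} (h0 : |p0 - 1 / 3| ≤ lam)
    (h1 : |p1 - 1 / 3| ≤ lam) (h2 : |p2 - 1 / 3| ≤ lam) (hk0 : 0 < k) (hk : k ≤ 1 / 250)
    (a0 : |u0| ≤ 3 * k) (a1 : |u1| ≤ 3 * k) (a2 : |u2| ≤ 3 * k)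
    (s1 : u0 + u1 + u2 = 3 * k ^ 2) (s2 : u0 ^ 2 + u1 ^ 2 + u2 ^ 2 = 6 * k ^ 2 + 3 * k ^ 4) :
    (-(55 * k ^ 3) - 18 * lam * k ≤
      p0 * Real.log (1 + u0) + p1 * Real.log (1 + u1) + p2 * Real.log (1 + u2)) ∧
    (k ^ 2 / 8 - 9 * lam * k ≤
      p0 * (√(1 + u0) - 1) + p1 * (√(1 + u1) - 1) + p2 * (√(1 + u2) - 1)) := by
  have c : ∀ u : ℝ, |u| ≤ 3 * k → |u| ≤ 1 / 2 ∧ |u| ^ 3 ≤ 27 * k ^ 3 := fun u h =>
    ⟨by linarith, by
      calc |u| ^ 3 ≤ (3 * k) ^ 3 := pow_le_pow_left₀ (abs_nonneg _) h 3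
        _ = _ := by ring⟩
  obtain ⟨c0, d0⟩ := c u0 a0
  obtain ⟨c1, d1⟩ := c u1 a1
  obtain ⟨c2, d2⟩ := c u2 a2
  have k4 : k ^ 4 ≤ k ^ 3 := by
    have : 0 < k ^ 3 := by positivity
    nlinarith
  have k3 : k ^ 3 ≤ k ^ 2 / 250 := by
    have : 0 < k ^ 2 := by positivity
    nlinarith
  have k3' : 0 < k ^ 3 := by positivity
  constructor
  · obtain ⟨l0, m0⟩ := log_lower c0
    obtain ⟨l1, m1⟩ := log_lower c1
    obtain ⟨l2, m2⟩ := log_lower c2
    have := drift_three h0 h1 h2 (m0.trans (by linarith : _ ≤ 6 * k))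
      (m1.trans (by linarith : _ ≤ 6 * k)) (m2.trans (by linarith : _ ≤ 6 * k))
    linarith
  · obtain ⟨l0, m0⟩ := sqrt_lower c0
    obtain ⟨l1, m1⟩ := sqrt_lower c1
    obtain ⟨l2, m2⟩ := sqrt_lower c2
    have := drift_three h0 h1 h2 (m0.trans a0) (m1.trans a1) (m2.trans a2)
    linarith

theorem exp_real {lam p0 p1 p2 : ℝ} (h0 : |p0 - 1 / 3| ≤ lam)
    (h1 : |p1 - 1 / 3| ≤ lam) (h2 : |p2 - 1 / 3| ≤ lam) (hl : lam ≤ 1 / 40) :
    60 * lam ^ 2 ≤ p0 * (Real.exp (40 * lam) - 1) + p1 * (Real.exp (-(20 * lam)) - 1) +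
      p2 * (Real.exp (-(20 * lam)) - 1) := by
  have hl0 : 0 ≤ lam := (abs_nonneg _).trans h0
  set t := 20 * lam with ht
  have ht0 : 0 ≤ t := by positivity
  have ht1 : t ≤ 1 / 2 := by linarith
  set θ := Real.exp t with hθ
  have hθ1 : 1 + t ≤ θ := by have := Real.add_one_le_exp t; linarith
  have hθ2 : θ ≤ 1 + 3 / 2 * t := by
    have h1 := Real.abs_exp_sub_one_sub_id_le (x := t) (by rw [abs_of_nonneg ht0]; linarith)
    have h2 := (abs_le.1 h1).2
    nlinarith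
  have hθ0 : 0 < θ := by linarith
  have e1 : Real.exp (40 * lam) = θ ^ 2 := by
    rw [hθ, ← Real.exp_nat_mul]; congr 1; rw [ht]; push_cast; ring
  have e2 : Real.exp (-t) = θ⁻¹ := Real.exp_neg t
  have b1 : |θ ^ 2 - 1| ≤ 5 * t := by
    rw [abs_of_nonneg (by nlinarith)]; nlinarith
  have b3 : 1 - t ≤ θ⁻¹ := by have := Real.add_one_le_exp (-t); rw [e2] at this; linarith
  have b4 : θ⁻¹ ≤ 1 := inv_le_one_of_one_le₀ (by linarith)
  have b2 : |θ⁻¹ - 1| ≤ t := abs_le.2 ⟨by linarith, by linarith⟩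
  have b5 : 3 * (t ^ 2 / 2) ≤ θ ^ 2 - 1 + (θ⁻¹ - 1) + (θ⁻¹ - 1) := by
    have e : θ ^ 2 - 1 + (θ⁻¹ - 1) + (θ⁻¹ - 1) = (θ - 1) ^ 2 * (1 + 2 * θ⁻¹) := by
      field_simp; ring
    have : t ^ 2 ≤ (θ - 1) ^ 2 := pow_le_pow_left₀ ht0 (by linarith) 2
    rw [e]
    nlinarith [sq_nonneg t]
  have := drift_three h0 h1 h2 b1 b2 b2
  rw [e1, e2]
  nlinarith

variable {p : Pt → Fin 3 → ℝ} {δ M : ℝ}

theorem pos_dir_re (δ : ℝ) : (pos δ (dir 0)).re = δ ∧ (pos δ (dir 1)).re = -(δ / 2) ∧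
    (pos δ (dir 2)).re = -(δ / 2) := by
  simp only [pos_re, dir]
  refine ⟨?_, ?_, ?_⟩ <;> simp <;> ring

theorem pos_dir_im (δ : ℝ) : (pos δ (dir 0)).im = 0 ∧ (pos δ (dir 1)).im = δ * (√3 / 2) ∧
    (pos δ (dir 2)).im = -(δ * (√3 / 2)) := by
  simp only [pos_im, dir]
  refine ⟨?_, ?_, ?_⟩ <;> simp

/-- The supersolution. -/
noncomputable def logF (M A : ℝ) (ζ : ℂ) : ℝ :=
  -Real.log (‖ζ‖ ^ 2) - 152 * M * ‖ζ‖ - A * Real.exp (40 * M * ζ.re)

theorem logF_alg {δ M r A E l p0 p1 p2 l0 l1 l2 s0 s1 s2 x0 x1 : ℝ} (hδ : 0 < δ) (hM : 1 ≤ M)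
    (hr0 : 0 < r) (h2 : 55 * δ ≤ r ^ 2) (hs : p0 + p1 + p2 = 1) (hAE : 23 ≤ A * E)
    (L1 : -(55 * (δ / r) ^ 3) - 18 * (M * δ) * (δ / r) ≤ p0 * l0 + p1 * l1 + p2 * l2)
    (L2 : (δ / r) ^ 2 / 8 - 9 * (M * δ) * (δ / r) ≤
      p0 * (s0 - 1) + p1 * (s1 - 1) + p2 * (s2 - 1))
    (L3 : 60 * (M * δ) ^ 2 ≤ p0 * (x0 - 1) + p1 * (x1 - 1) + p2 * (x1 - 1)) :
    p0 * (-(l + l0) - 152 * M * (r * s0) - A * (E * x0)) +
      p1 * (-(l + l1) - 152 * M * (r * s1) - A * (E * x1)) +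
      p2 * (-(l + l2) - 152 * M * (r * s2) - A * (E * x1)) ≤ -l - 152 * M * r - A * E := by
  set k := δ / r with hk
  have hk0 : 0 < k := by positivity
  have t1 := mul_le_mul_of_nonneg_left L2 (by positivity : 0 ≤ 152 * M * r)
  have t2 := mul_le_mul_of_nonneg_left L3 (by linarith : 0 ≤ A * E)
  have t3 : 23 * (60 * (M * δ) ^ 2) ≤ A * E * (60 * (M * δ) ^ 2) :=
    mul_le_mul_of_nonneg_right hAE (by positivity)
  have t4 : 152 * M * r * (k ^ 2 / 8 - 9 * (M * δ) * k) =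
      19 * (M * δ) * k - 1368 * (M * δ) ^ 2 := by rw [hk]; field_simp; ring
  have t5 : 55 * k ^ 3 ≤ M * δ * k := by
    have : 55 * k ^ 2 ≤ δ := by
      rw [hk, div_pow, ← mul_div_assoc, div_le_iff₀ (by positivity)]; nlinarith
    have h6 : δ ≤ M * δ := by nlinarith
    nlinarith
  have hp2 : p2 = 1 - p0 - p1 := by linarith
  subst hp2
  linarith [sq_nonneg (M * δ)]

theorem logF_super (hp : Nice p δ M) {w : ℂ} {v : Pt} {B : ℝ} (hB : ‖pos δ v - w‖ ≤ B)
    (h1 : 250 * δ ≤ ‖pos δ v - w‖) (h2 : 55 * δ ≤ ‖pos δ v - w‖ ^ 2) (h3 : M * δ ≤ 1 / 40) :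
    avg p (fun x => logF M (23 * Real.exp (40 * M * B)) (pos δ x - w)) v ≤
      logF M (23 * Real.exp (40 * M * B)) (pos δ v - w) := by
  have hδ := hp.pos
  have hM := hp.one
  set ζ := pos δ v - w with hζ
  set r := ‖ζ‖ with hr
  have hr0 : 0 < r := by linarith
  have hs := hp.trans.sum v
  rw [Fin.sum_univ_three] at hs
  have hq : r ^ 2 = ζ.re ^ 2 + ζ.im ^ 2 := by
    rw [hr, Complex.sq_norm, Complex.normSq_apply]; ring
  let u : Fin 3 → ℝ := fun i =>
    (2 * (ζ.re * (pos δ (dir i)).re + ζ.im * (pos δ (dir i)).im) + δ ^ 2) / r ^ 2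
  have e0 : ∀ i, pos δ (v + dir i) - w = ζ + pos δ (dir i) := fun i => by
    rw [pos_add, hζ]; ring
  have e1 : ∀ i, ‖ζ + pos δ (dir i)‖ ^ 2 = r ^ 2 * (1 + u i) := fun i => by
    have := norm_pos_dir hδ i
    have h4 : δ ^ 2 = (pos δ (dir i)).re ^ 2 + (pos δ (dir i)).im ^ 2 := by
      rw [← this, Complex.sq_norm, Complex.normSq_apply, this]; ring
    rw [Complex.sq_norm, Complex.normSq_apply]
    simp only [u, Complex.add_re, Complex.add_im]
    field_simp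
    rw [hq, h4]; ring
  set k := δ / r with hk
  have hk0 : 0 < k := by positivity
  have hk1 : k ≤ 1 / 250 := by rw [hk, div_le_iff₀ hr0]; linarith
  have ha : ∀ i, |u i| ≤ 3 * k := fun i => by
    have h4 : |ζ.re * (pos δ (dir i)).re + ζ.im * (pos δ (dir i)).im| ≤ r * δ := by
      have := Complex.abs_re_le_norm (ζ * (starRingEnd ℂ) (pos δ (dir i)))
      rw [norm_mul, Complex.norm_conj, norm_pos_dir hδ] at this
      simpa using this
    have h5 : δ ^ 2 ≤ r * δ := by nlinarith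
    simp only [u]
    rw [abs_div, abs_of_pos (by positivity : 0 < r ^ 2), div_le_iff₀ (by positivity)]
    have e : 3 * k * r ^ 2 = 3 * (r * δ) := by rw [hk]; field_simp
    rw [e]
    obtain ⟨h6, h7⟩ := abs_le.1 h4
    exact abs_le.2 ⟨by nlinarith [sq_nonneg δ], by linarith⟩
  obtain ⟨r0, r1, r2⟩ := pos_dir_re δ
  obtain ⟨i0, i1, i2⟩ := pos_dir_im δ
  have s1 : u 0 + u 1 + u 2 = 3 * k ^ 2 := by
    simp only [u, r0, r1, r2, i0, i1, i2, hk]; field_simp; ring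
  have s2 : u 0 ^ 2 + u 1 ^ 2 + u 2 ^ 2 = 6 * k ^ 2 + 3 * k ^ 4 := by
    simp only [u, r0, r1, r2, i0, i1, i2, hk]
    field_simp
    have := sqrt3_sq
    rw [hq]
    linear_combination (2 * δ ^ 2 * ζ.im ^ 2) * this
  obtain ⟨L1, L2⟩ := radial_real (hp.near v 0) (hp.near v 1) (hp.near v 2) hk0 hk1
    (ha 0) (ha 1) (ha 2) s1 s2
  have L3 := exp_real (hp.near v 0) (hp.near v 1) (hp.near v 2) h3
  have hu : ∀ i, 0 < 1 + u i := fun i => by
    have := (abs_le.1 (ha i)).1; linarith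
  have f1 : ∀ i, Real.log (‖ζ + pos δ (dir i)‖ ^ 2) = Real.log (r ^ 2) + Real.log (1 + u i) :=
    fun i => by rw [e1, Real.log_mul (by positivity) (hu i).ne']
  have f2 : ∀ i, ‖ζ + pos δ (dir i)‖ = r * √(1 + u i) := fun i => by
    rw [← Real.sqrt_sq (norm_nonneg (ζ + pos δ (dir i))), e1, Real.sqrt_mul (by positivity),
      Real.sqrt_sq hr0.le]
  set E := Real.exp (40 * M * ζ.re) with hE
  have g0 : Real.exp (40 * M * (ζ + pos δ (dir 0)).re) = E * Real.exp (40 * (M * δ)) := by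
    rw [Complex.add_re, r0, hE, ← Real.exp_add]; congr 1; ring
  have g1 : Real.exp (40 * M * (ζ + pos δ (dir 1)).re) = E * Real.exp (-(20 * (M * δ))) := by
    rw [Complex.add_re, r1, hE, ← Real.exp_add]; congr 1; ring
  have g2 : Real.exp (40 * M * (ζ + pos δ (dir 2)).re) = E * Real.exp (-(20 * (M * δ))) := by
    rw [Complex.add_re, r2, hE, ← Real.exp_add]; congr 1; ring
  set A := 23 * Real.exp (40 * M * B) with hA
  have hAE : 23 ≤ A * E := by
    have : -r ≤ ζ.re := (abs_le.1 (Complex.abs_re_le_norm ζ)).1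
    have h5 : 0 ≤ 40 * M * B + 40 * M * ζ.re := by nlinarith
    have := Real.one_le_exp h5
    rw [Real.exp_add] at this
    rw [hA, hE]; linarith
  simp only [avg, Fin.sum_univ_three, logF, e0, f1, g0, g1, g2]
  simp only [f2]
  rw [← hr, ← hE]
  exact logF_alg hδ hM hr0 h2 hs hAE L1 L2 L3

theorem log_est {M B s η : ℝ} (hM : 1 ≤ M) (hB : 0 < B) (hs : 0 < s) (hη : 0 < η) :
    ∃ ε > 0, ∃ δ0 > 0, ∀ δ ≤ δ0, ∀ p, Nice p δ M → ∀ (V : Finset Pt) (w : ℂ),
      (∀ v ∈ V, dist (pos δ v) w ≤ B) → ∀ x, s ≤ dist (pos δ x) w →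
      Pr V p V (fun σ => ∃ y ∈ branch V σ x, dist (pos δ y) w ≤ ε) ≤ η := by
  set A := 23 * Real.exp (40 * M * B) with hA
  have hA0 : 0 < A := by positivity
  set C := 152 * M * (B + 1) + A * Real.exp (40 * M * (B + 1)) with hC
  set T := |Real.log ((B + 1) ^ 2) - Real.log (s ^ 2) + C| + 1 with hT
  have hT0 : 0 < T := by positivity
  set ε := (B + 1) * Real.exp (-(T / η / 2)) with hε
  have hε0 : 0 < ε := by positivity
  have hlog : Real.log ((B + 1) ^ 2) - Real.log (ε ^ 2) = T / η := by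
    rw [hε, mul_pow, Real.log_mul (by positivity) (by positivity), Real.log_pow (Real.exp _),
      Real.log_exp]
    push_cast; ring
  refine ⟨ε, hε0, min (min (ε / 250) (ε ^ 2 / 55)) (min 1 (1 / (40 * M))), by positivity,
    fun δ hδ0 p hp V w hV x hx => ?_⟩
  have hδ := hp.pos
  have d1 : δ ≤ ε / 250 := hδ0.trans ((min_le_left _ _).trans (min_le_left _ _))
  have d2 : δ ≤ ε ^ 2 / 55 := hδ0.trans ((min_le_left _ _).trans (min_le_right _ _))
  have d3 : δ ≤ 1 := hδ0.trans ((min_le_right _ _).trans (min_le_left _ _))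
  have d4 : M * δ ≤ 1 / 40 := by
    have : δ ≤ 1 / (40 * M) := hδ0.trans ((min_le_right _ _).trans (min_le_right _ _))
    rw [le_div_iff₀ (by positivity)] at this
    linarith
  simp only [dist_eq_norm] at hV hx ⊢
  let W := V.filter fun y => ‖pos δ y - w‖ ≤ ε
  let G : Pt → ℝ := fun v => η / T * (logF M A (pos δ v - w) + (Real.log ((B + 1) ^ 2) + C))
  have hc : 0 < η / T := by positivity
  have low : ∀ ζ : ℂ, ‖ζ‖ ≤ B + 1 → -Real.log (‖ζ‖ ^ 2) - C ≤ logF M A ζ := by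
    intro ζ h
    have h1 : ζ.re ≤ B + 1 := (abs_le.1 (Complex.abs_re_le_norm ζ)).2.trans h
    have h2 : Real.exp (40 * M * ζ.re) ≤ Real.exp (40 * M * (B + 1)) :=
      Real.exp_le_exp.2 (mul_le_mul_of_nonneg_left h1 (by positivity))
    have h3 := mul_le_mul_of_nonneg_left h2 hA0.le
    have h4 := mul_le_mul_of_nonneg_left h (by positivity : 0 ≤ 152 * M)
    unfold logF
    rw [hC]; linarith
  have out : ∀ v, v ∉ V \ W → 0 < ‖pos δ v - w‖ → ‖pos δ v - w‖ ≤ B + 1 → ind (v ∈ V) ≤ G v := by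
    intro v hv h0 h1
    have h2 := low _ h1
    by_cases h : v ∈ V
    · have h3 : ‖pos δ v - w‖ ≤ ε := by
        by_contra h4
        exact hv (Finset.mem_sdiff.2 ⟨h, fun h5 => h4 (Finset.mem_filter.1 h5).2⟩)
      have h4 : Real.log (‖pos δ v - w‖ ^ 2) ≤ Real.log (ε ^ 2) :=
        Real.log_le_log (by positivity) (pow_le_pow_left₀ h0.le h3 2)
      rw [ind_pos h]
      have h5 : T / η ≤ logF M A (pos δ v - w) + (Real.log ((B + 1) ^ 2) + C) := by linarith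
      calc (1 : ℝ) = η / T * (T / η) := by field_simp
        _ ≤ _ := mul_le_mul_of_nonneg_left h5 hc.le
    · have h4 : Real.log (‖pos δ v - w‖ ^ 2) ≤ Real.log ((B + 1) ^ 2) :=
        Real.log_le_log (by positivity) (pow_le_pow_left₀ h0.le h1 2)
      rw [ind_neg h]
      exact mul_nonneg hc.le (by linarith)
  have hGx : G x ≤ η := by
    have h1 : Real.log (s ^ 2) ≤ Real.log (‖pos δ x - w‖ ^ 2) :=
      Real.log_le_log (by positivity) (pow_le_pow_left₀ hs.le hx 2)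
    have h2 : logF M A (pos δ x - w) ≤ -Real.log (s ^ 2) := by
      unfold logF
      have : 0 ≤ 152 * M * ‖pos δ x - w‖ := by positivity
      have : 0 ≤ A * Real.exp (40 * M * (pos δ x - w).re) := by positivity
      linarith
    have h3 := le_abs_self (Real.log ((B + 1) ^ 2) - Real.log (s ^ 2) + C)
    have h4 : logF M A (pos δ x - w) + (Real.log ((B + 1) ^ 2) + C) ≤ T := by linarith
    calc G x ≤ η / T * T := mul_le_mul_of_nonneg_left h4 hc.le
      _ = η := by field_simp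
  have h1 := visit_le_HE (V := V) (D := V) hp.trans le_rfl W x
  refine le_trans (le_trans (Pr_mono hp.trans fun σ _ ⟨y, hy, h⟩ =>
    ⟨y, hy, Finset.mem_filter.2 ⟨branch_subset hy, h⟩⟩) h1) ?_
  by_cases hxU : x ∈ V \ W
  · refine le_trans (compare (U := V \ W) hp.trans (w := G) (fun v hv => ?_)
      (fun v hv i hi => ?_) x hxU) hGx
    · rw [← HE_harmonic hp.trans Finset.sdiff_subset hv, sub_self, sub_nonneg]
      obtain ⟨hvV, hvW⟩ := Finset.mem_sdiff.1 hv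
      have h2 : ε < ‖pos δ v - w‖ := by
        by_contra h3
        exact hvW (Finset.mem_filter.2 ⟨hvV, not_lt.1 h3⟩)
      have h3 := logF_super hp (hV v hvV) (by linarith)
        (by nlinarith [pow_le_pow_left₀ hε0.le h2.le 2]) d4
      simp only [G]
      rw [avg_const_mul, avg_add, avg_const hp.trans]
      exact mul_le_mul_of_nonneg_left (by linarith) hc.le
    · rw [HE_of_not_mem hp.trans _ hi]
      obtain ⟨hvV, hvW⟩ := Finset.mem_sdiff.1 hv
      have h2 : ε < ‖pos δ v - w‖ := by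
        by_contra h3
        exact hvW (Finset.mem_filter.2 ⟨hvV, not_lt.1 h3⟩)
      have h3 := dist_step hδ v i
      have h4 := dist_triangle (pos δ (v + dir i)) (pos δ v) w
      have h5 := dist_triangle (pos δ v) (pos δ (v + dir i)) w
      rw [dist_comm (pos δ v) (pos δ (v + dir i)), h3] at h5
      rw [h3] at h4
      simp only [dist_eq_norm] at h4 h5
      have := hV v hvV
      exact out _ hi (by linarith) (by linarith)
  · rw [HE_of_not_mem hp.trans _ hxU]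
    by_cases h : x ∈ V
    · exact (out x hxU (by linarith) (by have := hV x h; linarith)).trans hGx
    · rw [ind_neg h]; exact hη.le

end Pool.Agent.Lib.MP_60c5b4_pr
end
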