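import Pool.Agent.Lib.MP_60c5b4_pr.Log

-- part Pool.Agent.Lib.MP_60c5b4_pr.Tail
section

/-!
Estimates for one new branch attached to a barrier.
-/

namespace Pool.Agent.Lib.MP_60c5b4_pr

open Finset Classical

variable {p : Pt → Fin 3 → ℝ} {δ M : ℝ} {V S : Finset Pt} {c : ℂ} {R : ℝ}

theorem subOn_leave (hp : Trans p) (hV : ∀ v, dist (pos δ v) c ≤ R → v ∈ V) :
    SubOn p δ V S (HE V p ((V \ S) \ (V \ S).filter fun y => R < dist (pos δ y) c)
      fun r => ind (r ∈ V \ S)) c R := by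
  refine ⟨hV, fun v _ => HE_le hp (fun _ _ => ind_le_one _) v, fun v hv h1 => ?_,
    fun v _ h1 => ?_⟩
  · refine (HE_harmonic hp (Finset.sdiff_subset.trans Finset.sdiff_subset) ?_ _).le
    simp [hV v hv, h1, hv]
  · rw [HE_of_not_mem hp _ (by simp [h1]), ind_neg (by simp [h1])]

theorem leave_le (hp : Trans p) (x : Pt) :
    Pr V p (V \ S) (fun σ => ∃ y ∈ branch (V \ S) σ x, R < dist (pos δ y) c) ≤
      HE V p ((V \ S) \ (V \ S).filter fun y => R < dist (pos δ y) c)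
        (fun r => ind (r ∈ V \ S)) x :=
  le_trans (Pr_mono hp fun _ _ ⟨y, hy, h⟩ =>
    ⟨y, hy, Finset.mem_filter.2 ⟨branch_subset hy, h⟩⟩) (visit_le_HE hp Finset.sdiff_subset _ x)

theorem leave_exp (hp : Nice p δ M) (hS : Bar V S) (hV : ∀ v, dist (pos δ v) c ≤ R → v ∈ V)
    {ρ : ℝ} (hρ : δ ≤ ρ) (hM : M * ρ ≤ 1 / 480)
    (hden : ∀ v, dist (pos δ v) c ≤ R → ∃ s ∈ S, dist (pos δ s) (pos δ v) ≤ ρ) {j : ℕ} {x : Pt}
    (hx : dist (pos δ x) c + j * (800 * ρ) ≤ R) :
    Pr V p (V \ S) (fun σ => ∃ y ∈ branch (V \ S) σ x, R < dist (pos δ y) c) ≤ q0 ^ j :=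
  (leave_le hp.trans x).trans (exp_tail hp hS (subOn_leave hp.trans hV) hρ hM hden j x hx)

theorem leave_beur (hp : Nice p δ M) (hS : Bar V S) (hV : ∀ v, dist (pos δ v) c ≤ R → v ∈ V)
    (hM : M * R ≤ 1 / 480) {s x : Pt} (hs : s ∈ S) {ρ : ℝ} {j : ℕ} (hρ : δ ≤ ρ)
    (hx : dist (pos δ s) (pos δ x) ≤ ρ) (hR : dist (pos δ s) c + 801 ^ j * ρ ≤ R) :
    Pr V p (V \ S) (fun σ => ∃ y ∈ branch (V \ S) σ x, R < dist (pos δ y) c) ≤ q0 ^ j :=
  (leave_le hp.trans x).trans (beurling hp hS (subOn_leave hp.trans hV) hs hM j ρ x hρ hx hR)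

/-- The new branch rarely comes close to the barrier far from its end point. -/
theorem near_touch (hp : Nice p δ M) (hS : Bar V S) (hV : ∀ v, dist (pos δ v) c ≤ R → v ∈ V)
    (hM : M * R ≤ 1 / 480) {a ρ : ℝ} {j : ℕ} (hρ : δ ≤ ρ) (hR : a + ρ + 801 ^ j * ρ ≤ R)
    (x : Pt) :
    Pr V p (V \ S) (fun σ => (∃ y ∈ branch (V \ S) σ x, dist (pos δ y) c ≤ a ∧
      ∃ s ∈ S, dist (pos δ s) (pos δ y) ≤ ρ) ∧ R < dist (pos δ (root (V \ S) σ x)) c) ≤
      q0 ^ j := by
  have hg : SubOn p δ V S (HE V p (V \ S) fun r => ind (r ∉ V \ S ∧ R < dist (pos δ r) c))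
      c R := by
    refine ⟨hV, fun v _ => HE_le hp.trans (fun _ _ => ind_le_one _) v, fun v hv h1 => ?_,
      fun v hv h1 => ?_⟩
    · exact (HE_harmonic hp.trans Finset.sdiff_subset (by simp [hV v hv, h1]) _).le
    · rw [HE_of_not_mem hp.trans _ (by simp [h1]), ind_neg (fun h => absurd hv (not_le.2 h.2))]
  have := visit_end_le (V := V) (D := V \ S) hp.trans Finset.sdiff_subset
    (V.filter fun y => dist (pos δ y) c ≤ a ∧ ∃ s ∈ S, dist (pos δ s) (pos δ y) ≤ ρ)
    (fun r => R < dist (pos δ r) c) x (pow_pos q0_pos j).le fun y hy _ => by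
      obtain ⟨-, h1, s, hs, h2⟩ := Finset.mem_filter.1 hy
      refine beurling hp hS hg hs hM j ρ y hρ h2 ?_
      have := dist_triangle (pos δ s) (pos δ y) c
      linarith
  exact le_trans (Pr_mono hp.trans fun _ _ ⟨⟨y, hy, h⟩, h'⟩ => ⟨⟨y, hy, Finset.mem_filter.2
    ⟨Finset.sdiff_subset (branch_subset hy), h⟩⟩, h'⟩) this

/-- Radius of the branch seen from its starting point. -/
noncomputable def rad (δ : ℝ) (D : Finset Pt) (σ : Cfg) (x : Pt) : ℝ :=
  δ + (((branch D σ x).sup fun y => nndist (pos δ y) (pos δ x) : NNReal) : ℝ)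

theorem dist_le_rad {D : Finset Pt} {σ : Cfg} {x y : Pt} (hy : y ∈ branch D σ x) :
    δ + dist (pos δ y) (pos δ x) ≤ rad δ D σ x := by
  have := Finset.le_sup (f := fun y => nndist (pos δ y) (pos δ x)) hy
  unfold rad
  rw [← coe_nndist]
  exact add_le_add le_rfl (by exact_mod_cast this)

theorem rad_pos (hδ : 0 < δ) {D : Finset Pt} {σ : Cfg} {x : Pt} : 0 < rad δ D σ x := by
  unfold rad; positivity

theorem rad_le {D : Finset Pt} {σ : Cfg} {x : Pt} {t : ℝ} (ht : 0 ≤ t)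
    (h : ∀ y ∈ branch D σ x, dist (pos δ y) (pos δ x) ≤ t) : rad δ D σ x ≤ δ + t := by
  have : ((branch D σ x).sup fun y => nndist (pos δ y) (pos δ x)) ≤ t.toNNReal :=
    Finset.sup_le fun y hy => by
      rw [← NNReal.coe_le_coe, coe_nndist, Real.coe_toNNReal t ht]; exact h y hy
  rw [← NNReal.coe_le_coe, Real.coe_toNNReal t ht] at this
  unfold rad
  exact add_le_add le_rfl this

theorem root_le_rad (hδ : 0 < δ) {D : Finset Pt} {σ : Cfg} (hσ : IsTree D σ) (x : Pt) :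
    dist (pos δ (root D σ x)) (pos δ x) ≤ rad δ D σ x := by
  by_cases hx : x ∈ D
  · obtain ⟨y, hy, e⟩ := (hσ.exits x).last hx
    have h1 := dist_le_rad (δ := δ) hy
    have h2 := dist_triangle (pos δ (next σ y)) (pos δ y) (pos δ x)
    rw [dist_next hδ] at h2
    rw [e]; linarith
  · rw [root_of_not_mem hx, dist_self]; exact (rad_pos hδ).le

/-- The second moment constant. -/
noncomputable def cRad : ℝ := 801 ^ 2 * ∑' j : ℕ, ((j : ℝ) + 1) ^ 2 * q0 ^ j

theorem summable_rad : Summable fun j : ℕ => ((j : ℝ) + 1) ^ 2 * q0 ^ j := by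
  have hq : ‖q0‖ < 1 := by rw [Real.norm_eq_abs, abs_of_pos q0_pos]; exact q0_lt_one
  have h2 := summable_pow_mul_geometric_of_norm_lt_one 2 hq
  have h1 := summable_pow_mul_geometric_of_norm_lt_one 1 hq
  have h0 := summable_pow_mul_geometric_of_norm_lt_one 0 hq
  refine ((h2.add (h1.mul_left 2)).add h0).congr fun j => by ring

theorem cRad_nonneg : 0 ≤ cRad :=
  mul_nonneg (by norm_num) (tsum_nonneg fun j => by have := q0_pos; positivity)

theorem rad_moment (hp : Nice p δ M) (hS : Bar V S) {x : Pt} {ρ B : ℝ} {m : ℕ}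
    (hV : ∀ v, dist (pos δ v) (pos δ x) ≤ m * (800 * ρ) → v ∈ V) (hρ : δ ≤ ρ)
    (hM : M * ρ ≤ 1 / 480)
    (hden : ∀ v, dist (pos δ v) (pos δ x) ≤ m * (800 * ρ) →
      ∃ s ∈ S, dist (pos δ s) (pos δ v) ≤ ρ)
    (hB0 : 0 ≤ B) (hB : ∀ v ∈ V, dist (pos δ v) (pos δ x) ≤ B) :
    PE V p (V \ S) (fun σ => rad δ (V \ S) σ x ^ 2) ≤ cRad * ρ ^ 2 + (δ + B) ^ 2 * q0 ^ m := by
  have hδ := hp.pos
  have hρ0 : 0 < ρ := hδ.trans_le hρ
  let E : ℕ → Cfg → Prop := fun j σ =>
    j = 0 ∨ ∃ y ∈ branch (V \ S) σ x, j * (800 * ρ) < dist (pos δ y) (pos δ x)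
  have hE : ∀ j ≤ m, Pr V p (V \ S) (E j) ≤ q0 ^ j := by
    intro j hj
    rcases Nat.eq_zero_or_pos j with rfl | h0
    · simpa using Pr_le_one hp.trans _
    · have hjm : (j : ℝ) * (800 * ρ) ≤ m * (800 * ρ) :=
        mul_le_mul_of_nonneg_right (by exact_mod_cast hj) (by positivity)
      refine le_trans (Pr_mono hp.trans fun σ _ h => h.resolve_left h0.ne')
        (leave_exp hp hS (fun v hv => hV v (hv.trans hjm)) hρ hM
          (fun v hv => hden v (hv.trans hjm)) (by simp))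
  have hpt : ∀ σ, rad δ (V \ S) σ x ^ 2 ≤
      ∑ j ∈ range m, (801 * ρ * (j + 1)) ^ 2 * ind (E j σ) + (δ + B) ^ 2 * ind (E m σ) := by
    intro σ
    have hr := rad_pos hδ (D := V \ S) (σ := σ) (x := x)
    have n1 : ∀ j ∈ range m, 0 ≤ (801 * ρ * (j + 1)) ^ 2 * ind (E j σ) := fun j _ =>
      mul_nonneg (sq_nonneg _) (ind_nonneg _)
    have n2 : 0 ≤ (δ + B) ^ 2 * ind (E m σ) := mul_nonneg (sq_nonneg _) (ind_nonneg _)
    have h0 : E (Nat.findGreatest (fun j => E j σ) m) σ :=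
      Nat.findGreatest_spec (P := fun j => E j σ) (Nat.zero_le m) (Or.inl rfl)
    have h1 : Nat.findGreatest (fun j => E j σ) m ≤ m := Nat.findGreatest_le m
    have h2 := fun k => Nat.findGreatest_is_greatest (P := fun j => E j σ) (n := m) (k := k)
    set J := Nat.findGreatest (fun j => E j σ) m
    rcases h1.eq_or_lt with h3 | h3
    · rw [h3] at h0
      have := rad_le hB0 (D := V \ S) (σ := σ) (x := x) fun y hy =>
        hB y (Finset.sdiff_subset (branch_subset hy))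
      rw [ind_pos h0, mul_one]
      have h4 := pow_le_pow_left₀ hr.le this 2
      linarith [Finset.sum_nonneg n1]
    · have h4 := h2 (J + 1) (Nat.lt_succ_self J) h3
      simp only [E, not_or, not_exists, not_and, not_lt] at h4
      have h5 := rad_le (by positivity) h4.2
      have h6 : rad δ (V \ S) σ x ≤ 801 * ρ * (J + 1) := by
        push_cast at h5
        have : (0 : ℝ) ≤ ρ * J := by positivity
        linarith
      have h7 := Finset.single_le_sum n1 (Finset.mem_range.2 h3)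
      rw [ind_pos h0, mul_one] at h7
      have h8 := pow_le_pow_left₀ hr.le h6 2
      linarith
  refine (PE_mono hp.trans fun σ _ => hpt σ).trans ?_
  rw [PE_add, PE_sum hp.trans, PE_const_mul]
  refine add_le_add ?_ (mul_le_mul_of_nonneg_left (hE m le_rfl) (sq_nonneg _))
  have h1 : ∑ j ∈ range m, ((j : ℝ) + 1) ^ 2 * q0 ^ j ≤ ∑' j : ℕ, ((j : ℝ) + 1) ^ 2 * q0 ^ j :=
    summable_rad.sum_le_tsum _ fun j _ => by have := q0_pos; positivity
  calc _ ≤ ∑ j ∈ range m, (801 * ρ) ^ 2 * (((j : ℝ) + 1) ^ 2 * q0 ^ j) := by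
        refine Finset.sum_le_sum fun j hj => ?_
        rw [PE_const_mul, ← mul_assoc, ← mul_pow]
        exact mul_le_mul_of_nonneg_left (hE j (Finset.mem_range.1 hj).le) (sq_nonneg _)
    _ ≤ (801 * ρ) ^ 2 * ∑' j : ℕ, ((j : ℝ) + 1) ^ 2 * q0 ^ j := by
        rw [← Finset.mul_sum]; exact mul_le_mul_of_nonneg_left h1 (sq_nonneg _)
    _ = cRad * ρ ^ 2 := by unfold cRad; ring

/-- The linear functional in direction `d`. -/
noncomputable def psi (δ : ℝ) (d : ℂ) (v : Pt) : ℝ := ((starRingEnd ℂ) d * pos δ v).re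

theorem psi_sub_le (d : ℂ) (u v : Pt) :
    |psi δ d u - psi δ d v| ≤ ‖d‖ * dist (pos δ u) (pos δ v) := by
  have := Complex.abs_re_le_norm ((starRingEnd ℂ) d * (pos δ u - pos δ v))
  rw [norm_mul, Complex.norm_conj, mul_sub, Complex.sub_re] at this
  rwa [dist_eq_norm]

theorem HE_eq_self (hp : Trans p) {D : Finset Pt} (hD : D ⊆ V) {φ : Pt → ℝ}
    (h : ∀ v ∈ D, avg p φ v = φ v) (x : Pt) : HE V p D φ x = φ x := by
  by_cases hx : x ∈ D
  · refine le_antisymm (compare (U := D) hp (fun v hv => ?_) (fun v _ i hi => ?_) x hx)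
      (compare (U := D) hp (fun v hv => ?_) (fun v _ i hi => ?_) x hx)
    · rw [← HE_harmonic hp hD hv, h v hv]; simp
    · rw [HE_of_not_mem hp _ hi]
    · rw [← HE_harmonic hp hD hv, h v hv]; simp
    · rw [HE_of_not_mem hp _ hi]
  · exact HE_of_not_mem hp _ hx

theorem avg_sq_le (hp : Nice p δ M) (x v : Pt) (h : M * dist (pos δ v) (pos δ x) ≤ 1 / 6) :
    avg p (fun y => dist (pos δ y) (pos δ x) ^ 2) v ≤
      dist (pos δ v) (pos δ x) ^ 2 + 2 * δ ^ 2 := by
  have hδ := hp.pos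
  simp only [dist_eq_norm] at h ⊢
  set ζ := pos δ v - pos δ x with hζ
  let a : Fin 3 → ℝ := fun i => -(2 * (ζ.re * (pos δ (dir i)).re + ζ.im * (pos δ (dir i)).im))
  have e1 : ∀ i, ‖pos δ (v + dir i) - pos δ x‖ ^ 2 = ‖ζ‖ ^ 2 + δ ^ 2 - a i := fun i => by
    have := norm_pos_dir hδ i
    have h4 : δ ^ 2 = (pos δ (dir i)).re ^ 2 + (pos δ (dir i)).im ^ 2 := by
      rw [← this, Complex.sq_norm, Complex.normSq_apply, this]; ring
    rw [show pos δ (v + dir i) - pos δ x = ζ + pos δ (dir i) by rw [pos_add, hζ]; ring,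
      Complex.sq_norm, Complex.sq_norm, Complex.normSq_apply, Complex.normSq_apply, h4]
    simp only [a, Complex.add_re, Complex.add_im]
    ring
  have ha : ∀ i, |a i| ≤ 2 * (‖ζ‖ * δ) := fun i => by
    have := Complex.abs_re_le_norm (ζ * (starRingEnd ℂ) (pos δ (dir i)))
    rw [norm_mul, Complex.norm_conj, norm_pos_dir hδ] at this
    have h4 : |ζ.re * (pos δ (dir i)).re + ζ.im * (pos δ (dir i)).im| ≤ ‖ζ‖ * δ := by
      simpa using this
    simp only [a]
    rw [abs_neg, abs_mul, abs_two]; linarith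
  obtain ⟨r0, r1, r2⟩ := pos_dir_re δ
  obtain ⟨i0, i1, i2⟩ := pos_dir_im δ
  have s1 : a 0 + a 1 + a 2 = 0 := by simp only [a, r0, r1, r2, i0, i1, i2]; ring
  have h1 := drift_three (hp.near v 0) (hp.near v 1) (hp.near v 2) (ha 0) (ha 1) (ha 2)
  have hs := hp.trans.sum v
  rw [Fin.sum_univ_three] at hs
  simp only [avg, Fin.sum_univ_three, e1]
  have h2 := mul_le_mul_of_nonneg_right h (sq_nonneg δ)
  have hp2 : p v 2 = 1 - p v 0 - p v 1 := by linarith
  rw [hp2] at h1 ⊢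
  rw [s1] at h1
  linarith

/-- Mean displacement of the end point under a positive drift. -/
theorem drift_lower (hp : Nice p δ M) (hS : Bar V S) {x : Pt} {ρ B t κ : ℝ} {m : ℕ} {d : ℂ}
    (hV : ∀ v, dist (pos δ v) (pos δ x) ≤ m * (800 * ρ) → v ∈ V) (hρ : δ ≤ ρ)
    (hM : M * ρ ≤ 1 / 480)
    (hden : ∀ v, dist (pos δ v) (pos δ x) ≤ m * (800 * ρ) →
      ∃ s ∈ S, dist (pos δ s) (pos δ v) ≤ ρ)
    (hB : ∀ v ∈ V, dist (pos δ v) (pos δ x) ≤ B) (hκ : 0 ≤ κ)
    (hdr : ∀ v, dist (pos δ v) (pos δ x) ≤ m * (800 * ρ) →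
      psi δ d v + κ * δ ^ 2 ≤ avg p (psi δ d) v)
    (ht0 : 0 < t) (ht : t ≤ m * (800 * ρ)) (htM : M * t ≤ 1 / 6)
    (hfar : ∀ s ∈ S, t ≤ dist (pos δ s) (pos δ x)) :
    κ / 2 * t ^ 2 - ‖d‖ * (δ + 2 * B) * q0 ^ m ≤ HE V p (V \ S) (psi δ d) x - psi δ d x := by
  have hδ := hp.pos
  have hT := hp.trans
  set R := m * (800 * ρ) with hR
  have hg := subOn_leave (S := S) hT hV
  have hgx := exp_tail hp hS hg hρ hM hden m x (by simp [hR])
  set A := (V \ S).filter fun y => R < dist (pos δ y) (pos δ x) with hA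
  set g := HE V p ((V \ S) \ A) fun r => ind (r ∈ V \ S) with hgdef
  set B' := ‖d‖ * (δ + 2 * B) with hB'
  have hxV : x ∈ V := hV x (by simp; linarith)
  have hB0 : 0 ≤ B := by simpa using hB x hxV
  have hB'0 : 0 ≤ B' := by positivity
  let w : Pt → ℝ := fun y => HE V p (V \ S) (psi δ d) y - psi δ d y + B' * g y
  have hw : ∀ v ∈ (V \ S) \ A, κ * δ ^ 2 ≤ w v - avg p w v := by
    intro v hv
    have h1 := (Finset.mem_sdiff.1 hv).1
    have h2 : dist (pos δ v) (pos δ x) ≤ R := by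
      by_contra h3
      exact (Finset.mem_sdiff.1 hv).2 (Finset.mem_filter.2 ⟨h1, not_le.1 h3⟩)
    simp only [w]
    rw [avg_add, avg_sub, avg_const_mul, ← HE_harmonic hT Finset.sdiff_subset h1, hgdef,
      ← HE_harmonic hT (Finset.sdiff_subset.trans Finset.sdiff_subset) hv]
    have := hdr v h2
    linarith
  have hout : ∀ y, y ∉ (V \ S) \ A → 0 ≤ w y := by
    intro y hy
    simp only [w]
    rw [hgdef, HE_of_not_mem hT _ hy]
    by_cases h : y ∈ V \ S
    · rw [ind_pos h]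
      have : psi δ d y - B' ≤ HE V p (V \ S) (psi δ d) y := by
        refine le_PE hT fun σ hσ => ?_
        obtain ⟨u, hu, e⟩ := (hσ.exits y).last h
        have h1 := (abs_le.1 (psi_sub_le (δ := δ) d (next σ u) y)).1
        have h2 := hB u (Finset.sdiff_subset (branch_subset hu))
        have h3 := hB y (Finset.sdiff_subset h)
        have h4 := dist_triangle4 (pos δ (next σ u)) (pos δ u) (pos δ x) (pos δ y)
        rw [dist_next hδ, dist_comm (pos δ x)] at h4
        have h5 := mul_le_mul_of_nonneg_left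
          (show dist (pos δ (next σ u)) (pos δ y) ≤ δ + 2 * B by linarith) (norm_nonneg d)
        rw [e]; linarith
      linarith
    · rw [ind_neg h, HE_of_not_mem hT _ h]; simp
  have hw0 : ∀ y, 0 ≤ w y := by
    intro y
    by_cases hy : y ∈ (V \ S) \ A
    · refine compare (U := (V \ S) \ A) hT (u := fun _ => 0) (fun v hv => ?_)
        (fun v _ i hi => hout _ hi) y hy
      rw [avg_const hT]
      have := hw v hv
      have : 0 ≤ κ * δ ^ 2 := by positivity
      linarith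
    · exact hout y hy
  let U := V.filter fun y => dist (pos δ y) (pos δ x) < t
  have hU : ∀ y, dist (pos δ y) (pos δ x) < t → y ∈ U := fun y hy =>
    Finset.mem_filter.2 ⟨hV y (by linarith), hy⟩
  have key := compare (U := U) hT
    (u := fun y => κ / 2 * (t ^ 2 - dist (pos δ y) (pos δ x) ^ 2)) (w := w)
    (fun v hv => by
      obtain ⟨h1, h2⟩ := Finset.mem_filter.1 hv
      have h3 : v ∈ V \ S := Finset.mem_sdiff.2 ⟨h1, fun h => absurd (hfar v h) (not_le.2 h2)⟩
      have h4 := hw v (Finset.mem_sdiff.2 ⟨h3, fun h =>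
        absurd (Finset.mem_filter.1 h).2 (not_lt.2 (by linarith))⟩)
      have h5 := avg_sq_le hp x v (le_trans (mul_le_mul_of_nonneg_left h2.le
        (zero_le_one.trans hp.one)) htM)
      rw [avg_const_mul, avg_sub, avg_const hT]
      have := mul_le_mul_of_nonneg_left h5 hκ
      linarith)
    (fun v _ i hi => by
      have h1 : t ≤ dist (pos δ (v + dir i)) (pos δ x) := not_lt.1 fun h => hi (hU _ h)
      have h2 := pow_le_pow_left₀ ht0.le h1 2
      have h3 := mul_nonneg hκ (sub_nonneg.2 h2)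
      have := hw0 (v + dir i)
      linarith) x (hU x (by simpa using ht0))
  have h1 := mul_le_mul_of_nonneg_left hgx hB'0
  simp only [w, dist_self] at key
  linarith

end Pool.Agent.Lib.MP_60c5b4_pr
end

-- part Pool.Agent.Lib.MP_60c5b4_pr.Chain
section

/-!
Nets, and the chaining estimate: branches started close to each other merge quickly.
-/

namespace Pool.Agent.Lib.MP_60c5b4_pr

open Finset Classical

theorem exists_net (c : ℂ) {R ρ : ℝ} (hρ : 0 < ρ) (hR : ρ ≤ R) :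
    ∃ G : Finset ℂ, (G.card : ℝ) ≤ 25 * (R / ρ) ^ 2 ∧ (∀ g ∈ G, dist g c ≤ R + ρ) ∧
      ∀ x, dist x c ≤ R → ∃ g ∈ G, dist x g ≤ ρ := by
  set n : ℕ := ⌈R / ρ⌉₊ with hn
  have h1 : 1 ≤ R / ρ := by rw [le_div_iff₀ hρ]; linarith
  have h2 : R / ρ ≤ n := Nat.le_ceil _
  have h3 : (n : ℝ) < R / ρ + 1 := Nat.ceil_lt_add_one (by linarith)
  let f : ℤ × ℤ → ℂ := fun v => c + ρ * (v.1 + v.2 * Complex.I)
  let G0 := (Finset.Icc (-(n : ℤ)) n ×ˢ Finset.Icc (-(n : ℤ)) n).image f
  refine ⟨G0.filter fun g => dist g c ≤ R + ρ, ?_, fun g hg => (Finset.mem_filter.1 hg).2,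
    fun x hx => ?_⟩
  · have h4 : (G0.filter fun g => dist g c ≤ R + ρ).card ≤ (2 * n + 1) * (2 * n + 1) := by
      refine (Finset.card_filter_le _ _).trans (Finset.card_image_le.trans ?_)
      rw [Finset.card_product, Int.card_Icc]
      have : ((n : ℤ) + 1 - -(n : ℤ)).toNat = 2 * n + 1 := by omega
      rw [this]
    have h5 : ((G0.filter fun g => dist g c ≤ R + ρ).card : ℝ) ≤ (2 * n + 1) * (2 * n + 1) := by
      exact_mod_cast h4
    have h6 : (2 * (n : ℝ) + 1) ≤ 5 * (R / ρ) := by linarith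
    have h7 : (0 : ℝ) ≤ 2 * n + 1 := by positivity
    nlinarith
  · have key : ∀ t : ℝ, |t| ≤ R → round (t / ρ) ∈ Finset.Icc (-(n : ℤ)) n ∧
        |t - ρ * round (t / ρ)| ≤ ρ / 2 := by
      intro t ht
      have a1 := abs_sub_round (t / ρ)
      have a2 : |t / ρ| ≤ R / ρ := by
        rw [abs_div, abs_of_pos hρ]; exact div_le_div_of_nonneg_right ht hρ.le
      obtain ⟨b1, b2⟩ := abs_le.1 a1
      obtain ⟨b3, b4⟩ := abs_le.1 a2
      constructor
      · have c1 : ((round (t / ρ) : ℤ) : ℝ) < n + 1 := by linarith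
        have c2 : -((n : ℝ) + 1) < ((round (t / ρ) : ℤ) : ℝ) := by linarith
        have c3 : round (t / ρ) < n + 1 := by exact_mod_cast c1
        have c4 : -((n : ℤ) + 1) < round (t / ρ) := by exact_mod_cast c2
        rw [Finset.mem_Icc]; omega
      · have : t - ρ * round (t / ρ) = ρ * (t / ρ - round (t / ρ)) := by field_simp
        rw [this, abs_mul, abs_of_pos hρ]
        nlinarith
    rw [dist_eq_norm] at hx
    obtain ⟨k1, k2⟩ := key _ ((Complex.abs_re_le_norm (x - c)).trans hx)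
    obtain ⟨k3, k4⟩ := key _ ((Complex.abs_im_le_norm (x - c)).trans hx)
    have hd : dist x (f (round ((x - c).re / ρ), round ((x - c).im / ρ))) ≤ ρ := by
      rw [dist_eq_norm]
      refine (Complex.norm_le_abs_re_add_abs_im _).trans ?_
      have e1 : (x - f (round ((x - c).re / ρ), round ((x - c).im / ρ))).re =
          (x - c).re - ρ * round ((x - c).re / ρ) := by simp [f]; ring
      have e2 : (x - f (round ((x - c).re / ρ), round ((x - c).im / ρ))).im =
          (x - c).im - ρ * round ((x - c).im / ρ) := by simp [f]; ring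
      rw [e1, e2]; linarith
    refine ⟨_, Finset.mem_filter.2 ⟨Finset.mem_image_of_mem f (Finset.mem_product.2 ⟨k1, k3⟩),
      ?_⟩, hd⟩
    have := dist_triangle (f (round ((x - c).re / ρ), round ((x - c).im / ρ))) x c
    rw [dist_comm _ x, dist_eq_norm x c] at this
    linarith

theorem exists_lattice_net (δ : ℝ) (c : ℂ) {R ρ : ℝ} (hρ : 0 < ρ) (hR : ρ ≤ R) :
    ∃ G : Finset Pt, (G.card : ℝ) ≤ 25 * (R / ρ) ^ 2 ∧ (∀ g ∈ G, dist (pos δ g) c ≤ R) ∧
      ∀ v, dist (pos δ v) c ≤ R → ∃ g ∈ G, dist (pos δ g) (pos δ v) ≤ 2 * ρ := by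
  obtain ⟨G, h1, -, h3⟩ := exists_net c hρ hR
  let P : ℂ → Pt → Prop := fun g v => dist (pos δ v) c ≤ R ∧ dist (pos δ v) g ≤ ρ
  let f : ℂ → Pt := fun g => if h : ∃ v, P g v then h.choose else 0
  have hf : ∀ g, (∃ v, P g v) → P g (f g) := fun g h => by
    simp only [f, h, dif_pos]; exact h.choose_spec
  refine ⟨(G.filter fun g => ∃ v, P g v).image f, le_trans ?_ h1, fun g hg => ?_, fun v hv => ?_⟩
  · exact_mod_cast Finset.card_image_le.trans (Finset.card_filter_le _ _)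
  · obtain ⟨g', hg', rfl⟩ := Finset.mem_image.1 hg
    exact (hf g' (Finset.mem_filter.1 hg').2).1
  · obtain ⟨g, hg, h4⟩ := h3 _ hv
    refine ⟨f g, Finset.mem_image_of_mem f (Finset.mem_filter.2 ⟨hg, v, hv, h4⟩), ?_⟩
    have := (hf g ⟨v, hv, h4⟩).2
    have h5 := dist_triangle_right (pos δ (f g)) (pos δ v) g
    linarith

variable {p : Pt → Fin 3 → ℝ} {δ M : ℝ} {V D S : Finset Pt} {c : ℂ}

theorem ind_and (P Q : Prop) : ind (P ∧ Q) = ind P * ind Q := by
  by_cases hP : P <;> by_cases hQ : Q <;> simp [hP, hQ]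

/-- Conditional probability bound at a stopping set. -/
theorem Pr_cond (hp : Trans p) {T : Cfg → Finset Pt} (hT : Stopping T)
    (hc : ∀ σ, Closed D σ (T σ)) {G : Cfg → Prop} (hG : Det T G) {A : Finset Pt → Cfg → Prop}
    (hA : ∀ T σ σ', (∀ v, v ∉ T → σ' v = σ v) → (A T σ' ↔ A T σ)) {b : ℝ} (hb : 0 ≤ b)
    (h : ∀ σ, IsTree D σ → G σ → Pr V p (D \ T σ) (A (T σ)) ≤ b) :
    Pr V p D (fun σ => G σ ∧ A (T σ) σ) ≤ b := by
  have := PE_markov (V := V) hp hT hc (G := fun σ => ind (G σ))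
    (fun σ σ' h1 => by simp only [hG σ σ' h1]) (Φ := fun T σ => ind (A T σ))
    (fun T σ σ' h1 => ind_congr (hA T σ σ' h1))
  unfold Pr
  simp only [ind_and]
  rw [this]
  refine PE_le hp fun σ hσ => ?_
  by_cases h1 : G σ
  · rw [ind_pos h1, one_mul]; exact h σ hσ h1
  · rw [ind_neg h1, zero_mul]; exact hb

theorem branch_off {T : Finset Pt} {σ σ' : Cfg} (h : ∀ v, v ∉ T → σ' v = σ v) (a : Pt) :
    branch (D \ T) σ' a = branch (D \ T) σ a :=
  branch_congr' fun v hv => h v (Finset.mem_sdiff.1 hv).2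

theorem root_off {T : Finset Pt} {σ σ' : Cfg} (h : ∀ v, v ∉ T → σ' v = σ v) (a : Pt) :
    root (D \ T) σ' a = root (D \ T) σ a :=
  root_congr' fun v hv => h v (Finset.mem_sdiff.1 hv).2

theorem branch_subset_union {T : Finset Pt} {σ : Cfg} (hσ : IsTree D σ) (hT : Closed D σ T)
    (a : Pt) : branch D σ a ⊆ branch (D \ T) σ a ∪ T := by
  have h1 := (hσ.mono (Finset.sdiff_subset (t := T))).exits a
  rw [h1.branch_eq Finset.sdiff_subset]
  refine Finset.union_subset_union le_rfl ?_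
  by_cases h2 : root (D \ T) σ a ∈ D
  · refine hT.branch_subset ?_
    by_contra h3
    exact h1.not_mem (Finset.mem_sdiff.2 ⟨h2, h3⟩)
  · rw [branch_eq_empty h2]; exact Finset.empty_subset _

theorem sdiff_sdiff_eq (V S T : Finset Pt) : (V \ S) \ T = V \ (S ∪ T) := by
  ext v; simp only [Finset.mem_sdiff, Finset.mem_union]; tauto

/-- One level of chaining. -/
theorem chain_level (hp : Trans p) (hS : Bar V S) (G : Finset Pt) {r R R' b b' : ℝ}
    (hR : R' ≤ R) (hb' : 0 ≤ b')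
    (h1 : ∀ g ∈ G, Pr V p (V \ S) (fun σ => ∃ y ∈ branch (V \ S) σ g, R < dist (pos δ y) c) ≤ b)
    (h2 : ∀ T, Bar V T → S ⊆ T → (∀ g ∈ G, g ∈ V → g ∈ T) → Pr V p (V \ T) (fun σ =>
      ∃ a, dist (pos δ a) c ≤ r ∧ ∃ y ∈ branch (V \ T) σ a, R' < dist (pos δ y) c) ≤ b') :
    Pr V p (V \ S) (fun σ => ∃ a, dist (pos δ a) c ≤ r ∧
      ∃ y ∈ branch (V \ S) σ a, R < dist (pos δ y) c) ≤ G.card * b + b' := by
  have hcl : ∀ σ, Closed (V \ S) σ (G.biUnion (branch (V \ S) σ)) := fun σ =>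
    closed_biUnion fun _ _ => closed_branch
  have e1 := (Pr_exists (V := V) (D := V \ S) hp G
    fun g σ => ∃ y ∈ branch (V \ S) σ g, R < dist (pos δ y) c).trans
    (Finset.sum_le_card_nsmul _ _ _ h1)
  have e2 := Pr_cond (V := V) (D := V \ S) hp stopping_biUnion hcl (G := fun _ => True)
    (fun _ _ _ => rfl) (A := fun T σ => ∃ a, dist (pos δ a) c ≤ r ∧
      ∃ y ∈ branch ((V \ S) \ T) σ a, R' < dist (pos δ y) c)
    (fun T σ σ' h => by simp only [branch_off h]) hb' fun σ hσ _ => by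
      simp only [sdiff_sdiff_eq]
      refine h2 _ (hS.union hσ (hcl σ)) Finset.subset_union_left fun g hg hV => ?_
      by_cases h : g ∈ S
      · exact Finset.mem_union_left _ h
      · exact Finset.mem_union_right _ (Finset.mem_biUnion.2
          ⟨g, hg, self_mem_branch (Finset.mem_sdiff.2 ⟨hV, h⟩)⟩)
  rw [nsmul_eq_mul] at e1
  refine le_trans (Pr_mono hp fun σ hσ ⟨a, ha, y, hy, h⟩ => ?_)
    ((Pr_or hp _ _).trans (add_le_add e1 e2))
  rcases Finset.mem_union.1 (branch_subset_union hσ (hcl σ) a hy) with h3 | h3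
  · exact Or.inr ⟨trivial, a, ha, y, h3, hR.trans_lt h⟩
  · obtain ⟨g, hg, h4⟩ := Finset.mem_biUnion.1 h3
    exact Or.inl ⟨g, hg, y, h4, h⟩

theorem chain_dense (hp : Nice p δ M) {ρ : ℝ} (hρ : 0 < ρ) {m a : ℕ} (hm : 1 ≤ m)
    (ha : q0 ^ a ≤ 1 / 8) (hM : M * (2 * ρ) ≤ 1 / 480)
    (hV : ∀ v, dist (pos δ v) c ≤ ρ + 3200 * ρ * (m + a) → v ∈ V) (n : ℕ) :
    ∀ (j : ℕ) (S : Finset Pt), Bar V S → δ ≤ 2 * (ρ / 2 ^ j) → 2 * (ρ / 2 ^ (j + n)) < δ →
      (∀ v, dist (pos δ v) c ≤ ρ + 3200 * (ρ / 2 ^ j) * (m + a * (j + 1)) →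
        ∃ s ∈ S, dist (pos δ s) (pos δ v) ≤ 2 * (ρ / 2 ^ j)) →
      Pr V p (V \ S) (fun σ => ∃ x, dist (pos δ x) c ≤ ρ ∧ ∃ y ∈ branch (V \ S) σ x,
        ρ + 3200 * (ρ / 2 ^ j) * (m + a * (j + 1)) < dist (pos δ y) c) ≤
        200 * (1 + 3200 * (m + a)) ^ 2 * q0 ^ m / 2 ^ j := by
  have hδ := hp.pos
  have hq := q0_pos
  have hm' : (1 : ℝ) ≤ m := by exact_mod_cast hm
  have hRle : ∀ j : ℕ, ρ / 2 ^ j * (m + a * (j + 1)) ≤ ρ * (m + a) := by
    intro j
    have h1 : (j : ℝ) + 1 ≤ 2 ^ j := by exact_mod_cast Nat.lt_two_pow_self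
    have h2 : (1 : ℝ) ≤ 2 ^ j := one_le_pow₀ (by norm_num)
    rw [div_mul_eq_mul_div, div_le_iff₀ (by positivity), mul_assoc]
    refine mul_le_mul_of_nonneg_left ?_ hρ.le
    have : (0 : ℝ) ≤ a := by positivity
    nlinarith
  induction n with
  | zero => intro j S _ h1 h2; simp only [add_zero] at h2; linarith
  | succ n ih =>
    intro j S hS h1 h2 hden
    set t := ρ / 2 ^ (j + 1) with ht
    have ht0 : 0 < t := by positivity
    have e1 : ρ / 2 ^ j = 2 * t := by rw [ht, pow_succ]; field_simp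
    have h2j : (1 : ℝ) ≤ 2 ^ j := one_le_pow₀ (by norm_num)
    have ht1 : 2 * t ≤ ρ := by rw [← e1]; exact div_le_self hρ.le h2j
    have a0 : (0 : ℝ) ≤ a := by positivity
    have j0 : (0 : ℝ) ≤ j := by positivity
    set R' := ρ + 3200 * t * (m + a * ((j + 1 : ℕ) + 1)) with hR'
    have hR'1 : R' ≤ ρ + 3200 * ρ * (m + a) := by
      have := hRle (j + 1); rw [hR']; linarith
    have hR'0 : ρ ≤ R' := by
      have : 0 ≤ 3200 * t * (m + a * ((j + 1 : ℕ) + 1)) := by positivity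
      linarith
    have hgap : R' + (m + a * j : ℕ) * (800 * (2 * (ρ / 2 ^ j))) =
        ρ + 3200 * (ρ / 2 ^ j) * (m + a * (j + 1)) := by
      rw [hR', e1]; push_cast; ring
    obtain ⟨G, g1, g2, g3⟩ := exists_lattice_net δ c ht0 (show t ≤ R' by linarith)
    have hgap0 : (0 : ℝ) ≤ (m + a * j : ℕ) * (800 * (2 * (ρ / 2 ^ j))) := by positivity
    have key := chain_level (V := V) (δ := δ) (c := c) (r := ρ) hp.trans hS G
      (R := ρ + 3200 * (ρ / 2 ^ j) * (m + a * (j + 1))) (R' := R') (b := q0 ^ (m + a * j))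
      (b' := 200 * (1 + 3200 * (m + a)) ^ 2 * q0 ^ m / 2 ^ (j + 1)) (by linarith)
      (by positivity)
      (fun g hg => leave_exp hp hS (fun v hv => hV v (by have := hRle j; linarith)) h1
        (le_trans (mul_le_mul_of_nonneg_left (by linarith) (zero_le_one.trans hp.one)) hM) hden
        (by have := g2 g hg; linarith))
      (fun T hT _ hG => by
        have hG' : ∀ g ∈ G, g ∈ T := fun g hg => hG g hg (hV g ((g2 g hg).trans hR'1))
        by_cases h3 : 2 * t < δ
        · refine le_trans (PE_le hp.trans fun σ _ => (ind_neg ?_).le) (by positivity)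
          rintro ⟨x, hx, y, hy, -⟩
          obtain ⟨g, hg, h4⟩ := g3 x (by linarith)
          have := eq_of_dist_lt hδ (h4.trans_lt h3)
          rw [branch_eq_empty (fun h => (Finset.mem_sdiff.1 h).2 (this ▸ hG' g hg))] at hy
          simp at hy
        · refine ih (j + 1) T hT (not_lt.1 h3) (by rw [add_assoc, add_comm 1 n]; exact h2)
            fun v hv => ?_
          obtain ⟨g, hg, h4⟩ := g3 v hv
          exact ⟨g, hG' g hg, h4⟩)
    refine key.trans ?_
    have c1 : R' / t ≤ (1 + 3200 * (m + a)) * 2 ^ (j + 1) := by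
      rw [div_le_iff₀ ht0, ht, mul_assoc, mul_div_cancel₀ _ (by positivity)]
      linarith
    have c2 : (R' / t) ^ 2 ≤ ((1 + 3200 * (m + a)) * 2 ^ (j + 1)) ^ 2 :=
      pow_le_pow_left₀ (by positivity) c1 2
    have c3 : q0 ^ (m + a * j) ≤ q0 ^ m * (1 / 8) ^ j := by
      rw [pow_add, pow_mul]
      exact mul_le_mul_of_nonneg_left (pow_le_pow_left₀ (by positivity) ha j) (by positivity)
    have c4 : (G.card : ℝ) * q0 ^ (m + a * j) ≤
        25 * ((1 + 3200 * (m + a)) * 2 ^ (j + 1)) ^ 2 * (q0 ^ m * (1 / 8) ^ j) :=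
      mul_le_mul (by linarith) c3 (by positivity) (by positivity)
    have c5 : (25 : ℝ) * ((1 + 3200 * (m + a)) * 2 ^ (j + 1)) ^ 2 * (q0 ^ m * (1 / 8) ^ j) =
        200 * (1 + 3200 * (m + a)) ^ 2 * q0 ^ m / 2 ^ (j + 1) := by
      rw [show (1 / 8 : ℝ) = 1 / 2 ^ 3 by norm_num, one_div_pow, ← pow_mul, mul_comm 3 j, pow_mul]
      field_simp
      ring
    rw [c5] at c4
    have c6 : 200 * (1 + 3200 * ((m : ℝ) + a)) ^ 2 * q0 ^ m / 2 ^ j =
        2 * (200 * (1 + 3200 * (m + a)) ^ 2 * q0 ^ m / 2 ^ (j + 1)) := by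
      rw [pow_succ (2 : ℝ) j]; field_simp
    rw [c6]; linarith

theorem exists_pow_le {η : ℝ} (hη : 0 < η) : ∃ j : ℕ, q0 ^ j ≤ η := by
  obtain ⟨j, hj⟩ := exists_pow_lt_of_lt_one hη q0_lt_one
  exact ⟨j, hj.le⟩

theorem exists_poly_pow_le (A : ℝ) {η : ℝ} (hη : 0 < η) (a : ℕ) :
    ∃ m : ℕ, 1 ≤ m ∧ (1 + A * (m + a)) ^ 2 * q0 ^ m ≤ η := by
  have hq : |q0| < 1 := by rw [abs_of_pos q0_pos]; exact q0_lt_one
  have h2 := tendsto_pow_const_mul_const_pow_of_abs_lt_one 2 hq
  have h1 := tendsto_pow_const_mul_const_pow_of_abs_lt_one 1 hq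
  have h0 := tendsto_pow_const_mul_const_pow_of_abs_lt_one 0 hq
  have h := ((h2.const_mul (A ^ 2)).add (h1.const_mul (2 * A * (1 + A * a)))).add
    (h0.const_mul ((1 + A * a) ^ 2))
  simp only [mul_zero, add_zero] at h
  obtain ⟨m, hm1, hm2⟩ := ((Filter.eventually_ge_atTop 1).and (h.eventually_le_const hη)).exists
  refine ⟨m, hm1, le_of_eq_of_le (by ring) hm2⟩

/-- All branches started very close to a point of the barrier stay close to it. -/
theorem chain_local {M R η : ℝ} (hM : 1 ≤ M) (hR : 0 < R) (hMR : M * R ≤ 1 / 480)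
    (hη : 0 < η) : ∃ r > 0, r ≤ R ∧ ∀ δ ≤ r, ∀ p, Nice p δ M → ∀ (V S : Finset Pt) (s : Pt),
      Bar V S → s ∈ S → (∀ v, dist (pos δ v) (pos δ s) ≤ R → v ∈ V) →
      Pr V p (V \ S) (fun σ => ∃ x, dist (pos δ x) (pos δ s) ≤ r ∧
        ∃ y ∈ branch (V \ S) σ x, R < dist (pos δ y) (pos δ s)) ≤ η := by
  obtain ⟨a, ha⟩ := exists_pow_le (η := 1 / 8) (by norm_num)
  obtain ⟨m, hm, hm2⟩ := exists_poly_pow_le 3200 (η := η / 400) (by positivity) a
  set K : ℝ := 1 + 3200 * (m + a) with hK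
  have hK1 : 2 ≤ K := by
    have : (1 : ℝ) ≤ m := by exact_mod_cast hm
    have : (0 : ℝ) ≤ a := by positivity
    linarith
  obtain ⟨j, hj⟩ := exists_pow_le (η := η / (50 * K ^ 2)) (by positivity)
  have h801 : (1 : ℝ) ≤ 801 ^ j := one_le_pow₀ (by norm_num)
  set r := R / (801 ^ j * K) with hr
  have hr0 : 0 < r := by positivity
  have hrK : 801 ^ j * (r * K) = R := by rw [hr]; field_simp
  have hrK' : r * K ≤ R := by nlinarith [mul_pos hr0 (show 0 < K by linarith)]
  refine ⟨r, hr0, by nlinarith, fun δ hδ p hp V S s hS hs hV => ?_⟩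
  have hδ0 := hp.pos
  obtain ⟨G, g1, g2, g3⟩ := exists_lattice_net δ (pos δ s) hr0 (show r ≤ r * K by nlinarith)
  obtain ⟨n, hn⟩ := pow_unbounded_of_one_lt (2 * r / δ) (show (1 : ℝ) < 2 by norm_num)
  have key := chain_level (V := V) (δ := δ) (c := pos δ s) (r := r) hp.trans hS G
    (R := R) (R' := r * K) (b := q0 ^ j) (b' := η / 2) hrK' (by positivity)
    (fun g hg => leave_beur hp hS hV hMR hs (ρ := r * K) (by nlinarith)
      (by rw [dist_comm]; exact g2 g hg) (by rw [dist_self, zero_add, hrK]))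
    (fun T hT _ hG => by
      have := chain_dense (c := pos δ s) (V := V) hp hr0 hm ha
        (le_trans (mul_le_mul_of_nonneg_left (by nlinarith) (by linarith)) hMR)
        (fun v hv => hV v (by rw [hK] at hrK'; linarith)) n 0 T hT (by simp; linarith)
        (by rw [zero_add, ← mul_div_assoc, div_lt_iff₀ (by positivity)]
            rw [div_lt_iff₀ hδ0] at hn; linarith)
        (fun v hv => by
          obtain ⟨g, hg, h4⟩ := g3 v (by rw [hK]; simp at hv; linarith)
          exact ⟨g, hG g hg (hV g ((g2 g hg).trans hrK')), by simpa using h4⟩)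
      have e : r + 3200 * (r / 2 ^ 0) * (m + a * ((0 : ℕ) + 1)) = r * K := by
        rw [hK]; simp; ring
      rw [e] at this
      refine this.trans ?_
      simp only [pow_zero, div_one]
      linarith)
  refine key.trans ?_
  have e : r * K / r = K := by field_simp
  rw [e] at g1
  have : (G.card : ℝ) * q0 ^ j ≤ 25 * K ^ 2 * (η / (50 * K ^ 2)) :=
    mul_le_mul g1 hj (pow_pos q0_pos j).le (by positivity)
  have e2 : 25 * K ^ 2 * (η / (50 * K ^ 2)) = η / 2 := by field_simp; ring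
  linarith

/-- All branches started close to `z` agree with the branch of the lattice point nearest to
`z`, outside a small ball. -/
theorem merge_est {M B R η : ℝ} (hM : 1 ≤ M) (hB : 0 < B) (hR : 0 < R)
    (hMR : M * R ≤ 1 / 480) (hη : 0 < η) :
    ∃ r > 0, ∃ δ0 > 0, ∀ δ ≤ δ0, ∀ p, Nice p δ M → ∀ (V : Finset Pt) (x : Pt),
      (∀ v ∈ V, dist (pos δ v) (pos δ x) ≤ B) → (∀ v, dist (pos δ v) (pos δ x) ≤ R → v ∈ V) →
      Pr V p V (fun σ => ∃ a, dist (pos δ a) (pos δ x) ≤ r ∧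
        ∃ y ∈ symmDiff (branch V σ a) (branch V σ x), R < dist (pos δ y) (pos δ x)) ≤ η := by
  obtain ⟨j, hj⟩ := exists_pow_le (η := η / 3) (by positivity)
  have h801 : (1 : ℝ) ≤ 801 ^ j := one_le_pow₀ (by norm_num)
  set s := R / (6 * 801 ^ j) with hs
  have hs0 : 0 < s := by positivity
  have hsR : 801 ^ j * (3 * s) = R / 2 := by rw [hs]; field_simp; ring
  have hsR' : 3 * s ≤ R / 2 := by nlinarith
  obtain ⟨ε, hε, δ1, hδ1, hlog⟩ := log_est hM hB hs0 (show 0 < η / 3 by positivity)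
  set R1 := min (ε / 2) (R / 2) with hR1
  have hR10 : 0 < R1 := by positivity
  have hR11 : R1 ≤ ε / 2 := min_le_left _ _
  have hR12 : R1 ≤ R / 2 := min_le_right _ _
  obtain ⟨r, hr0, hr1, hch⟩ := chain_local hM hR10
    (le_trans (mul_le_mul_of_nonneg_left (by linarith) (by linarith)) hMR)
    (show 0 < η / 3 by positivity)
  refine ⟨r, hr0, min (min δ1 r) s, by positivity, fun δ hδ p hp V x hVB hV => ?_⟩
  have d1 : δ ≤ δ1 := hδ.trans ((min_le_left _ _).trans (min_le_left _ _))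
  have d2 : δ ≤ r := hδ.trans ((min_le_left _ _).trans (min_le_right _ _))
  have d3 : δ ≤ s := hδ.trans (min_le_right _ _)
  have hT := hp.trans
  set u := nr δ (pos δ x + (2 * s : ℝ)) with hu
  have hu0 := dist_nr hp.pos (pos δ x + (2 * s : ℝ))
  have hu1 : dist (pos δ x + (2 * s : ℝ)) (pos δ x) = 2 * s := by
    rw [dist_eq_norm, add_sub_cancel_left, Complex.norm_real, Real.norm_eq_abs,
      abs_of_pos (by positivity)]
  have hu2 : dist (pos δ u) (pos δ x) ≤ 3 * s := by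
    have := dist_triangle (pos δ u) (pos δ x + (2 * s : ℝ)) (pos δ x)
    linarith
  have hu3 : s ≤ dist (pos δ u) (pos δ x) := by
    have := dist_triangle_left (pos δ x + (2 * s : ℝ)) (pos δ x) (pos δ u)
    linarith
  have huV : u ∈ V := hV u (by linarith)
  have hxV : x ∈ V := hV x (by simp; linarith)
  have e1 := hlog δ d1 p hp V (pos δ x) hVB u hu3
  have e2 := Pr_cond (V := V) (D := V) hT (stopping_branch (D := V) (a := u))
    (fun _ => closed_branch) (G := fun _ => True) (fun _ _ _ => rfl)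
    (A := fun T σ => ∃ y ∈ branch (V \ T) σ x, R < dist (pos δ y) (pos δ x))
    (fun T σ σ' h => by simp only [branch_off h]) (b := η / 3) (by positivity) fun σ hσ _ =>
      (leave_beur hp (closed_branch.bar hσ) hV hMR (self_mem_branch huV) (ρ := 3 * s) (j := j)
        (by linarith) hu2 (by linarith)).trans hj
  have hcl : ∀ σ, Closed V σ (({u, x} : Finset Pt).biUnion (branch V σ)) := fun σ =>
    closed_biUnion fun _ _ => closed_branch
  have e3 := Pr_cond (V := V) (D := V) hT stopping_biUnion hcl (G := fun _ => True)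
    (fun _ _ _ => rfl) (A := fun T σ => ∃ a, dist (pos δ a) (pos δ x) ≤ r ∧
      ∃ y ∈ branch (V \ T) σ a, R1 < dist (pos δ y) (pos δ x))
    (fun T σ σ' h => by simp only [branch_off h]) (b := η / 3) (by positivity) fun σ hσ _ =>
      hch δ d2 p hp V _ x ((hcl σ).bar hσ)
        (Finset.mem_biUnion.2 ⟨x, by simp, self_mem_branch hxV⟩) fun v hv => hV v (by linarith)
  refine le_trans (Pr_mono hT fun σ hσ ⟨a, ha, y, hy, hyR⟩ => ?_)
    (((Pr_or hT _ _).trans (add_le_add e1 ((Pr_or hT _ _).trans (add_le_add e2 e3)))).trans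
      (by linarith))
  by_contra hcon
  simp only [true_and, not_or, not_exists, not_and, not_lt, not_le] at hcon
  obtain ⟨n1, n2, n3⟩ := hcon
  set T := ({u, x} : Finset Pt).biUnion (branch V σ) with hTdef
  have hTe : T = branch V σ u ∪ branch V σ x := by simp [hTdef]
  have x1 := (hσ.mono (Finset.sdiff_subset (t := T))).exits a
  have x2 := (hσ.mono (Finset.sdiff_subset (t := branch V σ u))).exits x
  set b := root (V \ T) σ a with hb
  have hbd : dist (pos δ b) (pos δ x) ≤ R1 + R1 := by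
    by_cases h : a ∈ V \ T
    · obtain ⟨w, hw, e⟩ := x1.last h
      have h1 := n3 a ha w hw
      have h2 := dist_triangle (pos δ (next σ w)) (pos δ w) (pos δ x)
      rw [dist_next hp.pos] at h2
      rw [e]; linarith
    · rw [x1.eq_of_not_mem h]; linarith
  have hbV : b ∈ V := hV b (by linarith)
  have hbu : b ∉ branch V σ u := fun h => absurd (n1 b h) (not_lt.2 (by linarith))
  have hbT : b ∈ T := by
    by_contra h
    exact x1.not_mem (Finset.mem_sdiff.2 ⟨hbV, h⟩)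
  have hbx : b ∈ branch V σ x := by
    rw [hTe] at hbT
    exact (Finset.mem_union.1 hbT).resolve_left hbu
  have hbs : b ∈ branch (V \ branch V σ u) σ x :=
    (Finset.mem_union.1 (branch_subset_union hσ closed_branch x hbx)).resolve_right hbu
  have q1 := x1.branch_eq Finset.sdiff_subset
  have q2 := x2.branch_eq Finset.sdiff_subset
  have q3 := (x2.of_reach (mem_branch.1 hbs)).branch_eq Finset.sdiff_subset
  rcases Finset.mem_symmDiff.1 hy with ⟨h1, h2⟩ | ⟨h1, h2⟩
  · rw [q1] at h1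
    rcases Finset.mem_union.1 h1 with h3 | h3
    · have := n3 a ha y h3; linarith
    · exact h2 (branch_subset_of_mem hbx h3)
  · rw [q2] at h1
    rcases Finset.mem_union.1 h1 with h3 | h3
    · have := n2 y h3; linarith
    · refine h2 ?_
      rw [q1, q3]
      exact Finset.mem_union_right _ (Finset.mem_union_right _ h3)

end Pool.Agent.Lib.MP_60c5b4_pr
end

-- part Pool.Agent.Lib.MP_60c5b4_pr.Explore
section

/-!
Adaptive exploration of the tree by branches, and the associated martingale.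
-/

namespace Pool.Agent.Lib.MP_60c5b4_pr

open Finset Classical

/-- The explored set after `k` steps: the branch of the `k`-th point is added when the point is
far from what has been explored. -/
noncomputable def expl (δ : ℝ) (V : Finset Pt) (z : ℕ → ℂ) (th : ℕ → ℝ) (σ : Cfg) :
    ℕ → Finset Pt
  | 0 => ∅
  | k + 1 => if ∃ s ∈ expl δ V z th σ k, dist (pos δ s) (z k) < th k then expl δ V z th σ k
      else expl δ V z th σ k ∪ branch V σ (nr δ (z k))

/-- The `k`-th point is active. -/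
def Act (δ : ℝ) (V : Finset Pt) (z : ℕ → ℂ) (th : ℕ → ℝ) (σ : Cfg) (k : ℕ) : Prop :=
  ¬ ∃ s ∈ expl δ V z th σ k, dist (pos δ s) (z k) < th k

variable {δ : ℝ} {V : Finset Pt} {z : ℕ → ℂ} {th : ℕ → ℝ} {σ σ' : Cfg} {k : ℕ}

theorem expl_act (h : Act δ V z th σ k) :
    expl δ V z th σ (k + 1) = expl δ V z th σ k ∪ branch V σ (nr δ (z k)) := if_neg h

theorem expl_not_act (h : ¬ Act δ V z th σ k) : expl δ V z th σ (k + 1) = expl δ V z th σ k :=
  if_pos (not_not.1 h)

theorem expl_mono {k k' : ℕ} (h : k ≤ k') : expl δ V z th σ k ⊆ expl δ V z th σ k' := by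
  induction h with
  | refl => exact le_rfl
  | @step j _ ih =>
    refine ih.trans ?_
    by_cases h : Act δ V z th σ j
    · rw [expl_act h]; exact Finset.subset_union_left
    · rw [expl_not_act h]

theorem closed_expl (k : ℕ) : Closed V σ (expl δ V z th σ k) := by
  induction k with
  | zero => exact closed_empty
  | succ k ih =>
    by_cases h : Act δ V z th σ k
    · rw [expl_act h]; exact ih.union closed_branch
    · rw [expl_not_act h]; exact ih

theorem mem_expl {v : Pt} :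
    v ∈ expl δ V z th σ k ↔ ∃ i < k, Act δ V z th σ i ∧ v ∈ branch V σ (nr δ (z i)) := by
  induction k with
  | zero => simp [expl]
  | succ k ih =>
    rw [Nat.exists_lt_succ_right, ← ih]
    by_cases h : Act δ V z th σ k
    · rw [expl_act h]; simp [h]
    · rw [expl_not_act h]; simp [h]

theorem act_congr (h : expl δ V z th σ' k = expl δ V z th σ k) :
    Act δ V z th σ' k ↔ Act δ V z th σ k := by
  simp only [Act, h]

theorem stopping_expl (k : ℕ) : Stopping fun σ => expl δ V z th σ k := by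
  induction k with
  | zero => intro σ σ' _; rfl
  | succ k ih =>
    intro σ σ' h
    have h1 : expl δ V z th σ' k = expl δ V z th σ k :=
      ih σ σ' fun v hv => h v (expl_mono (Nat.le_succ k) hv)
    by_cases h2 : Act δ V z th σ k
    · simp only [expl_act h2, expl_act ((act_congr h1).2 h2), h1] at h ⊢
      rw [branch_congr fun y hy => h y (Finset.mem_union_right _ hy)]
    · simp only [expl_not_act h2, expl_not_act (fun h3 => h2 ((act_congr h1).1 h3)), h1]

theorem expl_det {i k : ℕ} (hik : i ≤ k) (h : ∀ v ∈ expl δ V z th σ k, σ' v = σ v) :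
    expl δ V z th σ' i = expl δ V z th σ i :=
  stopping_expl i σ σ' fun v hv => h v (expl_mono hik hv)

theorem expl_th {th' : ℕ → ℝ} (h : ∀ i < k, th' i = th i) :
    expl δ V z th' σ k = expl δ V z th σ k := by
  induction k with
  | zero => rfl
  | succ k ih =>
    have := ih fun i hi => h i (Nat.lt_succ_of_lt hi)
    simp only [expl, this, h k (Nat.lt_succ_self k)]

theorem expl_near (hδ : 0 < δ) {i : ℕ} (hi : i < k) (hV : nr δ (z i) ∈ V) (hth : δ ≤ th i) :
    ∃ s ∈ expl δ V z th σ k, dist (pos δ s) (z i) ≤ th i := by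
  by_cases h : Act δ V z th σ i
  · exact ⟨_, mem_expl.2 ⟨i, hi, h, self_mem_branch hV⟩, (dist_nr hδ _).trans hth⟩
  · obtain ⟨s, hs, h1⟩ := not_not.1 h
    exact ⟨s, expl_mono hi.le hs, h1.le⟩

/-- Accumulated squared scales of the active points. -/
noncomputable def qv (δ : ℝ) (V : Finset Pt) (z : ℕ → ℂ) (th ρ : ℕ → ℝ) (n : ℕ) (σ : Cfg)
    (k : ℕ) : ℝ :=
  ∑ i ∈ Ico n k, ind (Act δ V z th σ i) * ρ i ^ 2

/-- Stopped activity weights. -/
noncomputable def ws (δ : ℝ) (V : Finset Pt) (z : ℕ → ℂ) (th ρ : ℕ → ℝ) (n : ℕ) (L : ℝ)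
    (σ : Cfg) (k : ℕ) : ℝ :=
  ind (Act δ V z th σ k ∧ qv δ V z th ρ n σ k < L)

variable {ρ : ℕ → ℝ} {n N : ℕ} {L : ℝ}

theorem qv_mono {k k' : ℕ} (h : k ≤ k') : qv δ V z th ρ n σ k ≤ qv δ V z th ρ n σ k' :=
  Finset.sum_le_sum_of_subset_of_nonneg (Finset.Ico_subset_Ico_right h) fun _ _ _ =>
    mul_nonneg (ind_nonneg _) (sq_nonneg _)

theorem ws_det {i k : ℕ} (hik : i ≤ k) (h : ∀ v ∈ expl δ V z th σ k, σ' v = σ v) :
    ws δ V z th ρ n L σ' i = ws δ V z th ρ n L σ i := by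
  have : qv δ V z th ρ n σ' i = qv δ V z th ρ n σ i :=
    Finset.sum_congr rfl fun j hj => by
      rw [ind_congr (act_congr (expl_det ((Finset.mem_Ico.1 hj).2.le.trans hik) h))]
  simp only [ws, this, act_congr (expl_det hik h)]

theorem ws_sum_eq (h : ∀ k < N, qv δ V z th ρ n σ k < L) :
    ∑ k ∈ Ico n N, ws δ V z th ρ n L σ k * ρ k ^ 2 = qv δ V z th ρ n σ N :=
  Finset.sum_congr rfl fun k hk => by simp [ws, h k (Finset.mem_Ico.1 hk).2]

theorem ws_sum_le {a : ℝ} (hL : 0 ≤ L) (ha : ∀ k, ρ k ^ 2 ≤ a) (N : ℕ) :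
    ∑ k ∈ Ico n N, ws δ V z th ρ n L σ k * ρ k ^ 2 ≤ L + a := by
  have ha0 : 0 ≤ a := (sq_nonneg _).trans (ha 0)
  induction N with
  | zero => simp; linarith
  | succ N ih =>
    rcases lt_or_ge N n with h | h
    · rw [Finset.Ico_eq_empty (by omega)]; simp; linarith
    · rw [Finset.sum_Ico_succ_top h]
      by_cases h1 : qv δ V z th ρ n σ N < L
      · rw [ws_sum_eq fun k hk => (qv_mono hk.le).trans_lt h1]
        have := mul_le_mul (ind_le_one (Act δ V z th σ N ∧ qv δ V z th ρ n σ N < L)) (ha N)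
          (sq_nonneg _) zero_le_one
        unfold ws; linarith
      · simpa [ws, h1] using ih

theorem le_ws_sum (h : L ≤ qv δ V z th ρ n σ N) :
    L ≤ ∑ k ∈ Ico n N, ws δ V z th ρ n L σ k * ρ k ^ 2 := by
  induction N with
  | zero => simpa [qv] using h
  | succ N ih =>
    by_cases h1 : qv δ V z th ρ n σ N < L
    · rw [ws_sum_eq fun k hk => (qv_mono (Nat.lt_succ_iff.1 hk)).trans_lt h1]; exact h
    · exact (ih (not_lt.1 h1)).trans (Finset.sum_le_sum_of_subset_of_nonneg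
        (Finset.Ico_subset_Ico_right (Nat.le_succ N)) fun _ _ _ =>
          mul_nonneg (ind_nonneg _) (sq_nonneg _))

variable {p : Pt → Fin 3 → ℝ}

theorem PE_var_le (hp : Trans p) {D : Finset Pt} (F : Cfg → ℝ) (c : ℝ) :
    PE V p D (fun σ => (F σ - PE V p D F) ^ 2) ≤ PE V p D fun σ => (F σ - c) ^ 2 := by
  have e : ∀ b, PE V p D (fun σ => (F σ - b) ^ 2) =
      PE V p D (fun σ => F σ ^ 2) - 2 * b * PE V p D F + b ^ 2 := by
    intro b
    rw [← PE_const_mul, ← PE_sub, ← PE_const (V := V) (D := D) hp (b ^ 2), ← PE_add]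
    exact PE_congr fun σ _ => by ring
  rw [e, e]
  nlinarith [sq_nonneg (PE V p D F - c)]

/-- Conditional expectation bound for a stopped sum. -/
theorem ws_cond (hp : Trans p) {Φ : ℕ → Finset Pt → Cfg → ℝ} {C : ℝ}
    (hΦ : ∀ k T σ σ', (∀ v, v ∉ T → σ' v = σ v) → Φ k T σ' = Φ k T σ) {k : ℕ}
    (h : ∀ σ, IsTree V σ → PE V p (V \ expl δ V z th σ k) (Φ k (expl δ V z th σ k)) ≤
      C * ρ k ^ 2) :
    PE V p V (fun σ => ws δ V z th ρ n L σ k * Φ k (expl δ V z th σ k) σ) ≤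
      PE V p V fun σ => C * (ws δ V z th ρ n L σ k * ρ k ^ 2) := by
  rw [PE_markov hp (stopping_expl k) (fun _ => closed_expl k)
    (fun σ σ' h => ws_det le_rfl h) (hΦ k)]
  refine PE_mono hp fun σ hσ => ?_
  have := mul_le_mul_of_nonneg_left (h σ hσ)
    (ind_nonneg (Act δ V z th σ k ∧ qv δ V z th ρ n σ k < L))
  unfold ws; linarith

theorem ws_sum_cond (hp : Trans p) {Φ : ℕ → Finset Pt → Cfg → ℝ} {C a : ℝ} (hC : 0 ≤ C)
    (hL : 0 ≤ L) (ha : ∀ k, ρ k ^ 2 ≤ a)
    (hΦ : ∀ k T σ σ', (∀ v, v ∉ T → σ' v = σ v) → Φ k T σ' = Φ k T σ)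
    (h : ∀ k ∈ Ico n N, ∀ σ, IsTree V σ →
      PE V p (V \ expl δ V z th σ k) (Φ k (expl δ V z th σ k)) ≤ C * ρ k ^ 2) :
    ∑ k ∈ Ico n N, PE V p V (fun σ => ws δ V z th ρ n L σ k * Φ k (expl δ V z th σ k) σ) ≤
      C * (L + a) := by
  refine (Finset.sum_le_sum fun k hk => ws_cond hp hΦ (h k hk)).trans ?_
  rw [← PE_sum hp]
  refine PE_le hp fun σ _ => ?_
  rw [← Finset.mul_sum]
  exact mul_le_mul_of_nonneg_left (ws_sum_le hL ha N) hC

/-- Centred displacement of the end point of a new branch. -/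
noncomputable def inc (V : Finset Pt) (p : Pt → Fin 3 → ℝ) (φ : Pt → ℝ) (x : Pt)
    (T : Finset Pt) (σ : Cfg) : ℝ :=
  φ (root (V \ T) σ x) - HE V p (V \ T) φ x

/-- The martingale. -/
noncomputable def mart (δ : ℝ) (V : Finset Pt) (p : Pt → Fin 3 → ℝ) (φ : Pt → ℝ) (z : ℕ → ℂ)
    (th ρ : ℕ → ℝ) (n : ℕ) (L : ℝ) (N : ℕ) (σ : Cfg) : ℝ :=
  ∑ k ∈ Ico n N, ws δ V z th ρ n L σ k * inc V p φ (nr δ (z k)) (expl δ V z th σ k) σ

theorem mart_det {φ : Pt → ℝ} (h : ∀ v ∈ expl δ V z th σ N, σ' v = σ v) :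
    mart δ V p φ z th ρ n L N σ' = mart δ V p φ z th ρ n L N σ := by
  refine Finset.sum_congr rfl fun k hk => ?_
  have hk' := (Finset.mem_Ico.1 hk).2
  rw [ws_det hk'.le h, expl_det hk'.le h]
  by_cases h1 : Act δ V z th σ k
  · unfold inc
    rw [root_congr fun y hy => h y (mem_expl.2 ⟨k, hk', h1,
      branch_mono Finset.sdiff_subset hy⟩)]
  · simp [ws, h1]

theorem mart_sq (hp : Trans p) (φ : Pt → ℝ) (N : ℕ) :
    PE V p V (fun σ => mart δ V p φ z th ρ n L N σ ^ 2) =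
      ∑ k ∈ Ico n N, PE V p V fun σ =>
        ws δ V z th ρ n L σ k * inc V p φ (nr δ (z k)) (expl δ V z th σ k) σ ^ 2 := by
  induction N with
  | zero => simp [mart, PE_const hp]
  | succ N ih =>
    rcases lt_or_ge N n with h | h
    · simp [mart, Finset.Ico_eq_empty (show ¬ n < N + 1 by omega), PE_const hp]
    · rw [Finset.sum_Ico_succ_top h, ← ih, ← PE_add]
      have h0 : PE V p V (fun σ => (2 * mart δ V p φ z th ρ n L N σ * ws δ V z th ρ n L σ N) *
          inc V p φ (nr δ (z N)) (expl δ V z th σ N) σ) = 0 := by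
        rw [PE_markov hp (stopping_expl N) (fun _ => closed_expl N)
          (fun σ σ' h => by simp only [mart_det h, ws_det le_rfl h])
          (Φ := inc V p φ (nr δ (z N))) fun T σ σ' h => by simp only [inc, root_off h]]
        rw [← PE_const (V := V) (D := V) hp 0]
        refine PE_congr fun σ _ => ?_
        unfold inc
        rw [PE_sub, PE_const hp]
        simp [HE]
      rw [← add_zero (PE V p V fun σ => _ + _), ← h0, ← PE_add]
      refine PE_congr fun σ _ => ?_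
      have : ws δ V z th ρ n L σ N ^ 2 = ws δ V z th ρ n L σ N := by
        unfold ws
        by_cases h1 : Act δ V z th σ N ∧ qv δ V z th ρ n σ N < L <;> simp [h1]
      simp only [mart, Finset.sum_Ico_succ_top h]
      rw [add_sq, mul_pow, this]
      ring

end Pool.Agent.Lib.MP_60c5b4_pr
end

-- part Pool.Agent.Lib.MP_60c5b4_pr.Scheme
section

/-!
A multi-scale sequence of points, independent of the mesh.
-/

namespace Pool.Agent.Lib.MP_60c5b4_pr

open Finset Classical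

/-- Points `z k` with scales `ρ k`; those of index in `[n0, N)` lie well inside a region that is
densely covered by earlier points. -/
structure Scheme (z0 : ℂ) (r a β η : ℝ) (z : ℕ → ℂ) (ρ : ℕ → ℝ) (m : ℕ → ℕ) (n0 N : ℕ) :
    Prop where
  pos : ∀ k, 0 < ρ k
  small : ∀ k, ρ k ≤ a
  inside : ∀ k, dist (z k) z0 ≤ 3 * r
  inner : ∀ k, n0 ≤ k → dist (z k) z0 + m k * (4000 * ρ k) + ρ k ≤ 2 * r
  cover : ∀ k, n0 ≤ k → ∀ x, (dist x z0 ≤ r ∨ dist x (z k) ≤ m k * (4000 * ρ k) + ρ k) →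
    ∃ i < k, dist x (z i) ≤ 2 * ρ k ∧ ρ i ≤ 2 * ρ k
  one : ∀ k, 1 ≤ m k
  tail : ∀ k, q0 ^ m k ≤ β * ρ k ^ 2
  sum : ∑ k ∈ Ico n0 N, q0 ^ m k ≤ η

theorem exists_enum (G : ℕ → Finset ℂ) (hG : ∀ j, (G j).Nonempty) :
    ∃ (c lev : ℕ → ℕ) (z : ℕ → ℂ), c 0 = 0 ∧ (∀ j, c (j + 1) = c j + (G j).card) ∧
      (∀ k, c (lev k) ≤ k ∧ k < c (lev k + 1) ∧ z k ∈ G (lev k)) ∧
      (∀ j k, c j ≤ k → k < c (j + 1) → lev k = j) ∧
      ∀ j, ∀ g ∈ G j, ∃ k, c j ≤ k ∧ k < c (j + 1) ∧ z k = g := by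
  let c : ℕ → ℕ := fun j => ∑ i ∈ range j, (G i).card
  have hc : ∀ j, c (j + 1) = c j + (G j).card := fun j => Finset.sum_range_succ _ _
  have hc1 : StrictMono c := strictMono_nat_of_lt_succ fun j => by
    have := (hG j).card_pos
    rw [hc]; omega
  have hex : ∀ k, ∃ j, k < c (j + 1) := fun k => ⟨k, hc1.le_apply (x := k + 1)⟩
  let lev : ℕ → ℕ := fun k => Nat.find (hex k)
  have h1 : ∀ k, c (lev k) ≤ k ∧ k < c (lev k + 1) := by
    intro k
    refine ⟨?_, Nat.find_spec (hex k)⟩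
    rcases h : lev k with _ | j
    · simp [c]
    · exact not_lt.1 (Nat.find_min (hex k) (show j < lev k by omega))
  have h2 : ∀ j k, c j ≤ k → k < c (j + 1) → lev k = j := by
    intro j k a1 a2
    obtain ⟨b1, b2⟩ := h1 k
    have := hc1.lt_iff_lt.1 (a1.trans_lt b2)
    have := hc1.lt_iff_lt.1 (b1.trans_lt a2)
    omega
  let z : ℕ → ℂ := fun k => (G (lev k)).toList.getD (k - c (lev k)) 0
  refine ⟨c, lev, z, by simp [c], hc, fun k => ⟨(h1 k).1, (h1 k).2, ?_⟩, h2, fun j g hg => ?_⟩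
  · have h3 : k - c (lev k) < (G (lev k)).toList.length := by
      have := h1 k
      rw [hc] at this
      rw [Finset.length_toList]; omega
    simp only [z]
    rw [List.getD_eq_getElem _ _ h3]
    exact Finset.mem_toList.1 (List.getElem_mem h3)
  · obtain ⟨i, hi, e⟩ := List.getElem_of_mem (Finset.mem_toList.2 hg)
    have h3 : i < (G j).card := by rwa [Finset.length_toList] at hi
    have h4 := h2 j (c j + i) (by omega) (by rw [hc]; omega)
    refine ⟨c j + i, by omega, by rw [hc]; omega, ?_⟩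
    simp only [z, h4, Nat.add_sub_cancel_left]
    rw [List.getD_eq_getElem _ _ hi, e]

theorem exists_scheme (z0 : ℂ) {r a β η : ℝ} (hr : 0 < r) (ha : 0 < a) (hβ : 0 < β)
    (hη : 0 < η) (ε : ℕ → ℝ) (hε : ∀ n, 0 < ε n) :
    ∃ (z : ℕ → ℂ) (ρ : ℕ → ℝ) (m n : ℕ → ℕ), Monotone n ∧
      (∀ E, Scheme z0 r a β η z ρ m (n 0) (n E)) ∧
      ∀ e, ∀ x, dist x z0 ≤ r → ∃ i < n (e + 1), dist x (z i) ≤ ε (n e) ∧ ρ i ≤ ε (n e) := by
  have hq := q0_pos
  obtain ⟨b0, hb0⟩ := exists_pow_le (η := 1 / 8) (by norm_num)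
  set b := max b0 ⌈r / a⌉₊ with hb
  have hb1 : q0 ^ b ≤ 1 / 8 :=
    (pow_le_pow_of_le_one hq.le q0_lt_one.le (le_max_left _ _)).trans hb0
  have hb2 : r / a ≤ b := (Nat.le_ceil _).trans (by exact_mod_cast le_max_right _ _)
  obtain ⟨m0, hm0, hm1⟩ := exists_poly_pow_le 8000 (η := min (η / 200) (β * r ^ 2))
    (by positivity) b
  set K : ℝ := 1 + 8000 * (m0 + b) with hK
  have hm0' : (1 : ℝ) ≤ m0 := by exact_mod_cast hm0
  have hb0' : (0 : ℝ) ≤ b := by positivity
  have hK1 : 1 ≤ K := by linarith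
  set ρ0 := r / K with hρ0
  have hρ00 : 0 < ρ0 := by positivity
  have hρK : ρ0 * K = r := by rw [hρ0]; field_simp
  have hρa : ρ0 ≤ a := by
    rw [hρ0, div_le_iff₀ (by linarith)]
    rw [div_le_iff₀ ha] at hb2
    nlinarith
  let t : ℕ → ℝ := fun j => ρ0 / 2 ^ j
  have ht0 : ∀ j, 0 < t j := fun j => by positivity
  have ht1 : ∀ j, t j ≤ ρ0 := fun j => div_le_self hρ00.le (one_le_pow₀ (by norm_num))
  have ht2 : ∀ j, t j = 2 * t (j + 1) := fun j => by simp only [t, pow_succ]; field_simp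
  let R : ℕ → ℝ := fun j => r + t j * (2 + 4000 * (m0 + b * (j + 2)))
  have hR1 : ∀ j, R j = R (j + 1) + t (j + 1) * (2 + 4000 * (m0 + b * (j + 1))) := fun j => by
    simp only [R]; rw [ht2 j]; push_cast; ring
  have hR2 : ∀ j, R j ≤ 2 * r := by
    intro j
    induction j with
    | zero =>
      simp only [R, t]
      have : ρ0 * (2 + 4000 * (m0 + b * 2)) ≤ ρ0 * K :=
        mul_le_mul_of_nonneg_left (by rw [hK]; linarith) hρ00.le
      simp; linarith
    | succ j ih =>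
      have := hR1 j
      have : 0 ≤ t (j + 1) * (2 + 4000 * (m0 + b * (j + 1))) := by have := ht0 (j + 1); positivity
      linarith
  have hR3 : ∀ j, r ≤ R j := fun j => by
    have : 0 ≤ t j * (2 + 4000 * (m0 + b * (j + 2))) := by have := ht0 j; positivity
    simp only [R]; linarith
  have hρr : ρ0 ≤ r := by nlinarith
  choose G g1 g2 g3 using fun j => exists_net z0 (ht0 j) ((ht1 j).trans (hρr.trans (hR3 j)))
  have hGne : ∀ j, (G j).Nonempty := fun j => by
    obtain ⟨g, hg, -⟩ := g3 j z0 (by rw [dist_self]; linarith [hR3 j])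
    exact ⟨g, hg⟩
  obtain ⟨c, lev, z, c0, c1, c2, c3, c4⟩ := exists_enum G hGne
  have hcm : Monotone c := monotone_nat_of_le_succ fun j => by rw [c1]; omega
  have hpow : ∀ j : ℕ, q0 ^ (m0 + b * j) ≤ q0 ^ m0 * (1 / 8) ^ j := fun j => by
    rw [pow_add, pow_mul]
    exact mul_le_mul_of_nonneg_left (pow_le_pow_left₀ (by positivity) hb1 j) (by positivity)
  have hfind : ∀ e : ℝ, 0 < e → ∃ j, t j ≤ e := fun e he => by
    obtain ⟨j, hj⟩ := pow_unbounded_of_one_lt (ρ0 / e) (show (1 : ℝ) < 2 by norm_num)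
    refine ⟨j, ?_⟩
    simp only [t]
    rw [div_le_iff₀ (by positivity)]
    rw [div_lt_iff₀ he] at hj
    linarith
  choose jj hjj using fun n => hfind (ε n) (hε n)
  let J : ℕ → ℕ := fun e => Nat.rec 1 (fun _ j => max j (jj (c j) + 1)) e
  have hJ0 : J 0 = 1 := rfl
  have hJ : ∀ e, J (e + 1) = max (J e) (jj (c (J e)) + 1) := fun e => rfl
  have hJm : Monotone J := monotone_nat_of_le_succ fun e => by rw [hJ]; exact le_max_left _ _
  have hcov : ∀ j x, dist x z0 ≤ R j → ∃ i < c (j + 1), dist x (z i) ≤ t j ∧ t (lev i) ≤ t j := by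
    intro j x hx
    obtain ⟨g, hg, h1⟩ := g3 j x hx
    obtain ⟨i, i1, i2, i3⟩ := c4 j g hg
    exact ⟨i, i2, i3 ▸ h1, by rw [c3 j i i1 i2]⟩
  have hlev : ∀ k, c 1 ≤ k → ∃ j, lev k = j + 1 := by
    intro k hk
    rcases h : lev k with _ | j
    · have := (c2 k).2.1
      rw [h] at this
      simp at this; omega
    · exact ⟨j, rfl⟩
  refine ⟨z, fun k => t (lev k), fun k => m0 + b * lev k, fun e => c (J e), hcm.comp hJm,
    fun E => ⟨fun k => ht0 _, fun k => (ht1 _).trans hρa, fun k => ?_, fun k hk => ?_,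
      fun k hk x hx => ?_, fun k => by omega, fun k => ?_, ?_⟩, fun e x hx => ?_⟩
  · have := g2 _ _ (c2 k).2.2
    have := hR2 (lev k)
    have := ht1 (lev k)
    linarith
  · obtain ⟨j, hj⟩ := hlev k hk
    have h1 := g2 _ _ (c2 k).2.2
    have h2 := hR1 j
    have h3 := hR2 j
    simp only [hj] at h1 ⊢
    push_cast
    linarith
  · obtain ⟨j, hj⟩ := hlev k hk
    have h1 := g2 _ _ (c2 k).2.2
    have h2 := hR1 j
    have h4 := (c2 k).1
    simp only [hj] at h1 h4 hx ⊢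
    obtain ⟨i, i1, i2, i3⟩ := hcov j x (by
      rcases hx with hx | hx
      · exact hx.trans (hR3 j)
      · have := dist_triangle x (z k) z0
        push_cast at hx
        linarith)
    exact ⟨i, i1.trans_le h4, by rw [← ht2]; exact i2, by rw [← ht2]; exact i3⟩
  · refine (hpow _).trans ?_
    have h1 : K ^ 2 * q0 ^ m0 ≤ β * r ^ 2 := hm1.trans (min_le_right _ _)
    have h2 : q0 ^ m0 ≤ β * ρ0 ^ 2 := by
      rw [← hρK] at h1
      have : K ^ 2 * q0 ^ m0 ≤ K ^ 2 * (β * ρ0 ^ 2) := by linarith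
      exact le_of_mul_le_mul_left this (by positivity)
    have h3 : (1 / 8 : ℝ) ^ lev k ≤ (1 / 4) ^ lev k :=
      pow_le_pow_left₀ (by norm_num) (by norm_num) _
    calc _ ≤ β * ρ0 ^ 2 * (1 / 4) ^ lev k := mul_le_mul h2 h3 (by positivity) (by positivity)
      _ = _ := by
        simp only [t]
        rw [show (1 / 4 : ℝ) = 1 / 2 ^ 2 by norm_num, one_div_pow, ← pow_mul, mul_comm 2, pow_mul,
          div_pow ρ0]
        ring
  · have key : ∀ j : ℕ, ∑ k ∈ Ico 0 (c j), q0 ^ (m0 + b * lev k) ≤ η * (1 - (1 / 2) ^ j) := by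
      intro j
      induction j with
      | zero => simp [c0]
      | succ j ih =>
        rw [← Finset.sum_Ico_consecutive _ (Nat.zero_le _) (hcm (Nat.le_succ j))]
        have e : ∑ k ∈ Ico (c j) (c (j + 1)), q0 ^ (m0 + b * lev k) =
            (G j).card * q0 ^ (m0 + b * j) := by
          rw [Finset.sum_congr rfl fun k hk => by
            rw [c3 j k (Finset.mem_Ico.1 hk).1 (Finset.mem_Ico.1 hk).2]]
          simp [c1]
        have h1 : R j / t j ≤ 2 * K * 2 ^ j := by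
          rw [div_le_iff₀ (ht0 j)]
          have : 2 * K * 2 ^ j * t j = 2 * r := by simp only [t]; rw [← hρK]; field_simp
          rw [this]; exact hR2 j
        have h2 : (R j / t j) ^ 2 ≤ (2 * K * 2 ^ j) ^ 2 :=
          pow_le_pow_left₀ (div_nonneg (by linarith [hR3 j]) (ht0 j).le) h1 2
        have h3 : ((G j).card : ℝ) * q0 ^ (m0 + b * j) ≤
            25 * (2 * K * 2 ^ j) ^ 2 * (q0 ^ m0 * (1 / 8) ^ j) :=
          mul_le_mul (by linarith [g1 j]) (hpow j) (by positivity) (by positivity)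
        have h4 : (25 : ℝ) * (2 * K * 2 ^ j) ^ 2 * (q0 ^ m0 * (1 / 8) ^ j) =
            100 * (K ^ 2 * q0 ^ m0) * (1 / 2) ^ j := by
          rw [show (1 / 8 : ℝ) = 1 / 2 ^ 3 by norm_num, one_div_pow, one_div_pow, ← pow_mul,
            mul_comm 3 j, pow_mul]
          field_simp
          ring
        have h5 : K ^ 2 * q0 ^ m0 ≤ η / 200 := hm1.trans (min_le_left _ _)
        have h6 := mul_le_mul_of_nonneg_right h5 (by positivity : (0 : ℝ) ≤ (1 / 2) ^ j)
        rw [e, pow_succ]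
        linarith
    have h1 := key (J E)
    have h2 : 0 ≤ η * (1 / 2) ^ J E := by positivity
    refine le_trans (Finset.sum_le_sum_of_subset_of_nonneg
      (Finset.Ico_subset_Ico_left (Nat.zero_le _)) fun _ _ _ => by positivity) (by linarith)
  · obtain ⟨i, i1, i2, i3⟩ := hcov (jj (c (J e))) x (hx.trans (hR3 _))
    refine ⟨i, i1.trans_le (hcm (by rw [hJ]; exact le_max_right _ _)), i2.trans (hjj _),
      i3.trans (hjj _)⟩

end Pool.Agent.Lib.MP_60c5b4_pr
end
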